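import Pool.Agent.P.MP_038aca_al.Count

/-! Two counting inequalities in finite nilpotent quotients. -/

namespace Pool.Agent.P.MP_038aca_al

open Subgroup
open scoped commutatorElement

/-- Conjugating a homomorphism. -/
def conjHom {G Q : Type*} [Group G] [Group Q] (κ : Q) (α : G →* Q) : G →* Q :=
  (MulAut.conj κ).toMonoidHom.comp α

theorem conjHom_apply {G Q : Type*} [Group G] [Group Q] (κ : Q) (α : G →* Q) (x : G) :
    conjHom κ α x = κ * α x * κ⁻¹ := rfl

theorem ofFn_prod_conj {Q : Type*} [Group Q] {r : ℕ} (κ : Q) (f : Fin r → Q) :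
    (List.ofFn fun i => κ * f i * κ⁻¹).prod = κ * (List.ofFn f).prod * κ⁻¹ := by
  have := map_list_prod (MulAut.conj κ).toMonoidHom (List.ofFn f)
  rw [List.map_ofFn] at this
  exact this.symm

theorem count_A {G Q : Type*} [Group G] [Group Q] [Finite Q] (𝒜 : Set (G →* Q)) [Finite 𝒜]
    (hconj : ∀ α ∈ 𝒜, ∀ κ, conjHom κ α ∈ 𝒜) (hsurj : ∀ α ∈ 𝒜, Function.Surjective α)
    (C : Set G) [Finite C] (r : ℕ) (hr : 0 < r) (A K : Subgroup Q)
    (hAK : ∀ a ∈ A, ∀ κ ∈ K, κ * a * κ⁻¹ = a)
    (hcov : ∀ a ∈ A, ∃ (α : Fin r → 𝒜) (c : Fin r → C),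
      (List.ofFn fun i => (α i).1 (c i)).prod = a) :
    Nat.card A * Nat.card K ≤ Nat.card 𝒜 ^ r * Nat.card C ^ r * Nat.card (center Q) := by
  choose α c hαc using hcov
  let F : A × K → (Fin r → 𝒜) × (Fin r → C) := fun z =>
    (fun i => ⟨conjHom z.2 (α z.1 z.1.2 i), hconj _ (α z.1 z.1.2 i).2 _⟩, c z.1 z.1.2)
  have hF : ∀ z, (List.ofFn fun i => ((F z).1 i).1 ((F z).2 i)).prod = z.1 := by
    intro z
    simp only [F, conjHom_apply]
    rw [ofFn_prod_conj, hαc, hAK _ z.1.2 _ z.2.2]
  have := card_mul_le_of_fiber F 1 (Nat.card (center Q)) (by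
    intro b
    rw [mul_one]
    rcases isEmpty_or_nonempty {a // F a = b} with he | ⟨⟨z₀, hz₀⟩⟩
    · simp
    have h1 : ∀ z : {a // F a = b}, z.1.1 = z₀.1 := by
      intro z
      apply Subtype.ext
      rw [← hF z.1, ← hF z₀, z.2, hz₀]
    have h2 : ∀ z : {a // F a = b}, (z₀.2 : Q)⁻¹ * z.1.2 ∈ center Q := by
      rintro ⟨⟨a, κ⟩, hz⟩
      obtain ⟨a₀, κ₀⟩ := z₀
      have := h1 ⟨_, hz⟩
      simp only at this
      subst this
      have e := congrArg (fun b => (b.1 ⟨0, hr⟩).1) (hz.trans hz₀.symm)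
      simp only [F] at e
      rw [mem_center_iff]
      intro y
      obtain ⟨y, rfl⟩ := hsurj _ (α a a.2 ⟨0, hr⟩).2 y
      have e2 := DFunLike.congr_fun e y
      rw [conjHom_apply, conjHom_apply] at e2
      calc _ = (κ₀ : Q)⁻¹ * (κ₀ * (α a a.2 ⟨0, hr⟩).1 y * (κ₀ : Q)⁻¹) * κ := by group
        _ = _ := by rw [← e2]; group
    refine Nat.card_le_card_of_injective (fun z => (⟨_, h2 z⟩ : center Q)) ?_
    intro z z' h
    refine Subtype.ext (Prod.ext ((h1 z).trans (h1 z').symm) (Subtype.ext ?_))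
    simpa using h)
  rwa [mul_one, Nat.card_prod, Nat.card_prod, Nat.card_fun, Nat.card_fun, Nat.card_fin] at this

theorem count_B {Q : Type*} [Group Q] [Finite Q] {r : ℕ} (x : Fin r → Q)
    (hgen : closure (Set.range x) = ⊤) (e : ℕ) (he0 : 0 < e) (he : ∀ g : Q, g ^ e = 1) (n : ℕ)
    (hnil : (⊤ : Subgroup Q).lowerCentralSeries (n + 1) = ⊥) :
    Nat.card Q ≤ e ^ r * (center Q).index ^ r := by
  classical
  have h1 : (commutator Q).index ≤ e ^ r := by
    have h2 : Nat.card (Abelianization Q) ∣ e ^ Group.rank (Abelianization Q) := by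
      apply card_dvd_exponent_pow_rank'
      intro g
      obtain ⟨g, rfl⟩ := QuotientGroup.mk_surjective g
      change Abelianization.of g ^ e = 1
      rw [← map_pow, he, map_one]
    have h3 : Group.rank (Abelianization Q) ≤ r := by
      refine (Group.rank_le_of_surjective Abelianization.of QuotientGroup.mk_surjective).trans ?_
      refine (Group.rank_le (S := Finset.univ.image x) (by simpa using hgen)).trans ?_
      exact Finset.card_image_le.trans (by simp)
    exact (Nat.le_of_dvd (by positivity) h2).trans (Nat.pow_le_pow_right he0 h3)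
  have h4 : Nat.card (commutator Q) ≤ (center Q).index ^ r := by
    let F : (Fin r → Q ⧸ center Q) → Q := fun h =>
      (List.ofFn x).prod⁻¹ * (List.ofFn fun i => (h i).out * x i * (h i).out⁻¹).prod
    have := card_le_of_subset_range F (commutator Q) (by
      intro y hy
      obtain ⟨h, hh⟩ := exists_conj_prod x (by rw [hgen, top_sup_eq]) ((List.ofFn x).prod * y)
        (by simpa using hy) n
      rw [hnil, mem_bot, inv_mul_eq_one] at hh
      refine ⟨fun i => h i, ?_⟩
      simp only [F]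
      rw [inv_mul_eq_iff_eq_mul, ← hh]
      congr 2
      funext i
      have : (h i)⁻¹ * (h i : Q ⧸ center Q).out ∈ center Q := by
        rw [← QuotientGroup.eq, QuotientGroup.out_eq']
      calc _ = h i * (((h i)⁻¹ * (h i : Q ⧸ center Q).out) * x i) * (h i : Q ⧸ center Q).out⁻¹ := by
            group
        _ = _ := by rw [← center_comm this]; group)
    rwa [Nat.card_fun, Nat.card_fin] at this
  rw [← (commutator Q).index_mul_card]
  exact Nat.mul_le_mul h1 h4

end Pool.Agent.P.MP_038aca_al
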