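import Mathlib

/-! Definitions for the simple-curve diameters of lower central quotients of surface groups. -/

namespace Pool.Agent.P.MP_038aca_al

/-- Generators of the fundamental group of the surface with `g` handles, `k` crosscaps and `p`
punctures: `a i`, `b i` (`i < g`), `e j` (`j < k`), `c l` (`l < p`), in this order. -/
abbrev Gen (g k p : ℕ) : Type := Fin g ⊕ Fin g ⊕ Fin k ⊕ Fin p

/-- The word `[a_1,b_1] ⋯ [a_g,b_g] · e_1^2 ⋯ e_k^2 · c_1 ⋯ c_p` evaluated at a tuple `t`,
where `[x,y] = x y x⁻¹ y⁻¹`. -/
def surfaceWord {G : Type*} [Group G] {g k p : ℕ} (t : Gen g k p → G) : G :=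
  (List.ofFn fun i : Fin g =>
      t (.inl i) * t (.inr (.inl i)) * (t (.inl i))⁻¹ * (t (.inr (.inl i)))⁻¹).prod *
    (List.ofFn fun j : Fin k => t (.inr (.inr (.inl j))) ^ 2).prod *
    (List.ofFn fun l : Fin p => t (.inr (.inr (.inr l)))).prod

/-- The fundamental group of the surface with `g` handles, `k` crosscaps and `p` punctures. -/
abbrev SurfaceGroup (g k p : ℕ) : Type :=
  PresentedGroup ({surfaceWord FreeGroup.of} : Set (FreeGroup (Gen g k p)))

/-- The generator `a i`. -/
def genA {g k p : ℕ} (i : Fin g) : SurfaceGroup g k p := PresentedGroup.of (.inl i)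

/-- The generator `e j` (core of the `j`-th crosscap). -/
def genE {g k p : ℕ} (j : Fin k) : SurfaceGroup g k p := PresentedGroup.of (.inr (.inr (.inl j)))

/-- The generator `c l` (loop around the `l`-th puncture). -/
def genC {g k p : ℕ} (l : Fin p) : SurfaceGroup g k p := PresentedGroup.of (.inr (.inr (.inr l)))

/-- Peripheral elements: the conjugates of the loops `c l` and of their inverses. -/
def peripheral (g k p : ℕ) : Set (SurfaceGroup g k p) :=
  {x | ∃ l : Fin p, IsConj x (genC l) ∨ IsConj x (genC l)⁻¹}

/-- The union of the orbits of the elements of `C` under the automorphisms of the surface group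
that preserve the set of peripheral elements. -/
def orbitSet {g k p : ℕ} (C : Set (SurfaceGroup g k p)) : Set (SurfaceGroup g k p) :=
  {x | ∃ φ : MulAut (SurfaceGroup g k p),
    φ '' peripheral g k p = peripheral g k p ∧ ∃ y ∈ C, x = φ y}

/-- The standard nonseparating simple closed curves `a i`, `e j` and `a i * e j`. -/
def standardCurves (g k p : ℕ) : Set (SurfaceGroup g k p) :=
  Set.range genA ∪ Set.range genE ∪ {x | ∃ (i : Fin g) (j : Fin k), x = genA i * genE j}

/-- Word length of `x` with respect to `T`: the least `n` such that `x` is a product of `n`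
elements of `T ∪ T⁻¹` (and `⊤` if there is none). -/
noncomputable def wordLength {G : Type*} [Group G] (T : Set G) (x : G) : ℕ∞ :=
  ⨅ (l : List G) (_ : ∀ y ∈ l, y ∈ T ∨ y⁻¹ ∈ T) (_ : l.prod = x), (l.length : ℕ∞)

/-- Diameter of `G` with respect to `T`. -/
noncomputable def diameter {G : Type*} [Group G] (T : Set G) : ℕ∞ :=
  ⨆ x : G, wordLength T x

/-- `d_n`: the diameter of `L_n = π / π_n` (lower central series, `π_0 = π`) with respect to the
image of `S`. -/
noncomputable def lcsDiameter {G : Type*} [Group G] (S : Set G) (n : ℕ) : ℕ∞ :=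
  diameter (QuotientGroup.mk' ((⊤ : Subgroup G).lowerCentralSeries n) '' S)

/-- The value of the limit: `rank π + 1` when there is a handle (torus excepted, where it is `2`);
without handles `0` for sphere and disc, `1` for the projective plane and `⊤` otherwise. -/
def limitValue (g k p : ℕ) : ℕ∞ :=
  if g = 0 then (if k = 0 ∧ p ≤ 1 then 0 else if k = 1 ∧ p = 0 then 1 else ⊤)
  else if g = 1 ∧ k = 0 ∧ p = 0 then 2 else ((2 * g + k + (p - 1) + 1 : ℕ) : ℕ∞)

end Pool.Agent.P.MP_038aca_al
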