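import Pool.Agent.P.MP_038aca_al.PSeries
import Pool.Agent.P.MP_038aca_al.Defs

/-! Central layers: bilinearity of commutators, and products of conjugates in nilpotent
quotients. -/

namespace Pool.Agent.P.MP_038aca_al

open Subgroup
open scoped commutatorElement

section central
variable {A H : Type*} [Group A] [Group H]

instance centerCommGroup (H : Type*) [Group H] : CommGroup (center H) :=
  { (inferInstance : Group (center H)) with
    mul_comm := fun a b => Subtype.ext (mem_center_iff.1 b.2 a) }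

theorem center_comm {z : H} (hz : z ∈ center H) (x : H) : x * z = z * x :=
  mem_center_iff.1 hz x

theorem center_conj {z : H} (hz : z ∈ center H) (x : H) : x * z * x⁻¹ = z := by
  rw [center_comm hz]; group

/-- `u ↦ [f u, y]` when these commutators are central. -/
def brH (f : A →* H) (hf : ∀ a y, ⁅f a, y⁆ ∈ center H) (y : H) : A →* center H where
  toFun a := ⟨⁅f a, y⁆, hf a y⟩
  map_one' := by ext; simp
  map_mul' a b := by
    ext
    have : ⁅f a * f b, y⁆ = f a * ⁅f b, y⁆ * (f a)⁻¹ * ⁅f a, y⁆ := by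
      simp only [commutatorElement_def]; group
    simp only [map_mul, MulMemClass.mk_mul_mk]
    rw [this, center_conj (hf b y), center_comm (hf a y)]

/-- `u ↦ (f u)^2` when these squares are central and commute. -/
def sqH (f : A →* H) (hs : ∀ a, f a ^ 2 ∈ center H) (hc : ∀ a b, Commute (f a) (f b)) :
    A →* center H where
  toFun a := ⟨f a ^ 2, hs a⟩
  map_one' := by ext; simp
  map_mul' a b := by
    ext
    simp only [map_mul, MulMemClass.mk_mul_mk]
    exact (hc a b).mul_pow 2

/-- Product of homomorphisms into a commutative group. -/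
def piHom {ι Z : Type*} [Fintype ι] [CommGroup Z] (l : ι → A →* Z) : (ι → A) →* Z where
  toFun u := ∏ i, l i (u i)
  map_one' := by simp
  map_mul' u v := by simp [Finset.prod_mul_distrib]

theorem piHom_apply {ι Z : Type*} [Fintype ι] [CommGroup Z] (l : ι → A →* Z) (u : ι → A) :
    piHom l u = ∏ i, l i (u i) := rfl

theorem piHom_single {ι Z : Type*} [Fintype ι] [DecidableEq ι] [CommGroup Z] (l : ι → A →* Z)
    (i : ι) (a : A) : piHom l (Pi.mulSingle i a) = l i a := by
  rw [piHom_apply, Finset.prod_eq_single i]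
  · simp
  · intro j _ hj; simp [Pi.mulSingle_eq_of_ne hj]
  · simp

theorem ofFn_prod_central {n : ℕ} (F : Fin n → H) (z : Fin n → center H) :
    (List.ofFn fun i => F i * (z i : H)).prod = (List.ofFn F).prod * ((∏ i, z i : center H) : H) := by
  induction n with
  | zero => simp
  | succ n ih =>
    rw [List.ofFn_succ, List.ofFn_succ, List.prod_cons, List.prod_cons, ih, Fin.prod_univ_succ]
    simp only [Subgroup.coe_mul, mul_assoc]
    rw [← mul_assoc (z 0 : H), ← center_comm (z 0).2, mul_assoc]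

theorem normal_of_le_center {K : Subgroup H} (h : K ≤ center H) : K.Normal :=
  ⟨fun x hx y => by rw [center_conj (h hx)]; exact hx⟩

theorem conj_layer (f : A →* H) (hf : ∀ a y, ⁅f a, y⁆ ∈ center H) (h w : H) (u : A) :
    h * f u * w * (h * f u)⁻¹ = h * w * h⁻¹ * (brH f hf w u : H) := by
  have : h * f u * w * (h * f u)⁻¹ = h * ⁅f u, w⁆ * w * h⁻¹ := by
    simp only [commutatorElement_def]; group
  rw [this, center_comm (hf u w) h, mul_assoc _ h, mul_assoc _ (h * w), ← center_comm (hf u w)]
  rfl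

theorem comm_layer (f : A →* H) (hf : ∀ a y, ⁅f a, y⁆ ∈ center H)
    (hc : ∀ a b, Commute (f a) (f b)) (a b : H) (u v : A) :
    a * f u * (b * f v) * (a * f u)⁻¹ * (b * f v)⁻¹ =
      a * b * a⁻¹ * b⁻¹ * ((brH f hf b u * brH f hf a⁻¹ v : center H) : H) := by
  have h1 : a * f u * (b * f v) * (a * f u)⁻¹ * (b * f v)⁻¹ =
      a * (⁅f u, b⁆ * (b * (f u * f v * (f u)⁻¹ * (f v)⁻¹) * b⁻¹)) * a⁻¹ *
        (a * b * a⁻¹ * b⁻¹ * (b * a * ⁅f v, a⁻¹⁆ * (b * a)⁻¹)) := by
    simp only [commutatorElement_def]; group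
  have h2 : f u * f v * (f u)⁻¹ * (f v)⁻¹ = 1 := by rw [(hc u v).eq]; group
  rw [h1, h2, mul_one, mul_inv_cancel, mul_one, center_conj (hf u b), center_conj (hf v a⁻¹),
    ← mul_assoc, ← center_comm (hf u b), mul_assoc (a * b * a⁻¹ * b⁻¹)]
  rfl

theorem sq_layer (f : A →* H) (hf : ∀ a y, ⁅f a, y⁆ ∈ center H)
    (hs : ∀ a, f a ^ 2 ∈ center H) (hc : ∀ a b, Commute (f a) (f b)) (e : H) (u : A) :
    (e * f u) ^ 2 = e ^ 2 * ((brH f hf e u * sqH f hs hc u : center H) : H) := by
  have h1 : (e * f u) ^ 2 = e ^ 2 * (e⁻¹ * ⁅f u, e⁆ * e⁻¹⁻¹ * f u ^ 2) := by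
    simp only [commutatorElement_def, sq]; group
  rw [h1, center_conj (hf u e)]
  rfl

end central

variable {G : Type*} [Group G]

theorem mk_mem_center {N : Subgroup G} [N.Normal] {x : G} (h : ∀ y, ⁅x, y⁆ ∈ N) :
    (QuotientGroup.mk x : G ⧸ N) ∈ center (G ⧸ N) := by
  rw [mem_center_iff]
  intro y
  obtain ⟨y, rfl⟩ := QuotientGroup.mk_surjective y
  rw [eq_comm, ← commutatorElement_eq_one_iff_mul_comm]
  exact (QuotientGroup.eq_one_iff ⁅x, y⁆).2 (h y)

theorem lcs_commutator (n : ℕ) :
    ⁅(⊤ : Subgroup G).lowerCentralSeries n, commutator G⁆ ≤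
      (⊤ : Subgroup G).lowerCentralSeries (n + 2) := by
  rw [commutator_comm, commutator_def]
  apply three_subgroups
  · rw [commutator_comm ⊤]; exact le_rfl
  · exact le_rfl

/-- If `x i` generate `G` modulo commutators, products of conjugates of the `x i` fill the coset
of `∏ x i` modulo every term of the lower central series. -/
theorem exists_conj_prod {r : ℕ} (x : Fin r → G)
    (hgen : closure (Set.range x) ⊔ commutator G = ⊤) (g : G)
    (hg : (List.ofFn x).prod⁻¹ * g ∈ commutator G) (n : ℕ) :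
    ∃ h : Fin r → G, (List.ofFn fun i => h i * x i * (h i)⁻¹).prod⁻¹ * g ∈
      (⊤ : Subgroup G).lowerCentralSeries (n + 1) := by
  classical
  induction n with
  | zero =>
    refine ⟨fun _ => 1, ?_⟩
    simp only [one_mul, inv_one, mul_one]
    exact hg
  | succ n ih =>
    obtain ⟨h, hh⟩ := ih
    set N := (⊤ : Subgroup G).lowerCentralSeries (n + 2) with hN
    let f : (⊤ : Subgroup G).lowerCentralSeries n →* G ⧸ N :=
      (QuotientGroup.mk' N).comp (Subgroup.subtype _)
    have hf : ∀ a y, ⁅f a, y⁆ ∈ center (G ⧸ N) := by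
      intro a y
      obtain ⟨y, rfl⟩ := QuotientGroup.mk_surjective y
      change ((⁅(a : G), y⁆ : G) : G ⧸ N) ∈ _
      apply mk_mem_center
      intro z
      exact commutator_mem_commutator (commutator_mem_commutator a.2 (mem_top _)) (mem_top _)
    let L := piHom fun i => brH f hf (x i : G ⧸ N)
    let M : Subgroup G := (L.range.map (center (G ⧸ N)).subtype).comap (QuotientGroup.mk' N)
    have hM : M.Normal := by
      have : (L.range.map (center (G ⧸ N)).subtype).Normal :=
        normal_of_le_center (map_subtype_le _)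
      infer_instance
    have hle : ⁅(⊤ : Subgroup G).lowerCentralSeries n, (⊤ : Subgroup G)⁆ ≤ M := by
      refine commutator_top_le x _ (commutator G) M hgen ?_ ?_
      · intro u hu i
        refine ⟨L (Pi.mulSingle i ⟨u, hu⟩), ⟨_, rfl⟩, ?_⟩
        rw [piHom_single]
        rfl
      · intro u hu y hy
        have : ⁅u, y⁆ ∈ N := lcs_commutator n (commutator_mem_commutator hu hy)
        refine ⟨1, one_mem _, ?_⟩
        rw [map_one, eq_comm]
        exact (QuotientGroup.eq_one_iff ⁅u, y⁆).2 this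
    obtain ⟨_, ⟨u, rfl⟩, hu⟩ := hle hh
    refine ⟨fun i => h i * u i, ?_⟩
    rw [← QuotientGroup.eq]
    have e1 : ((List.ofFn fun i => h i * u i * x i * (h i * u i)⁻¹).prod : G ⧸ N) =
        (List.ofFn fun i => (h i : G ⧸ N) * (x i : G ⧸ N) * (h i : G ⧸ N)⁻¹ *
          (brH f hf (x i : G ⧸ N) (u i) : G ⧸ N)).prod := by
      change QuotientGroup.mk' N _ = _
      rw [map_list_prod, List.map_ofFn]
      congr 2
      funext i
      rw [← conj_layer]
      rfl
    have e2 : ((List.ofFn fun i => h i * x i * (h i)⁻¹).prod : G ⧸ N) =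
        (List.ofFn fun i => (h i : G ⧸ N) * (x i : G ⧸ N) * (h i : G ⧸ N)⁻¹).prod := by
      change QuotientGroup.mk' N _ = _
      rw [map_list_prod, List.map_ofFn]
      rfl
    rw [e1, ofFn_prod_central, ← e2]
    have e3 : ((∏ i, brH f hf (x i : G ⧸ N) (u i) : center (G ⧸ N)) : G ⧸ N) =
        (((List.ofFn fun i => h i * x i * (h i)⁻¹).prod⁻¹ * g : G) : G ⧸ N) := hu
    rw [e3, ← QuotientGroup.mk_mul]
    simp

/-- The tuple obtained from `t` by putting `t (c l) * w l * (t (c l))⁻¹` in the puncture slots. -/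
def conjTuple {g k p : ℕ} (w : Fin p → G) (t : Gen g k p → G) : Gen g k p → G
  | .inr (.inr (.inr l)) => t (.inr (.inr (.inr l))) * w l * (t (.inr (.inr (.inr l))))⁻¹
  | x => t x

/-- The elements paired with each slot in the linearisation of the surface word. -/
def dualTuple {g k p : ℕ} (w : Fin p → G) (t : Gen g k p → G) : Gen g k p → G
  | .inl i => t (.inr (.inl i))
  | .inr (.inl i) => (t (.inl i))⁻¹
  | .inr (.inr (.inl j)) => t (.inr (.inr (.inl j)))
  | .inr (.inr (.inr l)) => w l

/-- `1` on the crosscap slots. -/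
def epsTuple {g k p : ℕ} : Gen g k p → ℕ
  | .inr (.inr (.inl _)) => 1
  | _ => 0

theorem map_surfaceWord {H : Type*} [Group H] {g k p : ℕ} (φ : G →* H) (t : Gen g k p → G) :
    φ (surfaceWord t) = surfaceWord (fun x => φ (t x)) := by
  simp only [surfaceWord, map_mul, map_list_prod, List.map_ofFn]
  simp only [Function.comp_def, map_mul, map_inv, map_pow]

theorem surface_layer {A H : Type*} [Group A] [Group H] {g k p : ℕ} (f : A →* H)
    (hf : ∀ a y, ⁅f a, y⁆ ∈ center H) (hs : ∀ a, f a ^ 2 ∈ center H)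
    (hc : ∀ a b, Commute (f a) (f b)) (w : Fin p → H) (t : Gen g k p → H) (u : Gen g k p → A) :
    surfaceWord (conjTuple w fun x => t x * f (u x)) = surfaceWord (conjTuple w t) *
      (piHom (fun x => brH f hf (dualTuple w t x) * sqH f hs hc ^ epsTuple x) u : H) := by
  simp only [surfaceWord, conjTuple, comm_layer f hf hc, sq_layer f hf hs hc]
  simp only [conj_layer f hf, ofFn_prod_central]
  simp only [piHom_apply, Fintype.prod_sum_type, dualTuple, epsTuple, pow_zero, mul_one,
    pow_one, MonoidHom.mul_apply, Finset.prod_mul_distrib, Subgroup.coe_mul, MonoidHom.one_apply,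
    Finset.prod_const_one, Subgroup.coe_one, one_mul]
  generalize (∏ i : Fin g, brH f hf (t (.inr (.inl i))) (u (.inl i))) = z1
  generalize (∏ i : Fin g, brH f hf (t (.inl i))⁻¹ (u (.inr (.inl i)))) = z2
  generalize (∏ i : Fin k, brH f hf (t (.inr (.inr (.inl i)))) (u (.inr (.inr (.inl i))))) = z3
  generalize (∏ i : Fin k, sqH f hs hc (u (.inr (.inr (.inl i))))) = z4
  generalize (∏ i : Fin p, brH f hf (w i) (u (.inr (.inr (.inr i))))) = z5
  generalize (List.ofFn fun i : Fin g => t (.inl i) * t (.inr (.inl i)) * (t (.inl i))⁻¹ *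
    (t (.inr (.inl i)))⁻¹).prod = X
  generalize (List.ofFn fun i : Fin k => t (.inr (.inr (.inl i))) ^ 2).prod = Y
  generalize (List.ofFn fun i : Fin p => t (.inr (.inr (.inr i))) * w i *
    (t (.inr (.inr (.inr i))))⁻¹).prod = W
  have h12 := center_comm (mul_mem z1.2 z2.2)
  have h34 := center_comm (mul_mem z3.2 z4.2)
  calc X * ((z1 : H) * z2) * (Y * ((z3 : H) * z4)) * (W * z5)
      = X * (((z1 : H) * z2) * (Y * (((z3 : H) * z4) * W))) * z5 := by group
    _ = X * ((Y * (W * ((z3 : H) * z4))) * ((z1 : H) * z2)) * z5 := by rw [← h12, ← h34]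
    _ = X * Y * W * (((z3 : H) * z4) * ((z1 : H) * z2) * z5) := by group
    _ = X * Y * W * (((z1 : H) * z2) * z3 * ((z4 : H) * z5)) := by rw [h12]; group
    _ = _ := by rw [center_comm z5.2 z4]; group

end Pool.Agent.P.MP_038aca_al
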