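import Pool.Agent.P.MP_038aca_al.Central

/-! Counting solutions of the surface relation in the layers of the lower 2-central series. -/

namespace Pool.Agent.P.MP_038aca_al

open Subgroup
open scoped commutatorElement

variable {G : Type*} [Group G]

/-- `P (m+1) → G / P (m+3)`. -/
def fP (G : Type*) [Group G] (m : ℕ) : P G (m + 1) →* G ⧸ P G (m + 3) :=
  (QuotientGroup.mk' _).comp (Subgroup.subtype _)

theorem mk_mem_center_P {j : ℕ} {x : G} (hx : x ∈ P G j) :
    (QuotientGroup.mk x : G ⧸ P G (j + 1)) ∈ center (G ⧸ P G (j + 1)) :=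
  mk_mem_center fun y => comm_mem_P hx y

theorem fP_br (m : ℕ) (a : P G (m + 1)) (y : G ⧸ P G (m + 3)) :
    ⁅fP G m a, y⁆ ∈ center (G ⧸ P G (m + 3)) := by
  obtain ⟨y, rfl⟩ := QuotientGroup.mk_surjective y
  exact mk_mem_center_P (comm_mem_P a.2 y)

theorem fP_sq (m : ℕ) (a : P G (m + 1)) : fP G m a ^ 2 ∈ center (G ⧸ P G (m + 3)) :=
  mk_mem_center_P (sq_mem_P a.2)

theorem fP_comm (m : ℕ) (a b : P G (m + 1)) : Commute (fP G m a) (fP G m b) := by
  rw [← commutatorElement_eq_one_iff_commute]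
  exact (QuotientGroup.eq_one_iff ⁅(a : G), (b : G)⁆).2 (comm_mem_PP a.2 b.2 (by omega))

/-- The linearisation `u ↦ ∏ [u i, Y i] (u i)^(2 ε i)` on the layer `P (m+1)`. -/
def layerHom {ι : Type*} [Fintype ι] (m : ℕ) (Y : ι → G ⧸ P G (m + 3)) (ε : ι → ℕ) :
    (ι → P G (m + 1)) →* center (G ⧸ P G (m + 3)) :=
  piHom fun x => brH (fP G m) (fP_br m) (Y x) * sqH (fP G m) (fP_sq m) (fP_comm m) ^ ε x

section coker
variable {ι : Type*} (Y : ι → G) (ε : ι → ℕ)

/-- Preimage in `G` of the image of the linearisation. -/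
def imM (m : ℕ) : Subgroup G :=
  P G (m + 3) ⊔ closure {x | ∃ i, ∃ u ∈ P G (m + 1), x = ⁅u, Y i⁆ * (u ^ 2) ^ ε i}

theorem le_imM (m : ℕ) : P G (m + 3) ≤ imM Y ε m := le_sup_left

theorem gen_mem_imM {m : ℕ} (i : ι) {u : G} (hu : u ∈ P G (m + 1)) :
    ⁅u, Y i⁆ * (u ^ 2) ^ ε i ∈ imM Y ε m :=
  (le_sup_right : _ ≤ imM Y ε m) (subset_closure ⟨i, u, hu, rfl⟩)

theorem imM_le_of {m : ℕ} {K : Subgroup G} (h1 : P G (m + 3) ≤ K)
    (h2 : ∀ i, ∀ u ∈ P G (m + 1), ⁅u, Y i⁆ * (u ^ 2) ^ ε i ∈ K) : imM Y ε m ≤ K := by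
  refine sup_le h1 ((closure_le _).2 ?_)
  rintro _ ⟨i, u, hu, rfl⟩
  exact h2 i u hu

theorem imM_le (m : ℕ) : imM Y ε m ≤ P G (m + 2) :=
  imM_le_of Y ε (P_succ_le_self _) fun _ _ hu =>
    mul_mem (comm_mem_P hu _) (pow_mem (sq_mem_P hu) _)

theorem normal_of_sandwich {j : ℕ} {K : Subgroup G} (h1 : P G (j + 1) ≤ K) (h2 : K ≤ P G j) :
    K.Normal := by
  refine ⟨fun x hx y => ?_⟩
  have : y * x * y⁻¹ = ⁅y, x⁆ * x := by simp only [commutatorElement_def]; group
  rw [this]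
  exact mul_mem (h1 (comm_mem_P' (h2 hx) y)) hx

instance imM_normal (m : ℕ) : (imM Y ε m).Normal :=
  normal_of_sandwich (le_imM Y ε m) (imM_le Y ε m)

theorem claim_one (hgen : closure (Set.range Y) ⊔ P G 1 = ⊤) (m : ℕ) :
    ∀ x ∈ P G (m + 2), ∃ u ∈ P G (m + 1), x * (u ^ 2)⁻¹ ∈ imM Y ε m := by
  let A : Subgroup G :=
    { carrier := {x | ∃ u ∈ P G (m + 1), x * (u ^ 2)⁻¹ ∈ imM Y ε m}
      one_mem' := ⟨1, one_mem _, by simp⟩
      mul_mem' := by
        rintro x y ⟨u, hu, hx⟩ ⟨v, hv, hy⟩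
        refine ⟨u * v, mul_mem hu hv, ?_⟩
        have : x * y * ((u * v) ^ 2)⁻¹ = x * (u ^ 2)⁻¹ * (u ^ 2 * (y * (v ^ 2)⁻¹) * (u ^ 2)⁻¹) *
            (u * ⁅u, v⁆ * u⁻¹) := by
          simp only [commutatorElement_def, sq]; group
        rw [this]
        refine mul_mem (mul_mem hx ((imM_normal Y ε m).conj_mem _ hy _)) ?_
        exact (imM_normal Y ε m).conj_mem _ (le_imM Y ε m (comm_mem_PP hu hv (by omega))) _
      inv_mem' := by
        rintro x ⟨u, hu, hx⟩
        refine ⟨u⁻¹, inv_mem hu, ?_⟩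
        have : x⁻¹ * (u⁻¹ ^ 2)⁻¹ = x⁻¹ * (x * (u ^ 2)⁻¹)⁻¹ * x⁻¹⁻¹ := by group
        rw [this]
        exact (imM_normal Y ε m).conj_mem _ (inv_mem hx) _ }
  have hMA : imM Y ε m ≤ A := fun x hx => ⟨1, one_mem _, by simpa using hx⟩
  have hsq : ∀ u ∈ P G (m + 1), u ^ 2 ∈ A := fun u hu => ⟨u, hu, by simp⟩
  have hAP : A ≤ P G (m + 2) := by
    rintro x ⟨u, hu, hx⟩
    have := mul_mem (imM_le Y ε m hx) (sq_mem_P hu)
    simpa using this
  have hA : A.Normal := normal_of_sandwich ((le_imM Y ε m).trans hMA) hAP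
  have h1 : ⁅P G (m + 1), (⊤ : Subgroup G)⁆ ≤ A := by
    refine commutator_top_le Y _ (P G 1) A hgen ?_ ?_
    · intro u hu i
      have := mul_mem (hMA (gen_mem_imM Y ε i hu)) (inv_mem (pow_mem (hsq u hu) (ε i)))
      simpa using this
    · intro u hu x hx
      exact hMA (le_imM Y ε m (comm_mem_PP hu hx (by omega)))
  have : P G (m + 2) ≤ A :=
    P_succ_le (fun u hu x => h1 (commutator_mem_commutator hu (mem_top x))) hsq
  exact fun x hx => this hx

theorem claim_two (m : ℕ) : ∀ x ∈ imM Y ε m, x ^ 2 ∈ imM Y ε (m + 1) := by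
  have hcomm : ∀ x ∈ P G (m + 2), ∀ y ∈ P G (m + 2), ⁅x, y⁆ ∈ imM Y ε (m + 1) :=
    fun x hx y hy => le_imM Y ε (m + 1) (comm_mem_PP hx hy (by omega))
  let B : Subgroup G :=
    { carrier := {x | x ∈ P G (m + 2) ∧ x ^ 2 ∈ imM Y ε (m + 1)}
      one_mem' := ⟨one_mem _, by simp⟩
      mul_mem' := by
        rintro x y ⟨hx, hx2⟩ ⟨hy, hy2⟩
        refine ⟨mul_mem hx hy, ?_⟩
        have : (x * y) ^ 2 = x ^ 2 * ⁅x⁻¹, y⁆ * y ^ 2 := by
          simp only [commutatorElement_def, sq]; group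
        rw [this]
        exact mul_mem (mul_mem hx2 (hcomm _ (inv_mem hx) _ hy)) hy2
      inv_mem' := by
        rintro x ⟨hx, hx2⟩
        exact ⟨inv_mem hx, by rw [inv_pow]; exact inv_mem hx2⟩ }
  have : imM Y ε m ≤ B := by
    refine imM_le_of Y ε (fun x hx => ⟨P_succ_le_self _ hx, le_imM Y ε (m + 1) (sq_mem_P hx)⟩) ?_
    intro i u hu
    have h1 : ⁅u, Y i⁆ ∈ P G (m + 2) := comm_mem_P hu _
    have h2 : (u ^ 2) ^ ε i ∈ P G (m + 2) := pow_mem (sq_mem_P hu) _
    refine ⟨mul_mem h1 h2, ?_⟩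
    have h3 := gen_mem_imM Y ε i (sq_mem_P hu)
    have e : (⁅u, Y i⁆ * (u ^ 2) ^ ε i) ^ 2 = ⁅⁅u, Y i⁆, u⁆ *
        (⁅u ^ 2, Y i⁆ * ((u ^ 2) ^ 2) ^ ε i) *
        ((((u ^ 2) ^ ε i) ^ 2)⁻¹ * ⁅⁅u, Y i⁆⁻¹, (u ^ 2) ^ ε i⁆ * (((u ^ 2) ^ ε i) ^ 2)⁻¹⁻¹) := by
      rw [← pow_mul (u ^ 2) 2, mul_comm 2, pow_mul (u ^ 2)]
      generalize (u ^ 2) ^ ε i = s
      simp only [commutatorElement_def, sq]; group
    rw [e]
    refine mul_mem (mul_mem (le_imM Y ε (m + 1) (comm_mem_PP h1 hu (by omega))) h3) ?_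
    exact (imM_normal Y ε (m + 1)).conj_mem _ (hcomm _ (inv_mem h1) _ h2) _
  exact fun x hx => (this hx).2

theorem claim_three (hgen : closure (Set.range Y) ⊔ P G 1 = ⊤) (m : ℕ) :
    ∀ x ∈ P G (m + 2), ∃ w ∈ P G 1, x * (w ^ 2 ^ (m + 1))⁻¹ ∈ imM Y ε m := by
  induction m with
  | zero => simpa using claim_one Y ε hgen 0
  | succ m ih =>
    intro x hx
    obtain ⟨u, hu, hxu⟩ := claim_one Y ε hgen (m + 1) x hx
    obtain ⟨w, hw, huw⟩ := ih u hu
    refine ⟨w, hw, ?_⟩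
    have hW : w ^ 2 ^ (m + 1) ∈ P G (m + 2) := by
      have := pow_two_pow_mem_P hw (m + 1)
      rwa [show 1 + (m + 1) = m + 2 by ring] at this
    rw [pow_succ 2 (m + 1), pow_mul]
    generalize w ^ 2 ^ (m + 1) = W at huw hW ⊢
    have e : x * (W ^ 2)⁻¹ = x * (u ^ 2)⁻¹ * (u * W⁻¹) ^ 2 * ⁅(u * W⁻¹)⁻¹, W⁆ := by
      simp only [commutatorElement_def, sq]; group
    rw [e]
    refine mul_mem (mul_mem hxu (claim_two Y ε m _ huw)) (le_imM Y ε (m + 1) ?_)
    exact comm_mem_PP (inv_mem (imM_le Y ε m huw)) hW (by omega)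

theorem card_le_of_subset_range {α β : Type*} [Finite α] (F : α → β) (S : Set β)
    (h : S ⊆ Set.range F) : Nat.card S ≤ Nat.card α :=
  (Nat.card_mono (Set.finite_range F) h).trans (Finite.card_range_le F)

theorem coker_bound [Fintype ι] [Group.FG G] (hgen : closure (Set.range Y) ⊔ P G 1 = ⊤) (m : ℕ) :
    (P G (m + 3)).relIndex (P G (m + 2)) ≤
      Nat.card (layerHom m (fun i => (Y i : G ⧸ P G (m + 3))) ε).range *
        (P G 2).relIndex (P G 1) := by
  classical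
  set L := layerHom m (fun i => (Y i : G ⧸ P G (m + 3))) ε with hL
  have hM : imM Y ε m ≤ (L.range.map (center _).subtype).comap (QuotientGroup.mk' _) := by
    refine imM_le_of Y ε ?_ ?_
    · intro x hx
      refine ⟨1, one_mem _, ?_⟩
      rw [map_one, eq_comm]
      exact (QuotientGroup.eq_one_iff x).2 hx
    · intro i u hu
      refine ⟨L (Pi.mulSingle i ⟨u, hu⟩), ⟨_, rfl⟩, ?_⟩
      rw [hL, layerHom, piHom_single]
      simp only [MonoidHom.mul_apply, MonoidHom.pow_apply, map_mul, map_pow]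
      rfl
  have h1 : (P G (m + 3)).relIndex (P G (m + 2)) =
      Nat.card ((P G (m + 2)).map (QuotientGroup.mk' (P G (m + 3)))) := by
    rw [← relIndex_ker, QuotientGroup.ker_mk']
  rw [h1, relIndex, index, ← Nat.card_prod]
  let F : L.range × (P G 1 ⧸ (P G 2).subgroupOf (P G 1)) → G ⧸ P G (m + 3) :=
    fun z => (z.1.1.1 : G ⧸ P G (m + 3)) *
      QuotientGroup.mk (((z.2.out : P G 1) : G) ^ 2 ^ (m + 1))
  apply card_le_of_subset_range F
  rintro _ ⟨x, hx, rfl⟩
  obtain ⟨w, hw, hxw⟩ := claim_three Y ε hgen m x hx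
  obtain ⟨z, hz, hzx⟩ := hM hxw
  refine ⟨(⟨z, hz⟩, QuotientGroup.mk ⟨w, hw⟩), ?_⟩
  have h2 : (((QuotientGroup.mk (⟨w, hw⟩ : P G 1) : P G 1 ⧸ (P G 2).subgroupOf (P G 1)).out :
      P G 1) : G)⁻¹ * w ∈ P G 2 := by
    have := QuotientGroup.out_eq' (QuotientGroup.mk (⟨w, hw⟩ : P G 1) :
      P G 1 ⧸ (P G 2).subgroupOf (P G 1))
    rw [QuotientGroup.eq, mem_subgroupOf] at this
    exact this
  have h3 := pow_two_pow_congr h2 (m + 1)
  rw [show 2 + (m + 1) = m + 3 by ring, ← QuotientGroup.eq] at h3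
  simp only [F]
  rw [h3]
  have h4 : (z : G ⧸ P G (m + 3)) = QuotientGroup.mk (x * (w ^ 2 ^ (m + 1))⁻¹) := hzx
  rw [h4, ← QuotientGroup.mk_mul]
  simp

end coker

theorem card_mul_le_of_fiber {α β : Type*} [Finite α] [Finite β] (f : α → β) (v K : ℕ)
    (h : ∀ b, Nat.card {a // f a = b} * v ≤ K) : Nat.card α * v ≤ Nat.card β * K := by
  classical
  have := Fintype.ofFinite β
  rw [← Nat.card_congr (Equiv.sigmaFiberEquiv f), Nat.card_sigma, Finset.sum_mul]
  calc ∑ b, Nat.card {a // f a = b} * v ≤ ∑ _b : β, K := Finset.sum_le_sum fun b _ => h b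
    _ = Nat.card β * K := by simp

section tuples
variable {ι : Type*} [Fintype ι] (R : (ι → G) → G) (Y : (ι → G) → ι → G) (ε : ι → ℕ)

/-- Tuples modulo `P m` that lift to generating solutions modulo `P (m+1)`. -/
def solSet (m : ℕ) : Set (ι → G ⧸ P G m) :=
  {τ | ∃ t : ι → G, (∀ i, (t i : G ⧸ P G m) = τ i) ∧
    closure (Set.range (Y t)) ⊔ P G 1 = ⊤ ∧ R t ∈ P G (m + 1)}

theorem solSet_step [Group.FG G]
    (hR : ∀ (m : ℕ) (t : ι → G) (u : ι → P G (m + 1)),
      (R (fun i => t i * u i) : G ⧸ P G (m + 3)) =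
        (R t : G ⧸ P G (m + 3)) * layerHom m (fun i => (Y t i : G ⧸ P G (m + 3))) ε u) (m : ℕ) :
    Nat.card (solSet R Y (m + 2)) * (P G (m + 3)).relIndex (P G (m + 2)) ≤
      Nat.card (solSet R Y (m + 1)) *
        ((P G 2).relIndex (P G 1) * (P G (m + 2)).relIndex (P G (m + 1)) ^ Fintype.card ι) := by
  classical
  let pr : G ⧸ P G (m + 2) →* G ⧸ P G (m + 1) :=
    QuotientGroup.map _ _ (MonoidHom.id G) (P_succ_le_self _)
  let f : solSet R Y (m + 2) → solSet R Y (m + 1) := fun τ =>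
    ⟨fun i => pr (τ.1 i), by
      obtain ⟨t, ht, hg, hr⟩ := τ.2
      exact ⟨t, fun i => by simp only [← ht i]; rfl, hg, P_succ_le_self _ hr⟩⟩
  apply card_mul_le_of_fiber f
  intro b
  rcases isEmpty_or_nonempty {a // f a = b} with he | ⟨⟨τ₀, hτ₀⟩⟩
  · simp
  obtain ⟨t₀, ht₀, hg₀, hr₀⟩ := τ₀.2
  set L := layerHom m (fun i => (Y t₀ i : G ⧸ P G (m + 3))) ε with hL
  let N : Subgroup (ι → P G (m + 1)) :=
    Subgroup.pi Set.univ fun _ => (P G (m + 2)).subgroupOf (P G (m + 1))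
  have hNL : N ≤ L.ker := by
    intro u hu
    rw [MonoidHom.mem_ker, hL, layerHom, piHom_apply]
    refine Finset.prod_eq_one fun i _ => ?_
    have hui : (u i : G) ∈ P G (m + 2) := hu i (Set.mem_univ i)
    have e1 : brH (fP G m) (fP_br m) (Y t₀ i : G ⧸ P G (m + 3)) (u i) = 1 :=
      Subtype.ext ((QuotientGroup.eq_one_iff ⁅(u i : G), Y t₀ i⁆).2 (comm_mem_P hui _))
    have e2 : sqH (fP G m) (fP_sq m) (fP_comm m) (u i) = 1 :=
      Subtype.ext ((QuotientGroup.eq_one_iff ((u i : G) ^ 2)).2 (sq_mem_P hui))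
    simp only [MonoidHom.mul_apply, MonoidHom.pow_apply, e1, e2, one_pow, mul_one]
  have hNi : N.index = (P G (m + 2)).relIndex (P G (m + 1)) ^ Fintype.card ι := by
    rw [index_pi]; simp [relIndex]
  have hN0 : N.index ≠ 0 := by
    rw [hNi]
    refine pow_ne_zero _ ?_
    intro h0
    have := relIndex_mul_index (P_succ_le_self (G := G) (m + 1))
    rw [h0, zero_mul] at this
    exact (P_finiteIndex (G := G) (m + 2)).index_ne_zero this.symm
  have hfib : Nat.card {a // f a = b} ≤ N.relIndex L.ker := by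
    have hfin : Finite (L.ker ⧸ N.subgroupOf L.ker) := by
      apply Nat.finite_of_card_ne_zero
      intro h0
      have := relIndex_mul_index hNL
      rw [relIndex, index, h0, zero_mul] at this
      exact hN0 this.symm
    have hex : ∀ a : {a // f a = b}, ∃ u : L.ker, ∀ i,
        ((t₀ i * (u.1 i : G) : G) : G ⧸ P G (m + 2)) = a.1.1 i := by
      rintro ⟨a, ha⟩
      obtain ⟨t, ht, hg, hr⟩ := a.2
      have hu : ∀ i, (t₀ i)⁻¹ * t i ∈ P G (m + 1) := by
        intro i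
        rw [← QuotientGroup.eq]
        have e := congrFun (congrArg Subtype.val (hτ₀.trans ha.symm)) i
        simp only [f] at e
        rw [← ht₀ i, ← ht i] at e
        exact e
      refine ⟨⟨fun i => ⟨_, hu i⟩, ?_⟩, fun i => ?_⟩
      · have e := hR m t₀ fun i => ⟨_, hu i⟩
        simp only [mul_inv_cancel_left] at e
        rw [(QuotientGroup.eq_one_iff _).2 hr, (QuotientGroup.eq_one_iff _).2 hr₀, one_mul] at e
        exact Subtype.ext e.symm
      · simp [ht i]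
    choose u hu using hex
    refine Nat.card_le_card_of_injective
      (fun a => (QuotientGroup.mk (u a) : L.ker ⧸ N.subgroupOf L.ker)) ?_
    intro a a' h
    rw [QuotientGroup.eq, mem_subgroupOf] at h
    refine Subtype.ext (Subtype.ext (funext fun i => ?_))
    rw [← hu a i, ← hu a' i, QuotientGroup.eq]
    have : (((u a).1 i : G))⁻¹ * (u a').1 i ∈ P G (m + 2) := h i (Set.mem_univ i)
    simpa [mul_assoc] using this
  have hidx : N.relIndex L.ker * Nat.card L.range = N.index := by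
    rw [← relIndex_mul_index hNL, index_ker]
  calc Nat.card {a // f a = b} * (P G (m + 3)).relIndex (P G (m + 2))
      ≤ N.relIndex L.ker * (Nat.card L.range * (P G 2).relIndex (P G 1)) :=
        Nat.mul_le_mul hfib (coker_bound (Y t₀) ε hg₀ m)
    _ = _ := by rw [← mul_assoc, hidx, hNi, mul_comm]

theorem solSet_bound [Group.FG G]
    (hR : ∀ (m : ℕ) (t : ι → G) (u : ι → P G (m + 1)),
      (R (fun i => t i * u i) : G ⧸ P G (m + 3)) =
        (R t : G ⧸ P G (m + 3)) * layerHom m (fun i => (Y t i : G ⧸ P G (m + 3))) ε u) (m : ℕ) :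
    Nat.card (solSet R Y (m + 1)) * (P G (m + 2)).index ≤
      (P G 2).index ^ (m + 1) * (P G (m + 1)).index ^ Fintype.card ι := by
  induction m with
  | zero =>
    rw [mul_comm, pow_one]
    refine Nat.mul_le_mul_left _ ?_
    refine (Nat.card_le_card_of_injective Subtype.val Subtype.val_injective).trans ?_
    rw [Nat.card_fun, index, Nat.card_eq_fintype_card (α := ι)]
  | succ m ih =>
    have h := solSet_step R Y ε hR m
    have hc : (P G 2).relIndex (P G 1) ≤ (P G 2).index := by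
      rw [← relIndex_mul_index (P_succ_le_self (G := G) 1)]
      exact Nat.le_mul_of_pos_right _ (Nat.pos_of_ne_zero (P_finiteIndex (G := G) 1).index_ne_zero)
    rw [← relIndex_mul_index (P_succ_le_self (G := G) (m + 2)),
      ← relIndex_mul_index (P_succ_le_self (G := G) (m + 1)), mul_pow]
    rw [← relIndex_mul_index (P_succ_le_self (G := G) (m + 1))] at ih
    set a := Nat.card (solSet R Y (m + 1 + 1))
    set b := Nat.card (solSet R Y (m + 1))
    set v3 := (P G (m + 2 + 1)).relIndex (P G (m + 2))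
    set v2 := (P G (m + 1 + 1)).relIndex (P G (m + 1))
    set I1 := (P G (m + 1)).index
    set c := (P G 2).index
    calc a * (v3 * (v2 * I1)) = a * v3 * (v2 * I1) := by ring
      _ ≤ b * (c * v2 ^ Fintype.card ι) * (v2 * I1) :=
        Nat.mul_le_mul_right _ (h.trans (Nat.mul_le_mul_left _ (Nat.mul_le_mul_right _ hc)))
      _ = b * (v2 * I1) * (c * v2 ^ Fintype.card ι) := by ring
      _ ≤ c ^ (m + 1) * I1 ^ Fintype.card ι * (c * v2 ^ Fintype.card ι) :=
        Nat.mul_le_mul_right _ ih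
      _ = _ := by ring

end tuples

/-- The surface relation with puncture data satisfies the linearisation property. -/
theorem surface_hR {g k p : ℕ} (w : Fin p → G) (w' : G) (m : ℕ) (t : Gen g k p → G)
    (u : Gen g k p → P G (m + 1)) :
    ((surfaceWord (conjTuple w fun i => t i * u i) * w' : G) : G ⧸ P G (m + 3)) =
      ((surfaceWord (conjTuple w t) * w' : G) : G ⧸ P G (m + 3)) *
        layerHom m (fun i => ((dualTuple w t i : G) : G ⧸ P G (m + 3))) epsTuple u := by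
  have hmap : ∀ s : Gen g k p → G, ((surfaceWord (conjTuple w s) : G) : G ⧸ P G (m + 3)) =
      surfaceWord (conjTuple (fun l => (w l : G ⧸ P G (m + 3))) fun x => (s x : G ⧸ P G (m + 3))) := by
    intro s
    change QuotientGroup.mk' _ _ = _
    rw [map_surfaceWord]
    congr 1
    funext x
    rcases x with x | x | x | x <;> rfl
  have hd : (fun i => ((dualTuple w t i : G) : G ⧸ P G (m + 3))) =
      dualTuple (fun l => (w l : G ⧸ P G (m + 3))) fun x => (t x : G ⧸ P G (m + 3)) := by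
    funext x
    rcases x with x | x | x | x <;> rfl
  rw [QuotientGroup.mk_mul, QuotientGroup.mk_mul, hmap, hmap, hd, mul_assoc,
    center_comm (layerHom m _ epsTuple u).2, ← mul_assoc]
  congr 1
  exact surface_layer (fP G m) (fP_br m) (fP_sq m) (fP_comm m)
    (fun l => (w l : G ⧸ P G (m + 3))) (fun x => (t x : G ⧸ P G (m + 3))) u

end Pool.Agent.P.MP_038aca_al
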