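import Pool.Agent.P.MP_038aca_al.Growth

/-! The Golod-Shafarevich inequality for one-relator groups over `ZMod 2`. -/

namespace Pool.Agent.P.MP_038aca_al

open Subgroup Module

section fox
variable {G : Type*} [Group G] {X : Type*} {M : Type*} [AddCommGroup M] [Module (GA G) M]

theorem og_mul (x y : G) : og (x * y) = og x * og y := map_mul _ x y

theorem og_one : og (1 : G) = 1 := map_one _

/-- The affine permutation `m ↦ x • m + e`. -/
noncomputable def aff (x : G) (e : M) : Equiv.Perm M where
  toFun m := og x • m + e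
  invFun m := og x⁻¹ • (m - e)
  left_inv m := by
    simp only [add_sub_cancel_right, smul_smul, ← og_mul, inv_mul_cancel, og_one, one_smul]
  right_inv m := by
    simp only [smul_smul, ← og_mul, mul_inv_cancel, og_one, one_smul, sub_add_cancel]

/-- Affine action of the free group. -/
noncomputable def theta (ρ : X → G) (e : X → M) : FreeGroup X →* Equiv.Perm M :=
  FreeGroup.lift fun x => aff (ρ x) (e x)

theorem theta_of (ρ : X → G) (e : X → M) (x : X) (m : M) :
    theta ρ e (FreeGroup.of x) m = og (ρ x) • m + e x := by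
  rw [theta, FreeGroup.lift_apply_of]; rfl

theorem theta_of_inv (ρ : X → G) (e : X → M) (x : X) (m : M) :
    theta ρ e (FreeGroup.of x)⁻¹ m = og (ρ x)⁻¹ • (m - e x) := by
  rw [map_inv, theta, FreeGroup.lift_apply_of]; rfl

theorem theta_apply (ρ : X → G) (e : X → M) (w : FreeGroup X) :
    ∀ m, theta ρ e w m = og (FreeGroup.lift ρ w) • m + theta ρ e w 0 := by
  induction w using FreeGroup.induction_on with
  | C1 => intro m; rw [map_one, map_one, og_one]; simp
  | of x => intro m; simp [theta_of]
  | inv_of x _ =>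
    intro m
    rw [theta_of_inv, theta_of_inv, map_inv, FreeGroup.lift_apply_of, ← smul_add]
    congr 1; abel
  | mul v w hv hw =>
    intro m
    rw [map_mul, Equiv.Perm.mul_apply, Equiv.Perm.mul_apply, hv, hv (theta ρ e w 0), hw m, map_mul,
      og_mul, smul_add, mul_smul, add_assoc]

theorem theta_map {N : Type*} [AddCommGroup N] [Module (GA G) N] (f : M →ₗ[GA G] N) (ρ : X → G)
    (e : X → M) (w : FreeGroup X) :
    ∀ m, theta ρ (fun x => f (e x)) w (f m) = f (theta ρ e w m) := by
  induction w using FreeGroup.induction_on with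
  | C1 => intro m; simp
  | of x => intro m; simp [theta_of]
  | inv_of x _ => intro m; rw [theta_of_inv, theta_of_inv, map_smul, map_sub]
  | mul v w hv hw =>
    intro m
    rw [map_mul, map_mul, Equiv.Perm.mul_apply, Equiv.Perm.mul_apply, hw, hv]

end fox

section onerel
variable {X : Type} [Fintype X] [DecidableEq X] (R : FreeGroup X)

/-- One-relator group. -/
abbrev OneRel := PresentedGroup ({R} : Set (FreeGroup X))

instance oneRel_fg : Group.FG (OneRel R) :=
  ⟨⟨(Set.finite_range (PresentedGroup.of : X → OneRel R)).toFinset, by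
    rw [Set.Finite.coe_toFinset, PresentedGroup.closure_range_of]⟩⟩

/-- Fox derivative of the relator. -/
noncomputable def foxR : X → GA (OneRel R) :=
  theta (PresentedGroup.of : X → OneRel R) (fun x => (Pi.single x 1 : X → GA (OneRel R))) R 0

/-- The map `u ↦ ∑ u x (x - 1)`. -/
noncomputable def psi : (X → GA (OneRel R)) →ₗ[GA (OneRel R)] GA (OneRel R) where
  toFun u := ∑ x, u x * (og (PresentedGroup.of x) - 1)
  map_add' u v := by simp [add_mul, Finset.sum_add_distrib]
  map_smul' a u := by simp [Finset.mul_sum, mul_assoc]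

theorem psi_apply (u : X → GA (OneRel R)) :
    psi R u = ∑ x, u x * (og (PresentedGroup.of x) - 1) := rfl

theorem lift_of_eq (w : FreeGroup X) :
    FreeGroup.lift (PresentedGroup.of : X → OneRel R) w = PresentedGroup.mk _ w := by
  have : FreeGroup.lift (PresentedGroup.of : X → OneRel R) = PresentedGroup.mk _ := by
    ext x; simp; rfl
  rw [this]

theorem lift_of_R : FreeGroup.lift (PresentedGroup.of : X → OneRel R) R = 1 := by
  rw [lift_of_eq]; exact PresentedGroup.one_of_mem rfl

theorem psi_exact (u : X → GA (OneRel R)) (hu : psi R u = 0) :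
    u ∈ Submodule.span (GA (OneRel R)) {foxR R} := by
  set S := Submodule.span (GA (OneRel R)) {foxR R} with hS
  let e : X → (X → GA (OneRel R)) ⧸ S := fun x => S.mkQ (Pi.single x 1)
  have hR : theta (PresentedGroup.of : X → OneRel R) e R = 1 := by
    ext m
    rw [theta_apply, lift_of_R, og_one, one_smul, ← map_zero S.mkQ, theta_map]
    have : S.mkQ (foxR R) = 0 := by
      rw [Submodule.mkQ_apply, Submodule.Quotient.mk_eq_zero]
      exact Submodule.subset_span rfl
    rw [foxR] at this
    rw [this]; simp
  let θ : OneRel R →* Equiv.Perm ((X → GA (OneRel R)) ⧸ S) :=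
    PresentedGroup.toGroup (f := fun x => aff (PresentedGroup.of x : OneRel R) (e x)) (by
      rintro r rfl; exact hR)
  have hθ : ∀ w, θ (PresentedGroup.mk _ w) = theta (PresentedGroup.of : X → OneRel R) e w :=
    fun w => rfl
  have hθ' : ∀ g m, θ g m = og g • m + θ g 0 := by
    intro g m
    obtain ⟨w, rfl⟩ := PresentedGroup.mk_surjective _ g
    rw [hθ, theta_apply, lift_of_eq]
  let δ : GA (OneRel R) →ₗ[ZMod 2] (X → GA (OneRel R)) ⧸ S :=
    (MonoidAlgebra.basis (OneRel R) (ZMod 2)).constr (ZMod 2) fun g => θ g 0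
  have hδ : ∀ g, δ (og g) = θ g 0 := fun g => by
    have := (MonoidAlgebra.basis (OneRel R) (ZMod 2)).constr_basis (ZMod 2) (fun g => θ g 0) g
    exact this
  have hδ' : ∀ (a : GA (OneRel R)) (x : X), δ (a * (og (PresentedGroup.of x) - 1)) = a • e x := by
    intro a x
    induction a using MonoidAlgebra.induction_on with
    | of g =>
      change δ (og g * _) = og g • e x
      rw [mul_sub, mul_one, ← og_mul, map_sub, hδ, hδ, map_mul, Equiv.Perm.mul_apply, hθ' g,
        PresentedGroup.toGroup.of]
      simp [aff]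
    | add a b ha hb => rw [add_mul, map_add, ha, hb, add_smul]
    | smul r a ha => rw [smul_mul_assoc, map_smul, ha, smul_assoc]
  have : δ (psi R u) = S.mkQ u := by
    rw [psi_apply, map_sum]
    simp only [hδ', e, ← map_smul, ← map_sum]
    congr 1
    ext x
    simp [Pi.single_apply]
  rw [hu, map_zero, eq_comm, Submodule.mkQ_apply, Submodule.Quotient.mk_eq_zero] at this
  exact this

theorem psi_onto_aug (z : GA (OneRel R)) (hz : aug _ z = 0) : z ∈ LinearMap.range (psi R) := by
  have h1 : ∀ g : OneRel R, og g - 1 ∈ LinearMap.range (psi R) := by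
    intro g
    let K : Subgroup (OneRel R) :=
      { carrier := {g | og g - 1 ∈ LinearMap.range (psi R)}
        one_mem' := by
          change og (1 : OneRel R) - 1 ∈ LinearMap.range (psi R)
          rw [og_one, sub_self]; exact zero_mem _
        mul_mem' := by
          intro x y hx hy
          have : og (x * y) - 1 = og x • (og y - 1) + (og x - 1) := by
            rw [og_mul, smul_eq_mul]; noncomm_ring
          change og (x * y) - 1 ∈ LinearMap.range (psi R)
          rw [this]
          exact add_mem (Submodule.smul_mem _ _ hy) hx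
        inv_mem' := by
          intro x hx
          have h1 : og x⁻¹ * og x = 1 := by rw [← og_mul, inv_mul_cancel, og_one]
          have : og x⁻¹ - 1 = -(og x⁻¹ • (og x - 1)) := by
            rw [smul_eq_mul, mul_sub, h1]; noncomm_ring
          change og x⁻¹ - 1 ∈ LinearMap.range (psi R)
          rw [this]
          exact neg_mem (Submodule.smul_mem _ _ hx) }
    refine PresentedGroup.generated_by _ K (fun x => ⟨Pi.single x 1, ?_⟩) g
    rw [psi_apply, Finset.sum_eq_single x]
    · simp
    · intro y _ hy; simp [Pi.single_eq_of_ne hy]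
    · simp
  have h2 : ∀ a : GA (OneRel R), a - algebraMap _ _ (aug _ a) ∈ LinearMap.range (psi R) := by
    intro a
    induction a using MonoidAlgebra.induction_on with
    | of g =>
      have := h1 g
      rwa [← map_one (algebraMap (ZMod 2) (GA (OneRel R))), ← aug_og g] at this
    | add a b ha hb =>
      have := add_mem ha hb
      rw [map_add, map_add]
      convert this using 1; abel
    | smul r a ha =>
      have := Submodule.smul_mem _ (algebraMap (ZMod 2) (GA (OneRel R)) r) ha
      rw [smul_eq_mul, mul_sub, ← map_mul, ← Algebra.smul_def] at this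
      rwa [map_smul, smul_eq_mul]
  simpa [hz] using h2 z

theorem psi_onto_filt (n : ℕ) (y : GA (OneRel R)) (hy : y ∈ filt _ (n + 1)) :
    ∃ u : X → GA (OneRel R), (∀ x, u x ∈ filt _ n) ∧ psi R u = y := by
  refine Submodule.mul_induction_on hy ?_ ?_
  · intro a ha z hz
    obtain ⟨v, rfl⟩ := psi_onto_aug R z hz
    exact ⟨a • v, fun x => filt_mul_right n a ha _, by rw [map_smul, smul_eq_mul]⟩
  · rintro _ _ ⟨u, hu, rfl⟩ ⟨v, hv, rfl⟩
    exact ⟨u + v, fun x => add_mem (hu x) (hv x), map_add _ _ _⟩

theorem golod_shafarevich (e n : ℕ) (he : ∀ x, foxR R x ∈ filt _ e) :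
    Fintype.card X * hilb (OneRel R) (n + e) ≤ hilb (OneRel R) (n + e + 1) + hilb (OneRel R) n := by
  let A := GA (OneRel R)
  let Φ : (X → A) →ₗ[ZMod 2] (X → A ⧸ filt _ (n + e)) :=
    LinearMap.pi fun x => (filt _ (n + e)).mkQ ∘ₗ LinearMap.proj x
  let ρ : X → (A ⧸ filt _ (n + e)) →ₗ[ZMod 2] A ⧸ filt _ (n + e + 1) := fun x =>
    (filt _ (n + e)).mapQ (filt _ (n + e + 1))
      (LinearMap.mulRight (ZMod 2) (og (PresentedGroup.of x) - 1))
      fun a ha => filt_mul ha 1 _ (og_sub_one_mem _)
  let Ψ : (X → A ⧸ filt _ (n + e)) →ₗ[ZMod 2] A ⧸ filt _ (n + e + 1) :=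
    ∑ x, ρ x ∘ₗ LinearMap.proj x
  let σ : (A ⧸ filt _ n) →ₗ[ZMod 2] (X → A ⧸ filt _ (n + e)) :=
    LinearMap.pi fun x => (filt _ n).mapQ (filt _ (n + e))
      (LinearMap.mulRight (ZMod 2) (foxR R x)) fun a ha => filt_mul ha e _ (he x)
  have hker : LinearMap.ker Ψ ≤ LinearMap.range σ := by
    intro v hv
    have : ∀ x, ∃ a : A, (filt _ (n + e)).mkQ a = v x := fun x => Submodule.mkQ_surjective _ _
    choose u hu using this
    have h1 : Ψ v = (filt _ (n + e + 1)).mkQ (psi R u) := by
      rw [psi_apply, map_sum]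
      simp only [Ψ, LinearMap.sum_apply, LinearMap.comp_apply, LinearMap.proj_apply, ← hu]
      rfl
    rw [LinearMap.mem_ker, h1, Submodule.mkQ_apply, Submodule.Quotient.mk_eq_zero] at hv
    obtain ⟨u', hu', h2⟩ := psi_onto_filt R _ _ hv
    have h3 := psi_exact R (u - u') (by rw [map_sub, h2, sub_self])
    obtain ⟨s, hs⟩ := Submodule.mem_span_singleton.1 h3
    refine ⟨(filt _ n).mkQ s, ?_⟩
    ext x
    rw [← hu x]
    change (filt _ (n + e)).mkQ (s * foxR R x) = _
    have : s * foxR R x = u x - u' x := congrFun hs x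
    rw [this, Submodule.mkQ_apply, Submodule.mkQ_apply, Submodule.Quotient.eq]
    simpa using hu' x
  have h := LinearMap.finrank_range_add_finrank_ker Ψ
  rw [Module.finrank_pi_fintype, Finset.sum_const, Finset.card_univ, smul_eq_mul] at h
  unfold hilb
  rw [← h]
  exact add_le_add (Submodule.finrank_le _)
    ((Submodule.finrank_mono hker).trans (LinearMap.finrank_range_le σ))

theorem hilb_one_pos {G : Type*} [Group G] [Group.FG G] : 1 ≤ hilb G 1 := by
  have : Nontrivial (GA G ⧸ filt G 1) := by
    rw [Submodule.Quotient.nontrivial_iff]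
    intro h
    have : (1 : GA G) ∈ filt G 1 := by rw [h]; trivial
    rw [mem_filt_one, map_one] at this
    exact one_ne_zero this
  exact finrank_pos

theorem hilb_zero {G : Type*} [Group G] : hilb G 0 = 0 := by
  rw [← dimK_top, dimK_zero]

theorem foxR_mem_one
    (h : ∀ f : FreeGroup X →* Multiplicative (ZMod 2), f R = 1) (x : X) : foxR R x ∈ filt _ 1 := by
  let f : FreeGroup X →* Multiplicative (ZMod 2) := MonoidHom.mk'
    (fun w => Multiplicative.ofAdd (aug _ (theta (PresentedGroup.of : X → OneRel R)
      (fun x => (Pi.single x 1 : X → GA (OneRel R))) w 0 x))) (by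
      intro v w
      rw [map_mul, Equiv.Perm.mul_apply, theta_apply, ← ofAdd_add, Pi.add_apply, map_add,
        Pi.smul_apply, smul_eq_mul, map_mul, aug_og, one_mul, add_comm])
  rw [mem_filt_one]
  exact h f

theorem hilb_growth_zero {r : ℕ} (hr : Fintype.card X = r + 1) (n : ℕ) :
    r ^ n ≤ hilb (OneRel R) (n + 1) := by
  induction n with
  | zero => simpa using hilb_one_pos
  | succ n ih =>
    have := golod_shafarevich R 0 (n + 1) fun _ => trivial
    rw [hr] at this
    simp only [add_zero] at this
    calc r ^ (n + 1) = r * r ^ n := by ring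
      _ ≤ r * hilb (OneRel R) (n + 1) := Nat.mul_le_mul_left _ ih
      _ ≤ _ := by nlinarith

theorem hilb_growth_one (h : ∀ f : FreeGroup X →* Multiplicative (ZMod 2), f R = 1) {s : ℝ}
    (hs0 : 0 < s) (hs1 : s ≤ 1) (hs : s ^ 2 - Fintype.card X * s + 1 = 0) (n : ℕ) :
    1 ≤ s ^ n * hilb (OneRel R) (n + 1) := by
  have key : ∀ n, (hilb (OneRel R) n : ℝ) ≤ s * hilb (OneRel R) (n + 1) := by
    intro n
    induction n with
    | zero => rw [hilb_zero]; simp only [Nat.cast_zero]; positivity
    | succ n ih =>
      have h1 : (Fintype.card X : ℝ) * hilb (OneRel R) (n + 1) ≤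
          hilb (OneRel R) (n + 1 + 1) + hilb (OneRel R) n := by
        exact_mod_cast golod_shafarevich R 1 n (foxR_mem_one R h)
      have h2 : s * ((Fintype.card X : ℝ) * hilb (OneRel R) (n + 1)) ≤
          s * (hilb (OneRel R) (n + 1 + 1) + s * hilb (OneRel R) (n + 1)) := by
        gcongr; linarith
      have h3 : s * ((Fintype.card X : ℝ) * hilb (OneRel R) (n + 1)) =
          (s ^ 2 + 1) * hilb (OneRel R) (n + 1) := by
        rw [show s ^ 2 + 1 = Fintype.card X * s by linarith]; ring
      nlinarith
  induction n with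
  | zero => simpa using hilb_one_pos
  | succ n ih =>
    refine ih.trans ?_
    rw [pow_succ, mul_assoc]
    gcongr
    exact key _

end onerel

end Pool.Agent.P.MP_038aca_al
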