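import Pool.Agent.P.MP_038aca_al.PSeries

/-! The augmentation filtration of the group algebra over `ZMod 2` and an upper bound for its
growth in terms of the lower 2-central series. -/

namespace Pool.Agent.P.MP_038aca_al

open Subgroup Module
open scoped commutatorElement

/-- The group algebra over the field with two elements. -/
abbrev GA (G : Type*) [Group G] := MonoidAlgebra (ZMod 2) G

variable {G : Type*} [Group G]

/-- Group elements inside the group algebra. -/
noncomputable abbrev og (x : G) : GA G := MonoidAlgebra.of (ZMod 2) G x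

variable (G) in
/-- Augmentation. -/
noncomputable def aug : GA G →ₐ[ZMod 2] ZMod 2 := MonoidAlgebra.lift (ZMod 2) (ZMod 2) G 1

theorem aug_og (x : G) : aug G (og x) = 1 := by
  rw [aug, og, MonoidAlgebra.lift_of]; rfl

variable (G) in
/-- Augmentation ideal. -/
noncomputable def augI : Submodule (ZMod 2) (GA G) := LinearMap.ker (aug G).toLinearMap

theorem mem_augI {x : GA G} : x ∈ augI G ↔ aug G x = 0 := Iff.rfl

variable (G) in
/-- Powers of the augmentation ideal. -/
noncomputable def filt : ℕ → Submodule (ZMod 2) (GA G)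
  | 0 => ⊤
  | n + 1 => filt n * augI G

theorem filt_succ (n : ℕ) : filt G (n + 1) = filt G n * augI G := rfl

theorem filt_mul_left (n : ℕ) : ∀ x ∈ filt G n, ∀ a : GA G, a * x ∈ filt G n := by
  induction n with
  | zero => intro x _ a; trivial
  | succ n ih =>
    intro x hx a
    refine Submodule.mul_induction_on hx ?_ ?_
    · intro y hy z hz
      rw [← mul_assoc]
      exact Submodule.mul_mem_mul (ih y hy a) hz
    · intro y z hy hz
      rw [mul_add]
      exact add_mem hy hz

theorem filt_mul_right (n : ℕ) : ∀ x ∈ filt G n, ∀ a : GA G, x * a ∈ filt G n := by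
  cases n with
  | zero => intro x _ a; trivial
  | succ n =>
    intro x hx a
    refine Submodule.mul_induction_on hx ?_ ?_
    · intro y hy z hz
      rw [mul_assoc]
      refine Submodule.mul_mem_mul hy ?_
      rw [mem_augI] at hz ⊢
      rw [map_mul, hz, zero_mul]
    · intro y z hy hz
      rw [add_mul]
      exact add_mem hy hz

theorem filt_succ_le (n : ℕ) : filt G (n + 1) ≤ filt G n :=
  Submodule.mul_le.2 fun x hx y _ => filt_mul_right n x hx y

theorem filt_anti {m n : ℕ} (h : m ≤ n) : filt G n ≤ filt G m :=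
  antitone_nat_of_succ_le (f := filt G) filt_succ_le h

theorem filt_mul {m : ℕ} {x : GA G} (hx : x ∈ filt G m) (n : ℕ) :
    ∀ y ∈ filt G n, x * y ∈ filt G (m + n) := by
  induction n with
  | zero => intro y _; exact filt_mul_right m x hx y
  | succ n ih =>
    intro y hy
    refine Submodule.mul_induction_on hy ?_ ?_
    · intro y hy z hz
      rw [← mul_assoc]
      exact Submodule.mul_mem_mul (ih y hy) hz
    · intro y z hy hz
      rw [mul_add]
      exact add_mem hy hz

theorem mem_filt_one {x : GA G} : x ∈ filt G 1 ↔ aug G x = 0 := by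
  constructor
  · intro hx
    refine Submodule.mul_induction_on hx ?_ ?_
    · intro y _ z hz
      rw [map_mul, mem_augI.1 hz, mul_zero]
    · intro y z hy hz
      rw [map_add, hy, hz, add_zero]
  · intro hx
    have := Submodule.mul_mem_mul (show (1 : GA G) ∈ filt G 0 from trivial) (mem_augI.2 hx)
    rwa [one_mul] at this

theorem og_sub_one_mem (x : G) : og x - 1 ∈ filt G 1 := by
  rw [mem_filt_one, map_sub, aug_og, map_one, sub_self]

variable (G) in
/-- Dimension subgroups. -/
def dimSub (m : ℕ) : Subgroup G where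
  carrier := {x | og x - 1 ∈ filt G m}
  one_mem' := by simp [og, ← MonoidAlgebra.one_def]
  mul_mem' := by
    intro x y hx hy
    have : og (x * y) - 1 = (og x - 1) * og y + (og y - 1) := by
      rw [og, map_mul]; noncomm_ring
    change og (x * y) - 1 ∈ filt G m
    rw [this]
    exact add_mem (filt_mul_right m _ hx _) hy
  inv_mem' := by
    intro x hx
    have h1 : og x⁻¹ * og x = 1 := by rw [og, og, ← map_mul, inv_mul_cancel, map_one]
    have : og x⁻¹ - 1 = -(og x⁻¹ * (og x - 1)) := by rw [mul_sub, h1]; noncomm_ring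
    change og x⁻¹ - 1 ∈ filt G m
    rw [this]
    exact neg_mem (filt_mul_left m _ hx _)

theorem two_eq_zero_GA : (2 : GA G) = 0 := by
  have : (2 : GA G) = algebraMap (ZMod 2) (GA G) 2 := (map_ofNat _ 2).symm
  rw [this, show (2 : ZMod 2) = 0 from rfl, map_zero]

theorem P_le_dimSub (m : ℕ) : P G m ≤ dimSub G (m + 1) := by
  induction m with
  | zero => intro x _; exact og_sub_one_mem x
  | succ m ih =>
    refine P_succ_le ?_ ?_
    · intro u hu x
      have h1 : og u - 1 ∈ filt G (m + 1) := ih hu
      have h2 := og_sub_one_mem x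
      have h3 : og x * og u * (og u⁻¹ * og x⁻¹) = 1 := by
        simp only [og, ← map_mul]; rw [← map_one (MonoidAlgebra.of (ZMod 2) G)]; congr 1; group
      have : og ⁅u, x⁆ - 1 =
          ((og u - 1) * (og x - 1) - (og x - 1) * (og u - 1)) * (og u⁻¹ * og x⁻¹) := by
        rw [← h3, commutatorElement_def, og, map_mul, map_mul, map_mul]
        have : (og u - 1) * (og x - 1) - (og x - 1) * (og u - 1) = og u * og x - og x * og u := by
          noncomm_ring
        rw [h3, this, sub_mul, h3]
        simp only [mul_assoc]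
      change og ⁅u, x⁆ - 1 ∈ filt G (m + 1 + 1)
      rw [this]
      refine filt_mul_right _ _ (sub_mem (filt_mul h1 1 _ h2) ?_) _
      have := filt_mul h2 (m + 1) _ h1
      rwa [add_comm] at this
    · intro u hu
      have h1 : og u - 1 ∈ filt G (m + 1) := ih hu
      have : og (u ^ 2) - 1 = (og u - 1) * (og u - 1) + 2 * (og u - 1) := by
        rw [og, map_pow]; noncomm_ring
      change og (u ^ 2) - 1 ∈ filt G (m + 1 + 1)
      rw [this, two_eq_zero_GA, zero_mul, add_zero]
      exact filt_mul h1 1 _ (og_sub_one_mem u)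

theorem span_og : Submodule.span (ZMod 2) (og '' ((⊤ : Subgroup G) : Set G)) = ⊤ := by
  rw [eq_top_iff]
  intro x _
  induction x using MonoidAlgebra.induction_on with
  | of m => exact Submodule.subset_span ⟨m, trivial, rfl⟩
  | add x y hx hy => exact add_mem (hx trivial) (hy trivial)
  | smul r x hx => exact Submodule.smul_mem _ r (hx trivial)

instance filt_finite [Group.FG G] (n : ℕ) : Module.Finite (ZMod 2) (GA G ⧸ filt G n) := by
  have hfin : Finite (G ⧸ P G n) := inferInstance
  refine ⟨⟨(Set.finite_range fun q : G ⧸ P G n => (filt G n).mkQ (og q.out)).toFinset, ?_⟩⟩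
  rw [Set.Finite.coe_toFinset, eq_top_iff, ← Submodule.range_mkQ, LinearMap.range_eq_map,
    ← span_og, Submodule.map_span, Submodule.span_le]
  rintro _ ⟨_, ⟨x, _, rfl⟩, rfl⟩
  refine Submodule.subset_span ⟨(x : G ⧸ P G n), ?_⟩
  have h1 : ((x : G ⧸ P G n).out)⁻¹ * x ∈ P G n := by
    rw [← QuotientGroup.eq, QuotientGroup.out_eq']
  have h2 : og (((x : G ⧸ P G n).out)⁻¹ * x) - 1 ∈ filt G n := filt_succ_le n (P_le_dimSub n h1)
  have h3 := filt_mul_left n _ h2 (og (x : G ⧸ P G n).out)
  rw [mul_sub, og, og, ← map_mul, mul_inv_cancel_left, mul_one] at h3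
  simp only [Submodule.mkQ_apply]
  rw [eq_comm, Submodule.Quotient.eq]
  exact h3

/-- Dimension of the image of the span of `K` in `GA G / filt n`. -/
noncomputable def dimK (K : Subgroup G) (n : ℕ) : ℕ :=
  finrank (ZMod 2) ((Submodule.span (ZMod 2) (og '' (K : Set G))).map (filt G n).mkQ)

variable (G) in
/-- Dimension of `GA G / filt n`. -/
noncomputable def hilb (n : ℕ) : ℕ := finrank (ZMod 2) (GA G ⧸ filt G n)

theorem dimK_top (n : ℕ) : dimK (⊤ : Subgroup G) n = hilb G n := by
  rw [dimK, span_og, Submodule.map_top, Submodule.range_mkQ, finrank_top, hilb]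

theorem dimK_mono [Group.FG G] {K K' : Subgroup G} (h : K ≤ K') (n : ℕ) :
    dimK K n ≤ dimK K' n :=
  Submodule.finrank_mono (Submodule.map_mono (Submodule.span_mono (Set.image_mono h)))

theorem dimK_zero (K : Subgroup G) : dimK K 0 = 0 := by
  have : Subsingleton (GA G ⧸ filt G 0) := Submodule.Quotient.subsingleton_iff.2 rfl
  exact finrank_zero_of_subsingleton

theorem dimK_le_one [Group.FG G] {K : Subgroup G} {n : ℕ} (h : K ≤ dimSub G n) : dimK K n ≤ 1 := by
  have : (Submodule.span (ZMod 2) (og '' (K : Set G))).map (filt G n).mkQ ≤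
      Submodule.span (ZMod 2) {(filt G n).mkQ 1} := by
    rw [Submodule.map_span, Submodule.span_le]
    rintro _ ⟨_, ⟨x, hx, rfl⟩, rfl⟩
    refine Submodule.subset_span ?_
    simp only [Submodule.mkQ_apply, Set.mem_singleton_iff]
    rw [Submodule.Quotient.eq]
    exact h hx
  refine (Submodule.finrank_mono this).trans ?_
  simpa using finrank_span_le_card (R := ZMod 2) ({(filt G n).mkQ 1} : Set (GA G ⧸ filt G n))

theorem dimK_step [Group.FG G] {K K' : Subgroup G} {g : G} {m : ℕ} (hg : g ∈ dimSub G m)
    (h : ∀ x ∈ K, x ∈ K' ∨ x * g⁻¹ ∈ K') (n : ℕ) : dimK K n ≤ dimK K' n + dimK K' (n - m) := by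
  let ρ : GA G →ₗ[ZMod 2] GA G ⧸ filt G n :=
    (filt G n).mkQ ∘ₗ LinearMap.mulRight (ZMod 2) (og g - 1)
  have hρ : filt G (n - m) ≤ LinearMap.ker ρ := by
    intro x hx
    simp only [ρ, LinearMap.mem_ker, LinearMap.comp_apply, LinearMap.mulRight_apply,
      Submodule.mkQ_apply, Submodule.Quotient.mk_eq_zero]
    exact filt_anti (by omega) (filt_mul hx m _ hg)
  set S := Submodule.span (ZMod 2) (og '' (K' : Set G))
  have h1 : (Submodule.span (ZMod 2) (og '' (K : Set G))).map (filt G n).mkQ ≤
      S.map (filt G n).mkQ ⊔ (S.map (filt G (n - m)).mkQ).map ((filt G (n - m)).liftQ ρ hρ) := by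
    rw [← Submodule.map_comp, Submodule.liftQ_mkQ, Submodule.map_span, Submodule.span_le]
    rintro _ ⟨_, ⟨x, hx, rfl⟩, rfl⟩
    rcases h x hx with h | h
    · exact Submodule.mem_sup_left ⟨_, Submodule.subset_span ⟨x, h, rfl⟩, rfl⟩
    · have hS : og (x * g⁻¹) ∈ S := Submodule.subset_span ⟨_, h, rfl⟩
      have e : og x = og (x * g⁻¹) + og (x * g⁻¹) * (og g - 1) := by
        rw [mul_sub, og, og, og, ← map_mul, inv_mul_cancel_right]; simp
      rw [e, map_add]
      exact add_mem (Submodule.mem_sup_left ⟨_, hS, rfl⟩) (Submodule.mem_sup_right ⟨_, hS, rfl⟩)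
  refine (Submodule.finrank_mono h1).trans ?_
  refine (Submodule.finrank_add_le_finrank_add_finrank _ _).trans ?_
  exact Nat.add_le_add_left (Submodule.finrank_map_le _ _) _

theorem dimK_chain [Group.FG G] {t : ℝ} (ht : 0 < t) (N m : ℕ) (K : Subgroup G)
    (hK : K ≤ dimSub G m) (d : ℕ) : ∀ (K' : Subgroup G) (B : ℝ), K' ≤ K → K'.relIndex K = d →
      d ≠ 0 → (∀ x ∈ K, x ^ 2 ∈ K') → (∀ x ∈ K, ∀ y ∈ K, ⁅x, y⁆ ∈ K') →
      (∀ n ≤ N, t ^ n * dimK K' n ≤ B) →
      ∀ n ≤ N, t ^ n * dimK K n ≤ B * Real.exp (t ^ m * Real.logb 2 d) := by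
  induction d using Nat.strong_induction_on with
  | _ d ih =>
    intro K' B hle hd hd0 hsq hcomm hB
    have hB0 : 0 ≤ B := le_trans (by positivity) (hB 0 (Nat.zero_le _))
    by_cases hKK : K ≤ K'
    · intro n hn
      have h1 : 1 ≤ Real.exp (t ^ m * Real.logb 2 d) := by
        apply Real.one_le_exp
        refine mul_nonneg (by positivity) (Real.logb_nonneg (by norm_num) ?_)
        exact_mod_cast Nat.one_le_iff_ne_zero.2 hd0
      calc t ^ n * dimK K n ≤ t ^ n * dimK K' n := by
            gcongr; exact dimK_mono hKK n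
        _ ≤ B := hB n hn
        _ ≤ _ := le_mul_of_one_le_right hB0 h1
    · obtain ⟨g, hgK, hgK'⟩ := SetLike.not_le_iff_exists.1 hKK
      let K'' : Subgroup G :=
        { carrier := {x | x ∈ K' ∨ x * g⁻¹ ∈ K'}
          one_mem' := Or.inl (one_mem _)
          mul_mem' := by
            rintro x y (hx | hx) (hy | hy)
            · exact Or.inl (mul_mem hx hy)
            · exact Or.inr (by rw [mul_assoc]; exact mul_mem hx hy)
            · refine Or.inr ?_
              have : x * y * g⁻¹ = x * g⁻¹ * ⁅g, y⁆ * y := by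
                simp only [commutatorElement_def]; group
              rw [this]
              exact mul_mem (mul_mem hx (hcomm _ hgK _ (hle hy))) hy
            · refine Or.inl ?_
              have : x * y = x * g⁻¹ * ⁅g, y * g⁻¹⁆ * (y * g⁻¹) * g ^ 2 := by
                simp only [commutatorElement_def, sq]; group
              rw [this]
              exact mul_mem (mul_mem (mul_mem hx (hcomm _ hgK _ (hle hy))) hy) (hsq g hgK)
          inv_mem' := by
            rintro x (hx | hx)
            · exact Or.inl (inv_mem hx)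
            · refine Or.inr ?_
              have : x⁻¹ * g⁻¹ = ⁅g⁻¹, (x * g⁻¹)⁻¹⁆ * (x * g⁻¹)⁻¹ * (g ^ 2)⁻¹ := by
                simp only [commutatorElement_def, sq]; group
              rw [this]
              exact mul_mem (mul_mem (hcomm _ (inv_mem hgK) _ (hle (inv_mem hx))) (inv_mem hx))
                (inv_mem (hsq g hgK)) }
      have h1 : K' ≤ K'' := fun x hx => Or.inl hx
      have h2 : K'' ≤ K := by
        rintro x (hx | hx)
        · exact hle hx
        · simpa using mul_mem (hle hx) hgK
      have hmul := relIndex_mul_relIndex K' K'' K h1 h2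
      rw [hd] at hmul
      have ha : 2 ≤ K'.relIndex K'' := by
        have h0 : K'.relIndex K'' ≠ 0 := by
          intro h0; rw [h0, zero_mul] at hmul; exact hd0 hmul.symm
        have h1' : K'.relIndex K'' ≠ 1 := by
          rw [Ne, relIndex_eq_one]
          intro h
          exact hgK' (h (Or.inr (by simp)))
        omega
      have hb : K''.relIndex K ≠ 0 := by
        intro h0; rw [h0, mul_zero] at hmul; exact hd0 hmul.symm
      have hlt : 2 * K''.relIndex K ≤ d := by rw [← hmul]; exact Nat.mul_le_mul_right _ ha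
      have hB' : ∀ n ≤ N, t ^ n * dimK K'' n ≤ B * (1 + t ^ m) := by
        intro n hn
        have h3 : (dimK K'' n : ℝ) ≤ dimK K' n + dimK K' (n - m) := by
          exact_mod_cast dimK_step (hK hgK) (fun x hx => hx) n
        have h4 : t ^ n * dimK K' (n - m) ≤ B * t ^ m := by
          rcases le_or_gt m n with hmn | hmn
          · have := hB (n - m) (by omega)
            calc t ^ n * dimK K' (n - m) = t ^ (n - m) * dimK K' (n - m) * t ^ m := by
                  rw [mul_right_comm, ← pow_add, Nat.sub_add_cancel hmn]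
              _ ≤ _ := by gcongr
          · rw [Nat.sub_eq_zero_of_le hmn.le, dimK_zero]
            simp only [Nat.cast_zero, mul_zero]
            positivity
        calc t ^ n * dimK K'' n ≤ t ^ n * (dimK K' n + dimK K' (n - m)) := by gcongr
          _ ≤ B + B * t ^ m := by rw [mul_add]; exact add_le_add (hB n hn) h4
          _ = _ := by ring
      intro n hn
      refine (ih _ (by omega) K'' _ h2 rfl hb (fun x hx => h1 (hsq x hx))
        (fun x hx y hy => h1 (hcomm x hx y hy)) hB' n hn).trans ?_
      rw [mul_assoc]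
      refine mul_le_mul_of_nonneg_left ?_ hB0
      have h5 : 1 + Real.logb 2 (K''.relIndex K) ≤ Real.logb 2 d := by
        have : Real.logb 2 (2 * (K''.relIndex K : ℝ)) = 1 + Real.logb 2 (K''.relIndex K) := by
          rw [Real.logb_mul (by norm_num) (by exact_mod_cast hb), Real.logb_self_eq_one (by norm_num)]
        rw [← this]
        refine Real.logb_le_logb_of_le (by norm_num) (by positivity) ?_
        exact_mod_cast hlt
      calc (1 + t ^ m) * Real.exp (t ^ m * Real.logb 2 (K''.relIndex K))
          ≤ Real.exp (t ^ m) * Real.exp (t ^ m * Real.logb 2 (K''.relIndex K)) := by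
            gcongr; rw [add_comm]; exact Real.add_one_le_exp _
        _ = Real.exp (t ^ m * (1 + Real.logb 2 (K''.relIndex K))) := by
            rw [← Real.exp_add]; ring_nf
        _ ≤ _ := by gcongr

variable (G) in
/-- `q m = log₂ [G : P m]`. -/
noncomputable def qq (m : ℕ) : ℝ := Real.logb 2 (P G m).index

theorem qq_nonneg [Group.FG G] (m : ℕ) : 0 ≤ qq G m :=
  Real.logb_nonneg (by norm_num)
    (by exact_mod_cast Nat.one_le_iff_ne_zero.2 (P_finiteIndex (G := G) m).index_ne_zero)

theorem hilb_le [Group.FG G] {t : ℝ} (ht : 0 < t) (ht1 : t ≤ 1) (N : ℕ) :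
    t ^ N * hilb G N ≤ Real.exp (∑ m ∈ Finset.range N, t ^ (m + 1) * qq G (m + 1)) := by
  have key : ∀ j ≤ N, ∀ n ≤ N, t ^ n * dimK (P G (N - j)) n ≤
      Real.exp (∑ m ∈ Finset.Ico (N - j) N, t ^ (m + 1) * qq G (m + 1)) := by
    intro j
    induction j with
    | zero =>
      intro _ n hn
      simp only [Nat.sub_zero, Finset.Ico_self, Finset.sum_empty, Real.exp_zero]
      have h1 : (dimK (P G N) n : ℝ) ≤ 1 := by
        have : P G N ≤ dimSub G n := fun x hx => filt_anti (show n ≤ N + 1 by omega) (P_le_dimSub N hx)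
        exact_mod_cast dimK_le_one this
      exact mul_le_one₀ (pow_le_one₀ ht.le ht1) (by positivity) h1
    | succ j ih =>
      intro hj n hn
      obtain ⟨m, hm⟩ : ∃ m, N - (j + 1) = m := ⟨_, rfl⟩
      have hm' : N - j = m + 1 := by omega
      rw [hm]
      rw [hm'] at ih
      have hi := relIndex_mul_index (P_succ_le_self (G := G) m)
      have hi0 := (P_finiteIndex (G := G) (m + 1)).index_ne_zero
      have hd0 : (P G (m + 1)).relIndex (P G m) ≠ 0 := by
        intro h0; rw [h0, zero_mul] at hi; exact hi0 hi.symm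
      refine (dimK_chain ht N (m + 1) (P G m) (P_le_dimSub m) _ (P G (m + 1)) _
        (P_succ_le_self m) rfl hd0 (fun x hx => sq_mem_P hx) (fun x hx y _ => comm_mem_P hx y)
        (ih (by omega)) n hn).trans ?_
      rw [← Real.exp_add, Finset.sum_eq_sum_Ico_succ_bot (show m < N by omega), add_comm]
      gcongr
      refine Real.logb_le_logb_of_le (by norm_num) (by positivity) ?_
      rw [← hi]
      exact_mod_cast Nat.le_mul_of_pos_right _
        (Nat.pos_of_ne_zero (P_finiteIndex (G := G) m).index_ne_zero)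
  have := key N le_rfl N le_rfl
  rwa [Nat.sub_self, P_zero, dimK_top, ← Finset.range_eq_Ico] at this

end Pool.Agent.P.MP_038aca_al
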