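import Mathlib

/-! The analytic contradiction between a linear recurrence bound and exponential growth. -/

namespace Pool.Agent.P.MP_038aca_al

open Filter Topology

theorem recurrence_contra (q h : ℕ → ℝ) (hq : ∀ m, 0 ≤ q m) (r α β γ c s : ℝ) (hα : 0 ≤ α)
    (hβ : 0 ≤ β) (hγ : 0 ≤ γ) (hc : 0 ≤ c) (hs0 : 0 < s) (hs1 : s < 1)
    (hchar : α * s + β * s ^ 2 + γ * s ^ 3 < r)
    (hrec : ∀ N : ℕ, r * q (N + 3) ≤ α * q (N + 2) + β * q (N + 1) + γ * q N + c * (N + 1))
    (hgrow : ∀ n, 1 ≤ s ^ n * h (n + 1))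
    (hup : ∀ t : ℝ, 0 < t → t ≤ 1 → ∀ N,
      t ^ N * h N ≤ Real.exp (∑ m ∈ Finset.range N, t ^ (m + 1) * q (m + 1))) : False := by
  obtain ⟨u, hsu, hu1, hu⟩ : ∃ u, s < u ∧ u < 1 ∧ α * u + β * u ^ 2 + γ * u ^ 3 < r := by
    have h1 : ∀ᶠ x in 𝓝 s, α * x + β * x ^ 2 + γ * x ^ 3 < r :=
      ContinuousAt.eventually_lt (f := fun x => α * x + β * x ^ 2 + γ * x ^ 3) (by fun_prop)
        continuousAt_const hchar
    have h2 : ∀ᶠ x in 𝓝 s, x < 1 := eventually_lt_nhds hs1
    obtain ⟨x, hx1, hx2⟩ := (((h1.and h2).filter_mono (nhdsWithin_le_nhds (s := Set.Ioi s))).and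
      self_mem_nhdsWithin).exists
    exact ⟨x, hx2, hx1.2, hx1.1⟩
  have hu0 : 0 < u := hs0.trans hsu
  obtain ⟨C, hC⟩ : ∃ C : ℝ, ∀ N : ℕ, (N + 1) * u ^ (N + 3) ≤ C := by
    obtain ⟨C, hC⟩ := (tendsto_self_mul_const_pow_of_lt_one hu0.le hu1).bddAbove_range
    refine ⟨C, fun N => le_trans ?_ (hC ⟨N + 3, rfl⟩)⟩
    push_cast
    gcongr
    norm_num
  set δ := r - (α * u + β * u ^ 2 + γ * u ^ 3) with hδ
  have hδ0 : 0 < δ := by linarith
  have hC0 : 0 ≤ C := le_trans (by positivity) (hC 0)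
  set K := q 0 + q 1 + q 2 + c * C / δ with hK
  have hKc : c * C ≤ δ * K := by
    have : δ * K = δ * (q 0 + q 1 + q 2) + c * C := by rw [hK]; field_simp
    rw [this]
    have := hq 0; have := hq 1; have := hq 2
    nlinarith [mul_nonneg hδ0.le (show 0 ≤ q 0 + q 1 + q 2 by linarith)]
  have hr : 0 < r := lt_of_le_of_lt (by positivity) hu
  have hbd : ∀ m, u ^ m * q m ≤ K := by
    have h0 : 0 ≤ c * C / δ := by positivity
    have hsmall : ∀ m, u ^ m * q m ≤ q m := fun m =>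
      mul_le_of_le_one_left (hq m) (pow_le_one₀ hu0.le hu1.le)
    intro m
    induction m using Nat.strong_induction_on with
    | _ m ih =>
      match m, ih with
      | 0, _ => have := hsmall 0; have := hq 1; have := hq 2; linarith
      | 1, _ => have := hsmall 1; have := hq 0; have := hq 2; linarith
      | 2, _ => have := hsmall 2; have := hq 0; have := hq 1; linarith
      | N + 3, ih =>
        have i2 := ih (N + 2) (by omega)
        have i1 := ih (N + 1) (by omega)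
        have i0 := ih N (by omega)
        have e := mul_le_mul_of_nonneg_left (hrec N) (pow_nonneg hu0.le (N + 3))
        have e2 : u ^ (N + 3) * (α * q (N + 2) + β * q (N + 1) + γ * q N + c * (N + 1)) =
            α * u * (u ^ (N + 2) * q (N + 2)) + β * u ^ 2 * (u ^ (N + 1) * q (N + 1)) +
              γ * u ^ 3 * (u ^ N * q N) + c * ((N + 1) * u ^ (N + 3)) := by ring
        have e3 : α * u * (u ^ (N + 2) * q (N + 2)) + β * u ^ 2 * (u ^ (N + 1) * q (N + 1)) +
              γ * u ^ 3 * (u ^ N * q N) + c * ((N + 1) * u ^ (N + 3)) ≤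
            α * u * K + β * u ^ 2 * K + γ * u ^ 3 * K + c * C := by
          have := hC N
          gcongr
        have e4 : r * (u ^ (N + 3) * q (N + 3)) ≤ r * K := by
          calc r * (u ^ (N + 3) * q (N + 3)) = u ^ (N + 3) * (r * q (N + 3)) := by ring
            _ ≤ α * u * K + β * u ^ 2 * K + γ * u ^ 3 * K + δ * K := by linarith
            _ = r * K := by rw [hδ]; ring
        exact le_of_mul_le_mul_left e4 hr
  have hK0 : 0 ≤ K := le_trans (by simpa using hq 0) (hbd 0)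
  obtain ⟨t, hst, htu⟩ := exists_between hsu
  have ht0 : 0 < t := hs0.trans hst
  have hρ0 : 0 ≤ t / u := by positivity
  have hρ1 : t / u < 1 := (div_lt_one hu0).2 htu
  have hsum : ∀ N, ∑ m ∈ Finset.range N, t ^ (m + 1) * q (m + 1) ≤ K * (1 - t / u)⁻¹ := by
    intro N
    calc ∑ m ∈ Finset.range N, t ^ (m + 1) * q (m + 1)
        ≤ ∑ m ∈ Finset.range N, K * (t / u) ^ m := by
          refine Finset.sum_le_sum fun m _ => ?_
          calc t ^ (m + 1) * q (m + 1) = (u ^ (m + 1) * q (m + 1)) * (t / u) ^ (m + 1) := by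
                rw [div_pow]; field_simp
            _ ≤ K * (t / u) ^ (m + 1) := by gcongr; exact hbd _
            _ ≤ K * (t / u) ^ m := by
                gcongr ?_ * ?_
                exact pow_le_pow_of_le_one hρ0 hρ1.le (by omega)
      _ = K * ∑ m ∈ Finset.range N, (t / u) ^ m := by rw [Finset.mul_sum]
      _ ≤ _ := by
          gcongr
          rw [← tsum_geometric_of_lt_one hρ0 hρ1]
          exact (summable_geometric_of_lt_one hρ0 hρ1).sum_le_tsum _ fun i _ => by positivity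
  have hfin : ∀ n, t * (t / s) ^ n ≤ Real.exp (K * (1 - t / u)⁻¹) := by
    intro n
    calc t * (t / s) ^ n ≤ t * (t / s) ^ n * (s ^ n * h (n + 1)) :=
          le_mul_of_one_le_right (by positivity) (hgrow n)
      _ = t ^ (n + 1) * h (n + 1) := by rw [div_pow]; field_simp; ring
      _ ≤ _ := (hup t ht0 (by linarith) _).trans (Real.exp_le_exp.2 (hsum _))
  have hlim : Tendsto (fun n : ℕ => t * (t / s) ^ n) atTop atTop :=
    (tendsto_pow_atTop_atTop_of_one_lt ((one_lt_div hs0).2 hst)).const_mul_atTop ht0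
  obtain ⟨n, hn⟩ := (hlim.eventually_gt_atTop (Real.exp (K * (1 - t / u)⁻¹))).exists
  exact absurd (hfin n) (not_le.2 hn)

theorem exists_root (r : ℝ) (hr : 3 ≤ r) : ∃ s : ℝ, 0 < s ∧ s < 1 ∧ s ^ 2 - r * s + 1 = 0 ∧
    (r ^ 2 - 1 - 1 / r) * s + 0 * s ^ 2 + 1 * s ^ 3 < r := by
  have hc : ContinuousOn (fun x : ℝ => x ^ 2 - r * x + 1) (Set.Icc 0 (2 / 5)) := by fun_prop
  obtain ⟨s, hs, hs0⟩ := intermediate_value_Icc' (show (0 : ℝ) ≤ 2 / 5 by norm_num) hc
    (show (0 : ℝ) ∈ Set.Icc _ _ by constructor <;> norm_num; linarith)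
  simp only at hs0
  have h0 : 0 < s := by
    rcases hs.1.eq_or_lt with h | h
    · rw [← h] at hs0; norm_num at hs0
    · exact h
  have h1 := hs.2
  refine ⟨s, h0, by linarith, hs0, ?_⟩
  have hr0 : 0 < r := by linarith
  have h2 : r * s = s ^ 2 + 1 := by linarith
  have h3 : 2 * r * s ^ 2 < 1 := by
    have : 2 * r * s ^ 2 = 2 * (s ^ 2 + 1) * s := by rw [← h2]; ring
    rw [this]; nlinarith
  have h4 : 2 * s ^ 2 < 1 / r := by rw [lt_div_iff₀ hr0]; linarith
  have h5 : (r ^ 2 - 1 - 1 / r) * s + 0 * s ^ 2 + 1 * s ^ 3 = r + s * (2 * s ^ 2 - 1 / r) := by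
    have : r ^ 2 * s = r * s * s + r := by linear_combination r * h2 - r * s * h2 + s * r * h2
    calc _ = r ^ 2 * s - s - s / r + s ^ 3 := by ring
      _ = (s ^ 2 + 1) * s + r - s - s / r + s ^ 3 := by rw [this, h2]
      _ = _ := by ring
  rw [h5]
  nlinarith

theorem char_free (r : ℝ) (hr : 2 ≤ r) :
    (r ^ 2 - 1) * (1 / r) + (r - 1) * (1 / r) ^ 2 + 1 * (1 / r) ^ 3 < r := by
  have hr0 : 0 < r := by linarith
  have : (r ^ 2 - 1) * (1 / r) + (r - 1) * (1 / r) ^ 2 + 1 * (1 / r) ^ 3 = r - (r - 1) / r ^ 3 := by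
    field_simp; ring
  rw [this]
  have : 0 < (r - 1) / r ^ 3 := div_pos (by linarith) (by positivity)
  linarith

end Pool.Agent.P.MP_038aca_al
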