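import Pool.Agent.P.MP_038aca_al.Defs

/-! Basic facts on word length and diameter. -/

namespace Pool.Agent.P.MP_038aca_al

variable {G : Type*} [Group G]

theorem wordLength_le_iff (T : Set G) (x : G) (r : ℕ) : wordLength T x ≤ r ↔
    ∃ l : List G, (∀ y ∈ l, y ∈ T ∨ y⁻¹ ∈ T) ∧ l.prod = x ∧ l.length ≤ r := by
  constructor
  · intro h
    by_contra hne
    push Not at hne
    have : ((r + 1 : ℕ) : ℕ∞) ≤ wordLength T x :=
      le_iInf fun l => le_iInf fun h1 => le_iInf fun h2 => by exact_mod_cast hne l h1 h2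
    have := this.trans h
    have : r + 1 ≤ r := by exact_mod_cast this
    omega
  · rintro ⟨l, h1, h2, h3⟩
    refine iInf_le_of_le l (iInf_le_of_le h1 (iInf_le_of_le h2 ?_))
    exact_mod_cast h3

theorem lcsDiameter_le_iff (S : Set G) (n r : ℕ) : lcsDiameter S n ≤ r ↔
    ∀ x : G, ∃ l : List G, (∀ y ∈ l, y ∈ S ∨ y⁻¹ ∈ S) ∧ l.length ≤ r ∧
      l.prod⁻¹ * x ∈ (⊤ : Subgroup G).lowerCentralSeries n := by
  set N := (⊤ : Subgroup G).lowerCentralSeries n
  rw [lcsDiameter, diameter, iSup_le_iff]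
  constructor
  · intro h x
    obtain ⟨l, h1, h2, h3⟩ := (wordLength_le_iff _ _ _).1 (h (QuotientGroup.mk' N x))
    have : ∃ l' : List G, (∀ y ∈ l', y ∈ S ∨ y⁻¹ ∈ S) ∧ l'.map (QuotientGroup.mk' N) = l := by
      clear h2 h3
      induction l with
      | nil => exact ⟨[], by simp, rfl⟩
      | cons y l ih =>
        obtain ⟨l', h4, rfl⟩ := ih fun z hz => h1 z (List.mem_cons_of_mem _ hz)
        rcases h1 y List.mem_cons_self with ⟨z, hz, rfl⟩ | ⟨z, hz, hy⟩
        · refine ⟨z :: l', ?_, rfl⟩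
          intro w hw
          rcases List.mem_cons.1 hw with rfl | hw
          · exact Or.inl hz
          · exact h4 w hw
        · refine ⟨z⁻¹ :: l', ?_, by rw [List.map_cons, map_inv, hy, inv_inv]⟩
          intro w hw
          rcases List.mem_cons.1 hw with rfl | hw
          · exact Or.inr (by simpa using hz)
          · exact h4 w hw
    obtain ⟨l', h4, rfl⟩ := this
    refine ⟨l', h4, by simpa using h3, ?_⟩
    rw [← QuotientGroup.eq]
    rw [← map_list_prod] at h2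
    exact h2
  · intro h x
    obtain ⟨x, rfl⟩ := QuotientGroup.mk'_surjective N x
    obtain ⟨l, h1, h2, h3⟩ := h x
    refine (wordLength_le_iff _ _ _).2 ⟨l.map (QuotientGroup.mk' N), ?_, ?_, by simpa using h2⟩
    · intro y hy
      obtain ⟨z, hz, rfl⟩ := List.mem_map.1 hy
      rcases h1 z hz with h | h
      · exact Or.inl ⟨z, h, rfl⟩
      · exact Or.inr ⟨z⁻¹, h, map_inv _ _⟩
    · rw [← map_list_prod]
      exact QuotientGroup.eq.2 h3

theorem lcsDiameter_le_of_le (S : Set G) {m n r : ℕ} (hmn : m ≤ n) (h : lcsDiameter S n ≤ r) :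
    lcsDiameter S m ≤ r := by
  rw [lcsDiameter_le_iff] at h ⊢
  intro x
  obtain ⟨l, h1, h2, h3⟩ := h x
  exact ⟨l, h1, h2, Subgroup.lowerCentralSeries_antitone _ hmn h3⟩

/-- If `d_n ≤ r + 1` always and `d_n ≤ r` fails once, then `d_n = r + 1` eventually. -/
theorem eventually_eq_succ (S : Set G) (r : ℕ) (hup : ∀ n, lcsDiameter S n ≤ (r + 1 : ℕ))
    (hlow : ∃ n, ¬ lcsDiameter S n ≤ r) : ∃ n₀, ∀ n ≥ n₀, lcsDiameter S n = (r + 1 : ℕ) := by
  obtain ⟨n₀, h⟩ := hlow
  refine ⟨n₀, fun n hn => le_antisymm (hup n) ?_⟩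
  have : ¬ lcsDiameter S n ≤ r := fun h' => h (lcsDiameter_le_of_le S hn h')
  rw [not_le] at this
  push_cast
  exact Order.add_one_le_of_lt this

theorem eventually_eq_top (S : Set G) (hlow : ∀ r : ℕ, ¬ lcsDiameter S 1 ≤ r) :
    ∃ n₀, ∀ n ≥ n₀, lcsDiameter S n = ⊤ := by
  refine ⟨1, fun n hn => ENat.eq_top_iff_forall_gt.2 fun r => ?_⟩
  exact not_le.1 fun h' => hlow r (lcsDiameter_le_of_le S hn h')

theorem exists_fn_of_list (S : Set G) (h1 : (1 : G) ∈ S) (r : ℕ) : ∀ (l : List G),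
    (∀ y ∈ l, y ∈ S) → l.length ≤ r →
      ∃ f : Fin r → G, (∀ i, f i ∈ S) ∧ (List.ofFn f).prod = l.prod := by
  induction r with
  | zero =>
    intro l _ hl
    rw [Nat.le_zero, List.length_eq_zero_iff] at hl
    exact ⟨Fin.elim0, fun i => i.elim0, by simp [hl]⟩
  | succ r ih =>
    intro l hl hr
    cases l with
    | nil => exact ⟨fun _ => 1, fun _ => h1, by simp⟩
    | cons y l =>
      obtain ⟨f, hf, hp⟩ := ih l (fun z hz => hl z (List.mem_cons_of_mem _ hz)) (by simpa using hr)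
      refine ⟨Fin.cons y f, ?_, ?_⟩
      · intro i
        refine Fin.cases ?_ (fun i => ?_) i
        · exact hl y List.mem_cons_self
        · exact hf i
      · rw [List.ofFn_succ, List.prod_cons, List.prod_cons, ← hp]
        rfl

end Pool.Agent.P.MP_038aca_al
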