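import Pool.Agent.P.MP_038aca_al.Abstract
import Pool.Agent.P.MP_038aca_al.GS
import Pool.Agent.P.MP_038aca_al.Recur
import Pool.Agent.P.MP_038aca_al.WL

/-! The lower bound `d_n > rank` for large `n`. -/

namespace Pool.Agent.P.MP_038aca_al

open Subgroup
open scoped commutatorElement

variable {g k p : ℕ}

/-- Generators of the surface group. -/
abbrev gen (x : Gen g k p) : SurfaceGroup g k p := PresentedGroup.of x

theorem surfaceWord_gen : surfaceWord (gen : Gen g k p → SurfaceGroup g k p) = 1 := by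
  have := map_surfaceWord (PresentedGroup.mk
    ({surfaceWord FreeGroup.of} : Set (FreeGroup (Gen g k p)))) FreeGroup.of
  exact this.symm.trans (PresentedGroup.one_of_mem rfl)

theorem surfaceWord_mem {G : Type*} [Group G] (K : Subgroup G) (t : Gen g k p → G)
    (h : ∀ x, t x ∈ K) : surfaceWord t ∈ K := by
  have := map_surfaceWord K.subtype fun x => ⟨t x, h x⟩
  simp only [coe_subtype] at this
  rw [← this]
  exact Subtype.property _

/-- Automorphisms preserving the peripheral structure. -/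
def IsPer (φ : MulAut (SurfaceGroup g k p)) : Prop :=
  φ '' peripheral g k p = peripheral g k p

theorem isPer_of_conj (φ : MulAut (SurfaceGroup g k p)) (h : ∀ l, IsConj (φ (genC l)) (genC l)) :
    IsPer φ := by
  have hinv : ∀ {a b : SurfaceGroup g k p}, IsConj a b → IsConj a⁻¹ b⁻¹ := by
    intro a b hab
    obtain ⟨c, rfl⟩ := isConj_iff.1 hab
    exact isConj_iff.2 ⟨c, by group⟩
  have key : ∀ ψ : MulAut (SurfaceGroup g k p), (∀ l, IsConj (ψ (genC l)) (genC l)) →
      ∀ x ∈ peripheral g k p, ψ x ∈ peripheral g k p := by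
    rintro ψ hψ x ⟨l, hx | hx⟩
    · exact ⟨l, Or.inl ((ψ.toMonoidHom.map_isConj hx).trans (hψ l))⟩
    · refine ⟨l, Or.inr ((ψ.toMonoidHom.map_isConj hx).trans ?_)⟩
      rw [map_inv]
      exact hinv (hψ l)
  apply Set.Subset.antisymm
  · rintro _ ⟨x, hx, rfl⟩
    exact key φ h x hx
  · intro x hx
    refine ⟨φ⁻¹ x, key φ⁻¹ (fun l => ?_) x hx, by simp⟩
    have := (φ⁻¹).toMonoidHom.map_isConj (h l)
    simpa using this.symm

theorem IsPer.mul {φ ψ : MulAut (SurfaceGroup g k p)} (h1 : IsPer φ) (h2 : IsPer ψ) :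
    IsPer (φ * ψ) := by
  unfold IsPer at *
  rw [MulAut.coe_mul, Set.image_comp, h2, h1]

theorem IsPer.inv {φ : MulAut (SurfaceGroup g k p)} (h1 : IsPer φ) : IsPer φ⁻¹ := by
  unfold IsPer at *
  conv_lhs => rw [← h1, ← Set.image_comp, ← MulAut.coe_mul, inv_mul_cancel]
  simp

theorem isPer_conj (h : SurfaceGroup g k p) : IsPer (MulAut.conj h) :=
  isPer_of_conj _ fun _ => isConj_iff.2 ⟨h⁻¹, by simp [mul_assoc]⟩

theorem isPer_one : IsPer (1 : MulAut (SurfaceGroup g k p)) :=
  isPer_of_conj _ fun _ => IsConj.refl _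

/-- Images of the peripheral automorphisms in `Hom(π, π / P M)`. -/
def homSet (g k p M : ℕ) :
    Set (SurfaceGroup g k p →* SurfaceGroup g k p ⧸ P (SurfaceGroup g k p) M) :=
  {α | ∃ φ, IsPer φ ∧ α = (QuotientGroup.mk' _).comp φ.toMonoidHom}

instance homSet_finite (M : ℕ) : Finite (homSet g k p M) :=
  Finite.of_injective (fun α x => α.1 (gen x)) fun _ _ h =>
    Subtype.ext (PresentedGroup.ext fun x => congrFun h x)

theorem index_P_pos (G : Type*) [Group G] [Group.FG G] (m : ℕ) : 0 < (P G m).index :=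
  Nat.pos_of_ne_zero (P_finiteIndex m).index_ne_zero

theorem ineq_A (C : Set (SurfaceGroup g k p)) (hC : C.Finite) (r : ℕ) (hr : 0 < r) (N : ℕ)
    (hd : lcsDiameter (orbitSet C) (N + 2) ≤ r) :
    (P (SurfaceGroup g k p) (N + 2)).index *
        (center (SurfaceGroup g k p ⧸ P (SurfaceGroup g k p) (N + 2))).index ≤
      Nat.card (homSet g k p (N + 2)) ^ r * Nat.card (C ∪ C⁻¹ ∪ {1} : Set _) ^ r *
        (P (SurfaceGroup g k p) 1).index * (P (SurfaceGroup g k p) N).index := by
  let G := SurfaceGroup g k p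
  have hfin : Finite (C ∪ C⁻¹ ∪ {1} : Set G) := ((hC.union hC.inv).union (Set.finite_singleton _))
  have h := count_A (homSet g k p (N + 2)) (by
      rintro _ ⟨φ, hφ, rfl⟩ κ
      obtain ⟨κ, rfl⟩ := QuotientGroup.mk_surjective κ
      exact ⟨MulAut.conj κ * φ, (isPer_conj κ).mul hφ, rfl⟩) (by
      rintro _ ⟨φ, -, rfl⟩
      exact (QuotientGroup.mk'_surjective _).comp φ.surjective)
    (C ∪ C⁻¹ ∪ {1}) r hr ((P G 1).map (QuotientGroup.mk' _)) ((P G N).map (QuotientGroup.mk' _))
    (by
      rintro _ ⟨a, ha, rfl⟩ _ ⟨κ, hκ, rfl⟩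
      rw [← mul_inv_eq_one]
      exact (QuotientGroup.eq_one_iff ⁅κ, a⁆).2 (comm_mem_PP hκ ha (by omega))) (by
      rintro _ ⟨a, -, rfl⟩
      obtain ⟨l, h1, h2, h3⟩ := (lcsDiameter_le_iff _ _ _).1 hd a
      obtain ⟨f, hf, hp⟩ := exists_fn_of_list (orbitSet (C ∪ C⁻¹ ∪ {1}))
        ⟨1, isPer_one, 1, Or.inr rfl, rfl⟩ r l (by
          intro y hy
          rcases h1 y hy with ⟨φ, hφ, c, hc, e⟩ | ⟨φ, hφ, c, hc, e⟩
          · exact ⟨φ, hφ, c, Or.inl (Or.inl hc), e⟩
          · exact ⟨φ, hφ, c⁻¹, Or.inl (Or.inr (by simpa using hc)), by rw [map_inv, ← e, inv_inv]⟩)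
        h2
      choose φ hφ c hc e using hf
      refine ⟨fun i => ⟨_, φ i, hφ i, rfl⟩, fun i => ⟨c i, hc i⟩, ?_⟩
      have h4 : QuotientGroup.mk' (P G (N + 2)) l.prod = QuotientGroup.mk' _ a :=
        QuotientGroup.eq.2 (lcs_le_P _ h3)
      rw [← h4, ← hp, map_list_prod, List.map_ofFn]
      congr 2
      funext i
      simp only [Function.comp_apply, e i]
      rfl)
  rw [← relIndex_ker, ← relIndex_ker, QuotientGroup.ker_mk'] at h
  have e1 := relIndex_mul_index (P_anti (G := G) (show 1 ≤ N + 2 by omega))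
  have e2 := relIndex_mul_index (P_anti (G := G) (show N ≤ N + 2 by omega))
  have e3 : (center (G ⧸ P G (N + 2))).index * Nat.card (center (G ⧸ P G (N + 2))) =
      (P G (N + 2)).index := (center _).index_mul_card
  refine Nat.le_of_mul_le_mul_right ?_ (index_P_pos G (N + 2))
  change (P G (N + 2)).index * (center (G ⧸ P G (N + 2))).index * (P G (N + 2)).index ≤
    Nat.card (homSet g k p (N + 2)) ^ r * Nat.card (C ∪ C⁻¹ ∪ {1} : Set G) ^ r * (P G 1).index *
      (P G N).index * (P G (N + 2)).index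
  generalize (P G (N + 2)).relIndex (P G 1) = a1 at *
  generalize (P G (N + 2)).relIndex (P G N) = a2 at *
  generalize Nat.card (homSet g k p (N + 2)) ^ r * Nat.card (C ∪ C⁻¹ ∪ {1} : Set G) ^ r = X at *
  generalize (center (G ⧸ P G (N + 2))).index = iz at *
  generalize Nat.card (center (G ⧸ P G (N + 2))) = z at *
  generalize (P G (N + 2)).index = I at *
  generalize (P G 1).index = I1 at *
  generalize (P G N).index = IN at *
  calc I * iz * I = (a1 * I1) * iz * (a2 * IN) := by rw [e1, e2]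
    _ = (a1 * a2) * (I1 * IN * iz) := by ring
    _ ≤ (X * z) * (I1 * IN * iz) := Nat.mul_le_mul_right _ h
    _ = X * I1 * IN * (iz * z) := by ring
    _ = _ := by rw [e3]

theorem dual_gen {G : Type*} [Group G] (w : Fin p → G) (t : Gen g k p → G) (x : Gen g k p) :
    conjTuple w t x ∈ closure (Set.range (dualTuple w t)) ⊔ P G 1 := by
  have hY : ∀ y, dualTuple w t y ∈ closure (Set.range (dualTuple w t)) ⊔ P G 1 :=
    fun y => mem_sup_left (subset_closure ⟨y, rfl⟩)
  rcases x with i | i | j | l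
  · simpa [dualTuple, conjTuple] using inv_mem (hY (.inr (.inl i)))
  · exact hY (.inl i)
  · exact hY (.inr (.inr (.inl j)))
  · have : conjTuple w t (.inr (.inr (.inr l))) = ⁅t (.inr (.inr (.inr l))), w l⁆ * w l := by
      simp only [conjTuple, commutatorElement_def]; group
    rw [this]
    exact mul_mem (mem_sup_right (comm_mem_P (n := 0) (mem_top _) _)) (hY (.inr (.inr (.inr l))))

theorem top_le_of_gen {G : Type*} [Group G] (ψ : SurfaceGroup g k p →* G)
    (hψ : Function.Surjective ψ) (K : Subgroup G) (h : ∀ x, ψ (gen x) ∈ K) : K = ⊤ := by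
  rw [eq_top_iff]
  intro y _
  obtain ⟨y, rfl⟩ := hψ y
  exact PresentedGroup.generated_by _ (K.comap ψ) h y

theorem closed_homSet (M : ℕ) :
    Nat.card (homSet g k 0 (M + 1)) * (P (SurfaceGroup g k 0) (M + 2)).index ≤
      (P (SurfaceGroup g k 0) 2).index ^ (M + 1) *
        (P (SurfaceGroup g k 0) (M + 1)).index ^ (2 * g + k) := by
  let G := SurfaceGroup g k 0
  have h := solSet_bound (G := G) (ι := Gen g k 0)
    (fun t => surfaceWord (conjTuple Fin.elim0 t) * 1) (dualTuple Fin.elim0) epsTuple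
    (surface_hR Fin.elim0 1) M
  rw [show Fintype.card (Gen g k 0) = 2 * g + k by simp; ring] at h
  refine le_trans (Nat.mul_le_mul_right _ ?_) h
  have hct : ∀ t : Gen g k 0 → G, conjTuple Fin.elim0 t = t := by
    intro t
    funext x
    rcases x with i | i | j | l
    exacts [rfl, rfl, rfl, l.elim0]
  refine Nat.card_le_card_of_injective (fun α => ⟨fun x => α.1 (gen x), ?_⟩) ?_
  · obtain ⟨φ, -, e⟩ := α.2
    refine ⟨fun x => φ (gen x), fun x => by rw [e]; rfl, ?_, ?_⟩
    · refine top_le_of_gen φ.toMonoidHom φ.surjective _ fun x => ?_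
      have := dual_gen Fin.elim0 (fun x => φ (gen x)) x
      rwa [hct] at this
    · have := map_surfaceWord φ.toMonoidHom (gen : Gen g k 0 → G)
      rw [surfaceWord_gen, map_one] at this
      simp only [hct, mul_one]
      rw [show (fun x => φ (gen x)) = fun x => φ.toMonoidHom (gen x) from rfl, ← this]
      exact one_mem _
  · intro α β h
    exact Subtype.ext (PresentedGroup.ext fun x => congrFun (congrArg Subtype.val h) x)

/-- Forgetting the last puncture. -/
def emb : Gen g k p → Gen g k (p + 1)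
  | .inl i => .inl i
  | .inr (.inl i) => .inr (.inl i)
  | .inr (.inr (.inl j)) => .inr (.inr (.inl j))
  | .inr (.inr (.inr l)) => .inr (.inr (.inr l.castSucc))

theorem surfaceWord_succ {G : Type*} [Group G] (t : Gen g k (p + 1) → G) :
    surfaceWord t = surfaceWord (fun x => t (emb x)) * t (.inr (.inr (.inr (Fin.last p)))) := by
  simp only [surfaceWord, emb, List.ofFn_succ_last (n := p), List.prod_append, List.prod_singleton,
    mul_assoc]

theorem forall_gen_succ {Φ : Gen g k (p + 1) → Prop} (h1 : ∀ x, Φ (emb x))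
    (h2 : Φ (.inr (.inr (.inr (Fin.last p))))) : ∀ x, Φ x := by
  rintro (i | i | j | l)
  · exact h1 (.inl i)
  · exact h1 (.inr (.inl i))
  · exact h1 (.inr (.inr (.inl j)))
  · refine Fin.lastCases h2 (fun l => ?_) l
    exact h1 (.inr (.inr (.inr l)))

/-- Standard peripheral elements. -/
def perElt (z : Fin p × Bool) : SurfaceGroup g k p := if z.2 then genC z.1 else (genC z.1)⁻¹

theorem punctured_homSet (M : ℕ) :
    Nat.card (homSet g k (p + 1) (M + 1)) * (P (SurfaceGroup g k (p + 1)) (M + 2)).index ≤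
      ((2 * (p + 1)) ^ (p + 1) *
        (center (SurfaceGroup g k (p + 1) ⧸ P (SurfaceGroup g k (p + 1)) (M + 1))).index) *
      ((P (SurfaceGroup g k (p + 1)) 2).index ^ (M + 1) *
        (P (SurfaceGroup g k (p + 1)) (M + 1)).index ^ (2 * g + k + p)) := by
  let G := SurfaceGroup g k (p + 1)
  let Q := G ⧸ P G (M + 1)
  have hex : ∀ α : homSet g k (p + 1) (M + 1), ∃ (ty : Fin (p + 1) → Fin (p + 1) × Bool) (h : G)
      (t : Gen g k p → G) (ψ : G →* G), Function.Surjective ψ ∧
      α.1 = conjHom (h : Q) ((QuotientGroup.mk' _).comp ψ) ∧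
      (∀ x, ψ (gen (emb x)) = conjTuple (fun l => perElt (ty l.castSucc)) t x) ∧
      ψ (genC (Fin.last p)) = perElt (ty (Fin.last p)) := by
    rintro ⟨_, φ, hφ, rfl⟩
    have : ∀ l : Fin (p + 1), ∃ (z : Fin (p + 1) × Bool) (h : G),
        φ (genC l) = h * perElt z * h⁻¹ := by
      intro l
      have : φ (genC l) ∈ peripheral g k (p + 1) := by
        rw [← hφ]
        exact ⟨_, ⟨l, Or.inl (IsConj.refl _)⟩, rfl⟩
      obtain ⟨l', h | h⟩ := this
      · obtain ⟨c, hc⟩ := isConj_iff.1 h.symm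
        exact ⟨(l', true), c, hc.symm⟩
      · obtain ⟨c, hc⟩ := isConj_iff.1 h.symm
        exact ⟨(l', false), c, hc.symm⟩
    choose ty h hh using this
    let ψ : MulAut G := MulAut.conj (h (Fin.last p))⁻¹ * φ
    refine ⟨ty, h (Fin.last p), fun x => match x with
      | .inr (.inr (.inr l)) => (h (Fin.last p))⁻¹ * h l.castSucc
      | x => ψ (gen (emb x)), ψ.toMonoidHom, ψ.surjective, ?_, ?_, ?_⟩
    · ext x
      simp [conjHom_apply, ψ, mul_assoc]
      rfl
    · rintro (i | i | j | l)
      · rfl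
      · rfl
      · rfl
      · change (h (Fin.last p))⁻¹ * φ (genC l.castSucc) * (h (Fin.last p))⁻¹⁻¹ = _
        rw [hh]
        simp only [conjTuple]
        group
    · change (h (Fin.last p))⁻¹ * φ (genC (Fin.last p)) * (h (Fin.last p))⁻¹⁻¹ = _
      rw [hh]
      group
  choose ty h t ψ hψ hα ht hl using hex
  have := card_mul_le_of_fiber (fun α : homSet g k (p + 1) (M + 1) =>
    (ty α, (((h α : G) : Q) : Q ⧸ center Q))) (P G (M + 2)).index
    ((P G 2).index ^ (M + 1) * (P G (M + 1)).index ^ (2 * g + k + p)) (by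
    rintro ⟨ty₀, q₀⟩
    have hb := solSet_bound (G := G) (ι := Gen g k p)
      (fun t => surfaceWord (conjTuple (fun l => perElt (ty₀ l.castSucc)) t) *
        perElt (ty₀ (Fin.last p))) (dualTuple fun l => perElt (ty₀ l.castSucc)) epsTuple
      (surface_hR _ _) M
    rw [show Fintype.card (Gen g k p) = 2 * g + k + p by simp; ring] at hb
    refine le_trans (Nat.mul_le_mul_right _ ?_) hb
    refine Nat.card_le_card_of_injective (fun α => ⟨fun x => (t α.1 x : Q), ?_⟩) ?_
    · obtain ⟨α, hα₀⟩ := α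
      obtain ⟨rfl, -⟩ := Prod.ext_iff.1 hα₀
      have hrel : surfaceWord (conjTuple (fun l => perElt (ty α l.castSucc)) (t α)) *
          perElt (ty α (Fin.last p)) = 1 := by
        have := map_surfaceWord (ψ α) (gen : Gen g k (p + 1) → G)
        rw [surfaceWord_gen, map_one] at this
        have := this.trans (surfaceWord_succ _)
        rw [this, ← hl α, ← funext (ht α)]
        rfl
      refine ⟨t α, fun _ => rfl, ?_, by simp only [hrel]; exact one_mem _⟩
      refine top_le_of_gen (ψ α) (hψ α) _ (forall_gen_succ (fun x => ?_) ?_)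
      · rw [ht]; exact dual_gen _ _ x
      · change ψ α (genC (Fin.last p)) ∈ _
        rw [hl, ← inv_mem_iff, ← eq_inv_of_mul_eq_one_left hrel]
        exact surfaceWord_mem _ _ (dual_gen _ _)
    · rintro ⟨α, hα₀⟩ ⟨β, hβ₀⟩ e
      have e1 : ∀ x, (t α x : Q) = t β x := congrFun (congrArg Subtype.val e)
      obtain ⟨e2, e3⟩ := Prod.ext_iff.1 (hα₀.trans hβ₀.symm)
      simp only at e2 e3
      have e4 : (QuotientGroup.mk' (P G (M + 1))).comp (ψ α) = (QuotientGroup.mk' _).comp (ψ β) := by
        refine PresentedGroup.ext (forall_gen_succ (fun x => ?_) ?_)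
        · change ((ψ α (gen (emb x)) : G) : Q) = (ψ β (gen (emb x)) : G)
          rw [ht, ht, e2]
          rcases x with i | i | j | l
          · exact e1 _
          · exact e1 _
          · exact e1 _
          · simp only [conjTuple, QuotientGroup.mk_mul, QuotientGroup.mk_inv, e1]
        · change ((ψ α (genC (Fin.last p)) : G) : Q) = (ψ β (genC (Fin.last p)) : G)
          rw [hl, hl, e2]
      refine Subtype.ext (Subtype.ext ?_)
      rw [hα α, hα β, e4]
      rw [QuotientGroup.eq] at e3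
      ext x
      rw [conjHom_apply, conjHom_apply]
      generalize ((QuotientGroup.mk' (P G (M + 1))).comp (ψ β)) (PresentedGroup.of x) = y
      calc _ = (h α : Q) * (y * (((h α : G) : Q)⁻¹ * (h β : G))) * ((h β : G) : Q)⁻¹ := by group
        _ = _ := by rw [center_comm e3]; group)
  rwa [Nat.card_prod, Nat.card_fun, Nat.card_prod, Nat.card_fin, Nat.card_eq_fintype_card (α := Bool),
    Fintype.card_bool, mul_comm (p + 1) 2] at this

end Pool.Agent.P.MP_038aca_al
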