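import Pool.Agent.P.MP_038aca_al.Lower

/-! The lower bound `d_n > rank` for large `n`: conclusion. -/

namespace Pool.Agent.P.MP_038aca_al

open Subgroup

variable {g k p : ℕ}

theorem logb_le_of_nat {a b : ℕ} (ha : 0 < a) (h : a ≤ b) :
    Real.logb 2 (a : ℝ) ≤ Real.logb 2 (b : ℝ) :=
  Real.logb_le_logb_of_le (by norm_num) (by exact_mod_cast ha) (by exact_mod_cast h)

theorem logb_nat_nonneg (a : ℕ) : 0 ≤ Real.logb 2 (a : ℝ) := by
  rcases Nat.eq_zero_or_pos a with rfl | h
  · simp
  · exact Real.logb_nonneg (by norm_num) (by exact_mod_cast h)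

theorem ineq_B {G : Type*} [Group G] [Group.FG G] {r : ℕ} (x : Fin r → G)
    (hx : closure (Set.range x) = ⊤) (M : ℕ) :
    (P G (M + 1)).index ≤ (2 ^ (M + 1)) ^ r * (center (G ⧸ P G (M + 1))).index ^ r := by
  refine count_B (fun i => (x i : G ⧸ P G (M + 1))) ?_ _ (by positivity) ?_ M ?_
  · have := congrArg (Subgroup.map (QuotientGroup.mk' (P G (M + 1)))) hx
    rw [MonoidHom.map_closure, map_top_of_surjective _ (QuotientGroup.mk'_surjective _),
      ← Set.range_comp] at this
    exact this
  · intro y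
    obtain ⟨y, rfl⟩ := QuotientGroup.mk_surjective y
    rw [← QuotientGroup.mk_pow, QuotientGroup.eq_one_iff]
    simpa using pow_two_pow_mem_P (j := 0) (mem_top y) (M + 1)
  · rw [← map_top_of_surjective _ (QuotientGroup.mk'_surjective (P G (M + 1))),
      ← map_lowerCentralSeries, Subgroup.map_eq_bot_iff, QuotientGroup.ker_mk']
    exact lcs_le_P _

theorem center_index_le {G : Type*} [Group G] [Group.FG G] (M : ℕ) :
    (center (G ⧸ P G (M + 1))).index ≤ (P G M).index := by
  rw [← index_comap_of_surjective _ (QuotientGroup.mk'_surjective (P G (M + 1)))]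
  exact Nat.le_of_dvd (index_P_pos G M) (index_dvd_of_le fun x hx => mk_mem_center_P hx)

theorem homSet_card_pos (M : ℕ) : 0 < Nat.card (homSet g k p M) := by
  have : Nonempty (homSet g k p M) := ⟨⟨_, 1, isPer_one, rfl⟩⟩
  exact Nat.card_pos

theorem center_index_pos {Q : Type*} [Group Q] [Finite Q] : 0 < (center Q).index :=
  Nat.pos_of_ne_zero index_ne_zero_of_finite

theorem log_ineq_A (C : Set (SurfaceGroup g k p)) (hC : C.Finite) (r : ℕ) (hr : 0 < r) (N : ℕ)
    (hd : lcsDiameter (orbitSet C) (N + 2) ≤ r) :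
    qq (SurfaceGroup g k p) (N + 2) +
      Real.logb 2 (center (SurfaceGroup g k p ⧸ P (SurfaceGroup g k p) (N + 2))).index ≤
      r * Real.logb 2 (Nat.card (homSet g k p (N + 2))) +
        r * Real.logb 2 (Nat.card (C ∪ C⁻¹ ∪ {1} : Set _)) +
        qq (SurfaceGroup g k p) 1 + qq (SurfaceGroup g k p) N := by
  have hfin : Finite (C ∪ C⁻¹ ∪ {1} : Set (SurfaceGroup g k p)) :=
    ((hC.union hC.inv).union (Set.finite_singleton _))
  have hne : Nonempty (C ∪ C⁻¹ ∪ {1} : Set (SurfaceGroup g k p)) := ⟨⟨1, Or.inr rfl⟩⟩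
  have h1 := index_P_pos (SurfaceGroup g k p)
  have h2 := center_index_pos (Q := SurfaceGroup g k p ⧸ P (SurfaceGroup g k p) (N + 2))
  have h3 := homSet_card_pos (g := g) (k := k) (p := p) (N + 2)
  have h4 : 0 < Nat.card (C ∪ C⁻¹ ∪ {1} : Set (SurfaceGroup g k p)) := Nat.card_pos
  have := logb_le_of_nat (Nat.mul_pos (h1 _) h2) (ineq_A C hC r hr N hd)
  have h5 := h1 (N + 2); have h6 := h1 1; have h7 := h1 N
  push_cast at this
  rwa [Real.logb_mul (by positivity) (by positivity), Real.logb_mul (by positivity) (by positivity),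
    Real.logb_mul (by positivity) (by positivity), Real.logb_mul (by positivity) (by positivity),
    Real.logb_pow, Real.logb_pow] at this

theorem lower_closed (hr : 3 ≤ 2 * g + k) (C : Set (SurfaceGroup g k 0)) (hC : C.Finite) :
    ∃ n, ¬ lcsDiameter (orbitSet C) n ≤ (2 * g + k : ℕ) := by
  by_contra hcon
  push Not at hcon
  obtain ⟨r, hrdef⟩ : ∃ r, r = 2 * g + k := ⟨_, rfl⟩
  have hcard : Fintype.card (Gen g k 0) = r := by simp [hrdef]; ring
  rw [← hrdef] at hr hcon
  have hr3 : (3 : ℝ) ≤ r := by exact_mod_cast hr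
  obtain ⟨s, hs0, hs1, hs, hchar⟩ := exists_root r hr3
  let G := SurfaceGroup g k 0
  let Lc := Real.logb 2 (Nat.card (C ∪ C⁻¹ ∪ {1} : Set G))
  have hLc : 0 ≤ Lc := logb_nat_nonneg _
  have hq := qq_nonneg (G := G)
  refine recurrence_contra (qq G) (fun n => hilb G n) hq r (r ^ 2 - 1 - 1 / r) 0 1
    (2 * (r * qq G 2) + r * Lc + qq G 1 + 2) s ?_ le_rfl zero_le_one
    (by have := hq 1; have := hq 2; positivity) hs0 hs1 hchar ?_ ?_
    (fun t ht ht1 N => hilb_le ht ht1 N)
  · have : 1 / (r : ℝ) ≤ 1 := by rw [div_le_one (by linarith)]; linarith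
    nlinarith
  · intro N
    have hA := log_ineq_A C hC r (by omega) N (hcon _)
    have h1 := index_P_pos G
    have hB : qq G (N + 2) ≤ r * (N + 2) +
        r * Real.logb 2 (center (G ⧸ P G (N + 2))).index := by
      have := logb_le_of_nat (h1 _) (ineq_B (G := G)
        (fun i => gen ((Fintype.equivFinOfCardEq hcard).symm i)) (by
          rw [← PresentedGroup.closure_range_of]
          congr 1
          exact (Fintype.equivFinOfCardEq hcard).symm.surjective.range_comp gen) (N + 1))
      have h2 := center_index_pos (Q := G ⧸ P G (N + 2))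
      push_cast at this
      rwa [Real.logb_mul (by positivity) (by positivity), Real.logb_pow, Real.logb_pow,
        Real.logb_pow, Real.logb_self_eq_one (by norm_num), mul_one, Nat.cast_add, Nat.cast_add,
        Nat.cast_one, add_assoc (N : ℝ), one_add_one_eq_two] at this
    have hC' : Real.logb 2 (Nat.card (homSet g k 0 (N + 2))) + qq G (N + 3) ≤
        (N + 2) * qq G 2 + r * qq G (N + 2) := by
      have h3 := homSet_card_pos (g := g) (k := k) (p := 0) (N + 2)
      have := logb_le_of_nat (Nat.mul_pos h3 (h1 _)) (closed_homSet (N + 1))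
      have h5 := h1 (N + 2); have h6 := h1 2; have h7 := h1 (N + 3)
      push_cast at this
      rwa [Real.logb_mul (by positivity) (by positivity),
        Real.logb_mul (by positivity) (by positivity), Real.logb_pow, Real.logb_pow, ← hrdef,
        Nat.cast_add, Nat.cast_add, Nat.cast_one, add_assoc (N : ℝ), one_add_one_eq_two] at this
    have hr0 : (0 : ℝ) < r := by linarith
    have hB' : 1 / r * qq G (N + 2) ≤ (N + 2) + Real.logb 2 (center (G ⧸ P G (N + 2))).index := by
      rw [one_div, inv_mul_le_iff₀ hr0]; linarith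
    have hC'' := mul_le_mul_of_nonneg_left hC' hr0.le
    have hN : (0 : ℝ) ≤ N := Nat.cast_nonneg N
    have e1 : 0 ≤ N * (r * qq G 2) := by have := hq 2; positivity
    have e2 : 0 ≤ N * (r * Lc) := by positivity
    have e3 : 0 ≤ N * qq G 1 := by have := hq 1; positivity
    change qq G (N + 2) + _ ≤ r * _ + r * Lc + qq G 1 + qq G N at hA
    nlinarith
  · refine hilb_growth_one _ ?_ hs0 hs1.le (by rw [hcard]; exact hs)
    intro f
    rw [map_surfaceWord]
    have h2 : ∀ y : Multiplicative (ZMod 2), y ^ 2 = 1 := by decide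
    simp [surfaceWord, h2]

theorem lower_punctured (hr : 2 ≤ 2 * g + k + p) (C : Set (SurfaceGroup g k (p + 1)))
    (hC : C.Finite) : ∃ n, ¬ lcsDiameter (orbitSet C) n ≤ (2 * g + k + p : ℕ) := by
  by_contra hcon
  push Not at hcon
  obtain ⟨r, hrdef⟩ : ∃ r, r = 2 * g + k + p := ⟨_, rfl⟩
  have hcard : Fintype.card (Gen g k (p + 1)) = r + 1 := by simp [hrdef]; ring
  rw [← hrdef] at hr hcon
  have hr2 : (2 : ℝ) ≤ r := by exact_mod_cast hr
  have hr0 : (0 : ℝ) < r := by linarith
  let G := SurfaceGroup g k (p + 1)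
  let Lc := Real.logb 2 (Nat.card (C ∪ C⁻¹ ∪ {1} : Set G))
  have hLc : 0 ≤ Lc := logb_nat_nonneg _
  let Lt := Real.logb 2 (((2 * (p + 1)) ^ (p + 1) : ℕ) : ℝ)
  have hLt : 0 ≤ Lt := logb_nat_nonneg _
  have hq := qq_nonneg (G := G)
  refine recurrence_contra (qq G) (fun n => hilb G n) hq r (r ^ 2 - 1) (r - 1) 1
    (2 * (r * qq G 2) + r * Lc + r * Lt + qq G 1) (1 / r) (by nlinarith) (by linarith) zero_le_one
    (by have := hq 1; have := hq 2; positivity) (by positivity)
    (by rw [div_lt_one hr0]; linarith) (char_free r hr2) ?_ ?_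
    (fun t ht ht1 N => hilb_le ht ht1 N)
  · intro N
    have hA := log_ineq_A C hC r (by omega) N (hcon _)
    have h1 := index_P_pos G
    have h2 := center_index_pos (Q := G ⧸ P G (N + 2))
    have hB : Real.logb 2 (center (G ⧸ P G (N + 2))).index ≤ qq G (N + 1) :=
      logb_le_of_nat h2 (center_index_le (N + 1))
    have hC' : Real.logb 2 (Nat.card (homSet g k (p + 1) (N + 2))) + qq G (N + 3) ≤
        (Lt + Real.logb 2 (center (G ⧸ P G (N + 2))).index) +
          ((N + 2) * qq G 2 + r * qq G (N + 2)) := by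
      have h3 := homSet_card_pos (g := g) (k := k) (p := p + 1) (N + 2)
      have := logb_le_of_nat (Nat.mul_pos h3 (h1 _)) (punctured_homSet (N + 1))
      have h5 := h1 (N + 2); have h6 := h1 2; have h7 := h1 (N + 3)
      rw [Nat.cast_mul, Nat.cast_mul, Nat.cast_mul, Nat.cast_mul, Nat.cast_pow _ (N + 1 + 1),
        Nat.cast_pow _ (2 * g + k + p)] at this
      rwa [Real.logb_mul (by positivity) (by positivity),
        Real.logb_mul (by positivity) (by positivity),
        Real.logb_mul (by positivity) (by positivity),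
        Real.logb_mul (by positivity) (by positivity), Real.logb_pow, Real.logb_pow, ← hrdef,
        Nat.cast_add N.succ, Nat.cast_succ, Nat.cast_one, add_assoc (N : ℝ),
        one_add_one_eq_two] at this
    have hC'' := mul_le_mul_of_nonneg_left hC' hr0.le
    have hB' := mul_le_mul_of_nonneg_left hB (show (0 : ℝ) ≤ r - 1 by linarith)
    have hN : (0 : ℝ) ≤ N := Nat.cast_nonneg N
    have e1 : 0 ≤ N * (r * qq G 2) := by have := hq 2; positivity
    have e2 : 0 ≤ N * (r * Lc) := by positivity
    have e3 : 0 ≤ N * qq G 1 := by have := hq 1; positivity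
    have e4 : 0 ≤ N * (r * Lt) := by positivity
    change qq G (N + 2) + _ ≤ r * _ + r * Lc + qq G 1 + qq G N at hA
    nlinarith
  · intro n
    have : ((r ^ n : ℕ) : ℝ) ≤ hilb G (n + 1) := by
      exact_mod_cast hilb_growth_zero _ hcard n
    push_cast at this
    rw [one_div, inv_pow, le_inv_mul_iff₀ (by positivity), mul_one]
    exact this

end Pool.Agent.P.MP_038aca_al
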