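import Pool.Agent.P.MP_038aca_al.Lower

/-! Explicit automorphisms of surface groups (Dehn twists and handle slides). -/

namespace Pool.Agent.P.MP_038aca_al

open Subgroup Function

variable {g k p : ℕ}

/-- Homomorphism out of the surface group given by a solution of the relation. -/
def homOf {G : Type*} [Group G] (f : Gen g k p → G) (hf : surfaceWord f = 1) :
    SurfaceGroup g k p →* G :=
  PresentedGroup.toGroup (f := f) (by
    rintro r rfl
    rw [map_surfaceWord]
    simpa using hf)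

theorem homOf_gen {G : Type*} [Group G] (f : Gen g k p → G) (hf : surfaceWord f = 1)
    (x : Gen g k p) : homOf f hf (gen x) = f x := PresentedGroup.toGroup.of _

/-- Automorphism from a pair of mutually inverse solutions. -/
def autOf (φ ψ : SurfaceGroup g k p →* SurfaceGroup g k p) (h1 : ∀ x, φ (ψ (gen x)) = gen x)
    (h2 : ∀ x, ψ (φ (gen x)) = gen x) : MulAut (SurfaceGroup g k p) :=
  MonoidHom.toMulEquiv φ ψ (PresentedGroup.ext h2) (PresentedGroup.ext h1)

/-- Adding a first handle. -/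
def embH : Gen g k p → Gen (g + 1) k p
  | .inl i => .inl i.succ
  | .inr (.inl i) => .inr (.inl i.succ)
  | .inr (.inr x) => .inr (.inr x)

/-- Tuple with prescribed first handle. -/
def mkT {G : Type*} (a b : G) (s : Gen g k p → G) : Gen (g + 1) k p → G
  | .inl i => Fin.cases a (fun i => s (.inl i)) i
  | .inr (.inl i) => Fin.cases b (fun i => s (.inr (.inl i))) i
  | .inr (.inr x) => s (.inr (.inr x))

theorem mkT_embH {G : Type*} (a b : G) (s : Gen g k p → G) (y : Gen g k p) :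
    mkT a b s (embH y) = s y := by
  rcases y with i | i | x <;> rfl

theorem forall_gen_handle {Φ : Gen (g + 1) k p → Prop} (ha : Φ (.inl 0)) (hb : Φ (.inr (.inl 0)))
    (h : ∀ y, Φ (embH y)) : ∀ x, Φ x := by
  rintro (i | i | x)
  · exact Fin.cases ha (fun i => h (.inl i)) i
  · exact Fin.cases hb (fun i => h (.inr (.inl i))) i
  · exact h (.inr (.inr x))

theorem surfaceWord_mkT {G : Type*} [Group G] (a b : G) (s : Gen g k p → G) :
    surfaceWord (mkT a b s) = a * b * a⁻¹ * b⁻¹ * surfaceWord s := by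
  simp only [surfaceWord, mkT, List.ofFn_succ, List.prod_cons, Fin.cases_zero, Fin.cases_succ,
    mul_assoc]

variable (g k p) in
/-- First handle generator `a`. -/
abbrev a0 : SurfaceGroup (g + 1) k p := gen (.inl 0)

variable (g k p) in
/-- First handle generator `b`. -/
abbrev b0 : SurfaceGroup (g + 1) k p := gen (.inr (.inl 0))

/-- The remaining generators. -/
abbrev s0 (y : Gen g k p) : SurfaceGroup (g + 1) k p := gen (embH y)

theorem rel0 : a0 g k p * b0 g k p * (a0 g k p)⁻¹ * (b0 g k p)⁻¹ * surfaceWord s0 = 1 := by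
  rw [← surfaceWord_mkT, ← surfaceWord_gen]
  congr 1
  funext x
  revert x
  exact forall_gen_handle rfl rfl fun y => mkT_embH _ _ _ y

variable (g k p) in
/-- Exponent sum of `a`. -/
def nA : SurfaceGroup (g + 1) k p →* Multiplicative ℤ :=
  homOf (mkT (Multiplicative.ofAdd 1) 1 fun _ => 1) (by
    rw [surfaceWord_mkT]; simp [surfaceWord])

theorem nA_a : nA g k p (a0 g k p) = Multiplicative.ofAdd 1 := homOf_gen _ _ _
theorem nA_b : nA g k p (b0 g k p) = 1 := homOf_gen _ _ _
theorem nA_s (y : Gen g k p) : nA g k p (s0 y) = 1 := by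
  rw [nA, homOf_gen, mkT_embH]

variable (g k p) in
/-- Homology modulo the class of `b`. -/
abbrev Hbar := Abelianization (SurfaceGroup (g + 1) k p) ⧸ zpowers (Abelianization.of (b0 g k p))

variable (g k p) in
/-- Projection to `Hbar`. -/
def kap : SurfaceGroup (g + 1) k p →* Hbar g k p :=
  (QuotientGroup.mk' _).comp Abelianization.of

theorem kap_b : kap g k p (b0 g k p) = 1 :=
  (QuotientGroup.eq_one_iff _).2 (mem_zpowers _)

variable (g k p) in
/-- Translations of the class of `a` realised by peripheral automorphisms. -/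
def moves : Subgroup (Hbar g k p) where
  carrier := {v | ∃ φ, IsPer φ ∧ (∀ x, kap g k p (φ x) = kap g k p x * v ^ (nA g k p x).toAdd) ∧
    ∀ x, nA g k p (φ x) = nA g k p x}
  one_mem' := ⟨1, isPer_one, by simp, by simp⟩
  mul_mem' := by
    rintro v w ⟨φ, h1, h2, h3⟩ ⟨ψ, h4, h5, h6⟩
    refine ⟨φ * ψ, h1.mul h4, fun x => ?_, fun x => ?_⟩
    · rw [MulAut.mul_apply, h2, h5, h6, mul_zpow, mul_assoc, mul_comm (w ^ _)]
    · rw [MulAut.mul_apply, h3, h6]
  inv_mem' := by
    rintro v ⟨φ, h1, h2, h3⟩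
    have h4 : ∀ x, nA g k p (φ⁻¹ x) = nA g k p x := fun x => by
      rw [← h3, MulAut.apply_inv_self]
    refine ⟨φ⁻¹, h1.inv, fun x => ?_, h4⟩
    have := h2 (φ⁻¹ x)
    rw [MulAut.apply_inv_self, h4] at this
    rw [this, inv_zpow, mul_inv_cancel_right]

theorem mem_moves_of_gen (φ : MulAut (SurfaceGroup (g + 1) k p)) (hφ : IsPer φ) (v : Hbar g k p)
    (ha : kap g k p (φ (a0 g k p)) = kap g k p (a0 g k p) * v)
    (hb : kap g k p (φ (b0 g k p)) = 1) (hs : ∀ y, kap g k p (φ (s0 y)) = kap g k p (s0 y))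
    (na : nA g k p (φ (a0 g k p)) = Multiplicative.ofAdd 1) (nb : nA g k p (φ (b0 g k p)) = 1)
    (ns : ∀ y, nA g k p (φ (s0 y)) = 1) : v ∈ moves g k p := by
  refine ⟨φ, hφ, fun x => ?_, fun x => ?_⟩
  · have : (kap g k p).comp φ.toMonoidHom = kap g k p * (zpowersHom _ v).comp (nA g k p) :=
      PresentedGroup.ext (forall_gen_handle (by simpa [nA_a] using ha)
        (by simpa [nA_b, kap_b] using hb) fun y => by simpa [nA_s] using hs y)
    exact DFunLike.congr_fun this x
  · have : (nA g k p).comp φ.toMonoidHom = nA g k p :=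
      PresentedGroup.ext (forall_gen_handle (by simpa [nA_a] using na)
        (by simpa [nA_b] using nb) fun y => by simpa [nA_s] using ns y)
    exact DFunLike.congr_fun this x

theorem slide (F : SurfaceGroup (g + 1) k p → (Gen g k p → SurfaceGroup (g + 1) k p) →
      (Gen g k p → SurfaceGroup (g + 1) k p))
    (W ξ η : (Gen g k p → SurfaceGroup (g + 1) k p) → SurfaceGroup (g + 1) k p)
    (hsplit : ∀ s, surfaceWord s = W s * ξ s * η s) (hW : ∀ ζ s, W (F ζ s) = W s)
    (hξ : ∀ ζ s, ξ (F ζ s) = ζ * ξ s * ζ⁻¹) (hη : ∀ ζ s, η (F ζ s) = η s)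
    (hFF : ∀ ζ s, F ζ (F ζ⁻¹ s) = s)
    (natF : ∀ (φ : SurfaceGroup (g + 1) k p →* SurfaceGroup (g + 1) k p) ζ s y,
      φ (F ζ s y) = F (φ ζ) (fun y => φ (s y)) y)
    (natW : ∀ (φ : SurfaceGroup (g + 1) k p →* SurfaceGroup (g + 1) k p) s,
      φ (W s) = W fun y => φ (s y))
    (natξ : ∀ (φ : SurfaceGroup (g + 1) k p →* SurfaceGroup (g + 1) k p) s,
      φ (ξ s) = ξ fun y => φ (s y))
    (hper : ∀ ζ s l, IsConj (F ζ s (.inr (.inr (.inr l)))) (s (.inr (.inr (.inr l)))))
    (hk : ∀ ζ y, kap g k p ζ = 1 → kap g k p (F ζ s0 y) = kap g k p (s0 y))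
    (hn : ∀ ζ y, nA g k p ζ = 1 → nA g k p (F ζ s0 y) = 1) (hnξ : nA g k p (ξ s0) = 1) :
    kap g k p (ξ s0) ∈ moves g k p := by
  have hrel := rel0 (g := g) (k := k) (p := p)
  rw [hsplit] at hrel
  set a := a0 g k p with ha
  set b := b0 g k p with hb
  set z := (W s0)⁻¹ * b⁻¹ * W s0 with hz
  set β := b⁻¹ * W s0 * ξ s0 * (W s0)⁻¹ with hβ
  set z' := (ξ s0)⁻¹ * z * ξ s0 with hz'
  have hf : surfaceWord (mkT (a * β⁻¹) (β * b * β⁻¹) (F z s0)) = 1 := by
    rw [surfaceWord_mkT, hsplit, hW, hξ, hη, ← hrel, hβ, hz]; group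
  have hf' : surfaceWord (mkT (a * β) (β⁻¹ * b * β) (F z'⁻¹ s0)) = 1 := by
    rw [surfaceWord_mkT, hsplit, hW, hξ, hη, ← hrel, hz', hβ, hz]; group
  set φ := homOf _ hf with hφ
  set ψ := homOf _ hf' with hψ
  have φa : φ a = a * β⁻¹ := homOf_gen _ _ _
  have φb : φ b = β * b * β⁻¹ := homOf_gen _ _ _
  have φs : ∀ y, φ (s0 y) = F z s0 y := fun y => (homOf_gen _ _ _).trans (mkT_embH _ _ _ y)
  have ψa : ψ a = a * β := homOf_gen _ _ _
  have ψb : ψ b = β⁻¹ * b * β := homOf_gen _ _ _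
  have ψs : ∀ y, ψ (s0 y) = F z'⁻¹ s0 y := fun y => (homOf_gen _ _ _).trans (mkT_embH _ _ _ y)
  have φW : φ (W s0) = W s0 := by rw [natW, funext φs, hW]
  have φξ : φ (ξ s0) = z * ξ s0 * z⁻¹ := by rw [natξ, funext φs, hξ]
  have ψW : ψ (W s0) = W s0 := by rw [natW, funext ψs, hW]
  have ψξ : ψ (ξ s0) = z'⁻¹ * ξ s0 * z'⁻¹⁻¹ := by rw [natξ, funext ψs, hξ]
  have φβ : φ β = β := by
    conv_lhs => rw [hβ]
    simp only [map_mul, map_inv, φW, φξ, φb]
    rw [hβ, hz]; group
  have ψβ : ψ β = β := by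
    conv_lhs => rw [hβ]
    simp only [map_mul, map_inv, ψW, ψξ, ψb]
    rw [hz', hβ, hz]; group
  have φz : φ z' = z := by
    conv_lhs => rw [hz', hz]
    simp only [map_mul, map_inv, φW, φξ, φb]
    rw [hβ, hz]; group
  have ψz : ψ z = z' := by
    conv_lhs => rw [hz]
    simp only [map_mul, map_inv, ψW, ψb]
    rw [hz', hβ, hz]; group
  have kz : kap g k p z = 1 := by simp [hz, hb, kap_b]
  have nz : nA g k p z = 1 := by simp [hz, hb, nA_b]
  have nβ : nA g k p β = 1 := by simp [hβ, hb, nA_b, hnξ]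
  let Φ := autOf φ ψ (forall_gen_handle (by rw [ψa, map_mul, φa, φβ]; group; rfl)
      (by rw [ψb]; simp only [map_mul, map_inv, φb, φβ]; group; rfl) fun y => by
        rw [ψs, natF, funext φs, map_inv, φz]
        simpa using congrFun (hFF z⁻¹ s0) y)
    (forall_gen_handle (by rw [φa, map_mul, map_inv, ψa, ψβ]; group; rfl)
      (by rw [φb]; simp only [map_mul, map_inv, ψb, ψβ]; group; rfl) fun y => by
        rw [φs, natF, funext ψs, ψz, hFF])
  have hΦ : ∀ x, Φ x = φ x := fun x => rfl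
  rw [← inv_mem_iff]
  refine mem_moves_of_gen Φ (isPer_of_conj _ fun l => ?_) _ ?_ ?_ (fun y => ?_) ?_ ?_ fun y => ?_
  · have := hper z s0 l
    rwa [← φs] at this
  · rw [hΦ, φa]; simp [hβ, hb, kap_b, ha]
  · rw [hΦ, φb]; simp [hb, kap_b]
  · rw [hΦ, φs, hk _ _ kz]
  · rw [hΦ, φa]; simp [nβ, ha, nA_a]
  · rw [hΦ, φb]; simp [hb, nA_b]
  · rw [hΦ, φs, hn _ _ nz]

section prepost
variable {G : Type*} [Group G] {n : ℕ}

/-- Product of the first `i` factors. -/
def pre (f : Fin n → G) (i : ℕ) : G := ((List.ofFn f).take i).prod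

/-- Product of the factors from index `i` on. -/
def post (f : Fin n → G) (i : ℕ) : G := ((List.ofFn f).drop i).prod

theorem pre_mul_post (f : Fin n → G) (i : ℕ) : (List.ofFn f).prod = pre f i * post f i :=
  (List.prod_take_mul_prod_drop _ _).symm

theorem post_eq (f : Fin n → G) (i : Fin n) : post f i = f i * post f (i + 1) := by
  rw [post, List.drop_eq_getElem_cons (by simp), List.prod_cons, List.getElem_ofFn]
  rfl

theorem pre_congr {f f' : Fin n → G} {i : ℕ} (h : ∀ j : Fin n, j.val < i → f j = f' j) :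
    pre f i = pre f' i := by
  unfold pre
  congr 1
  refine List.ext_getElem (by simp) fun j h1 h2 => ?_
  simp only [List.getElem_take, List.getElem_ofFn]
  exact h _ (by simp at h1; exact h1.1)

theorem post_congr {f f' : Fin n → G} {i : ℕ} (h : ∀ j : Fin n, i ≤ j.val → f j = f' j) :
    post f i = post f' i := by
  unfold post
  congr 1
  refine List.ext_getElem (by simp) fun j h1 h2 => ?_
  simp only [List.getElem_drop, List.getElem_ofFn]
  exact h _ (by simp)

theorem map_pre {H : Type*} [Group H] (φ : G →* H) (f : Fin n → G) (i : ℕ) :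
    φ (pre f i) = pre (fun j => φ (f j)) i := by
  rw [pre, pre, map_list_prod, List.map_take, List.map_ofFn]
  rfl

theorem map_ofFn_prod {H : Type*} [Group H] (φ : G →* H) (f : Fin n → G) :
    φ (List.ofFn f).prod = (List.ofFn fun j => φ (f j)).prod := by
  rw [map_list_prod, List.map_ofFn]
  rfl

end prepost

end Pool.Agent.P.MP_038aca_al
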