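import Pool.Agent.P.MP_038aca_al.Moves

/-! The five handle slides. -/

namespace Pool.Agent.P.MP_038aca_al

open Subgroup Function

variable {g k p : ℕ}

/-- Slot `a i`. -/
abbrev xA (i : Fin g) : Gen g k p := .inl i
/-- Slot `b i`. -/
abbrev xB (i : Fin g) : Gen g k p := .inr (.inl i)
/-- Slot `e j`. -/
abbrev xE (j : Fin k) : Gen g k p := .inr (.inr (.inl j))
/-- Slot `c l`. -/
abbrev xC (l : Fin p) : Gen g k p := .inr (.inr (.inr l))

section parts
variable {G : Type*} [Group G]

/-- Handle factors. -/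
def hF (s : Gen g k p → G) (i : Fin g) : G := s (xA i) * s (xB i) * (s (xA i))⁻¹ * (s (xB i))⁻¹
/-- Crosscap factors. -/
def eF (s : Gen g k p → G) (j : Fin k) : G := s (xE j) ^ 2
/-- Puncture factors. -/
def cF (s : Gen g k p → G) (l : Fin p) : G := s (xC l)

theorem surfaceWord_eq (s : Gen g k p → G) : surfaceWord s =
    (List.ofFn (hF s)).prod * (List.ofFn (eF s)).prod * (List.ofFn (cF s)).prod := rfl

theorem map_hF {H : Type*} [Group H] (φ : G →* H) (s : Gen g k p → G) :
    (fun i => φ (hF s i)) = hF fun y => φ (s y) := by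
  funext i; simp [hF]

theorem map_eF {H : Type*} [Group H] (φ : G →* H) (s : Gen g k p → G) :
    (fun i => φ (eF s i)) = eF fun y => φ (s y) := by
  funext i; simp [eF]

theorem map_cF {H : Type*} [Group H] (φ : G →* H) (s : Gen g k p → G) :
    (fun i => φ (cF s i)) = cF fun y => φ (s y) := rfl

theorem hF_update_E (s : Gen g k p → G) (j : Fin k) (v : G) : hF (update s (xE j) v) = hF s := by
  funext i; simp [hF]

theorem hF_update_C (s : Gen g k p → G) (l : Fin p) (v : G) : hF (update s (xC l) v) = hF s := by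
  funext i; simp [hF]

theorem eF_update_C (s : Gen g k p → G) (l : Fin p) (v : G) : eF (update s (xC l) v) = eF s := by
  funext i; simp [eF]

theorem eF_update_A (s : Gen g k p → G) (i : Fin g) (v : G) : eF (update s (xA i) v) = eF s := by
  funext i; simp [eF]

theorem eF_update_B (s : Gen g k p → G) (i : Fin g) (v : G) : eF (update s (xB i) v) = eF s := by
  funext i; simp [eF]

theorem cF_update_A (s : Gen g k p → G) (i : Fin g) (v : G) : cF (update s (xA i) v) = cF s := by
  funext i; simp [cF]

theorem cF_update_B (s : Gen g k p → G) (i : Fin g) (v : G) : cF (update s (xB i) v) = cF s := by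
  funext i; simp [cF]

theorem cF_update_E (s : Gen g k p → G) (j : Fin k) (v : G) : cF (update s (xE j) v) = cF s := by
  funext i; simp [cF]

end parts

theorem move_C (l : Fin p) : kap g k p (s0 (xC l)) ∈ moves g k p := by
  refine slide (fun ζ s => update s (xC l) (ζ * s (xC l) * ζ⁻¹))
    (fun s => (List.ofFn (hF s)).prod * (List.ofFn (eF s)).prod * pre (cF s) l)
    (fun s => s (xC l)) (fun s => post (cF s) (l + 1)) ?_ ?_ ?_ ?_ ?_ ?_ ?_ ?_ ?_ ?_ ?_ ?_
  · intro s
    rw [surfaceWord_eq, pre_mul_post (cF s) l, post_eq]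
    simp only [mul_assoc, cF]
  · intro ζ s
    rw [hF_update_C, eF_update_C, pre_congr]
    intro j hj
    have : j ≠ l := by rintro rfl; omega
    simp [cF, this]
  · intro ζ s; simp
  · intro ζ s
    apply post_congr
    intro j hj
    have : j ≠ l := by rintro rfl; omega
    simp [cF, this]
  · intro ζ s; simp [mul_assoc]
  · intro φ ζ s y
    by_cases h : y = xC l <;> simp [h]
  · intro φ s
    simp only [map_mul, map_ofFn_prod, map_pre, map_hF, map_eF, map_cF]
  · intro φ s; rfl
  · intro ζ s l'
    by_cases h : l' = l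
    · subst h
      rw [update_self]
      exact isConj_iff.2 ⟨ζ⁻¹, by group⟩
    · exact isConj_iff.2 ⟨1, by simp [h]⟩
  · intro ζ y hζ
    by_cases h : y = xC l <;> simp [h, hζ]
  · intro ζ y hζ
    by_cases h : y = xC l <;> simp [h, hζ, nA_s]
  · exact nA_s _

theorem move_E (j : Fin k) : kap g k p (s0 (xE j) ^ 2) ∈ moves g k p := by
  refine slide (fun ζ s => update s (xE j) (ζ * s (xE j) * ζ⁻¹))
    (fun s => (List.ofFn (hF s)).prod * pre (eF s) j)
    (fun s => s (xE j) ^ 2) (fun s => post (eF s) (j + 1) * (List.ofFn (cF s)).prod)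
    ?_ ?_ ?_ ?_ ?_ ?_ ?_ ?_ ?_ ?_ ?_ ?_
  · intro s
    rw [surfaceWord_eq, pre_mul_post (eF s) j, post_eq]
    simp only [mul_assoc, eF]
  · intro ζ s
    rw [hF_update_E, pre_congr]
    intro i hi
    have : i ≠ j := by rintro rfl; omega
    simp [eF, this]
  · intro ζ s; simp
  · intro ζ s
    rw [cF_update_E, post_congr]
    intro i hi
    have : i ≠ j := by rintro rfl; omega
    simp [eF, this]
  · intro ζ s; simp [mul_assoc]
  · intro φ ζ s y
    by_cases h : y = xE j <;> simp [h]
  · intro φ s
    simp only [map_mul, map_ofFn_prod, map_pre, map_hF, map_eF]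
  · intro φ s; simp
  · intro ζ s l'; exact isConj_iff.2 ⟨1, by simp⟩
  · intro ζ y hζ
    by_cases h : y = xE j <;> simp [h, hζ]
  · intro ζ y hζ
    by_cases h : y = xE j <;> simp [h, hζ, nA_s]
  · simp [nA_s]

theorem move_EE (i j : Fin k) (hij : j.val = i.val + 1) :
    kap g k p (s0 (xE i) * s0 (xE j)) ∈ moves g k p := by
  have hne : i ≠ j := by rintro rfl; omega
  refine slide (fun ζ s => update (update s (xE j) (ζ * s (xE j))) (xE i)
      (ζ * s (xE i) * s (xE j) * ζ⁻¹ * (s (xE j))⁻¹ * ζ⁻¹))
    (fun s => (List.ofFn (hF s)).prod * pre (eF s) i)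
    (fun s => s (xE i) * s (xE j))
    (fun s => (s (xE j))⁻¹ * s (xE i) * s (xE j) * s (xE j) * post (eF s) (j + 1) *
      (List.ofFn (cF s)).prod)
    ?_ ?_ ?_ ?_ ?_ ?_ ?_ ?_ ?_ ?_ ?_ ?_
  · intro s
    rw [surfaceWord_eq, pre_mul_post (eF s) i, post_eq, ← hij, post_eq]
    simp only [eF, sq]
    group
  · intro ζ s
    rw [hF_update_E, hF_update_E, pre_congr]
    intro m hm
    have h1 : m ≠ j := by rintro rfl; omega
    have h2 : m ≠ i := by rintro rfl; omega
    simp [eF, h1, h2]
  · intro ζ s; simp [hne.symm]; group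
  · intro ζ s
    rw [cF_update_E, cF_update_E, post_congr (f' := eF s)]
    · simp [hne.symm]; group
    · intro m hm
      have h1 : m ≠ j := by rintro rfl; omega
      have h2 : m ≠ i := by rintro rfl; omega
      simp [eF, h1, h2]
  · intro ζ s
    funext y
    by_cases h : y = xE i
    · subst h; simp [hne.symm]; group
    · by_cases h' : y = xE j
      · subst h'; simp [hne.symm]
      · simp [h, h']
  · intro φ ζ s y
    by_cases h : y = xE i
    · simp [h]
    · by_cases h' : y = xE j
      · subst h'; simp [hne.symm]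
      · simp [h, h']
  · intro φ s
    simp only [map_mul, map_ofFn_prod, map_pre, map_hF, map_eF]
  · intro φ s; simp
  · intro ζ s l'; exact isConj_iff.2 ⟨1, by simp⟩
  · intro ζ y hζ
    by_cases h : y = xE i
    · simp [h, hζ]
    · by_cases h' : y = xE j
      · subst h'; simp [hne.symm, hζ]
      · simp [h, h']
  · intro ζ y hζ
    by_cases h : y = xE i
    · simp [h, hζ, nA_s]
    · by_cases h' : y = xE j
      · subst h'; simp [hne.symm, hζ, nA_s]
      · simp [h, h', nA_s]
  · simp [nA_s]

theorem move_A (i : Fin g) : kap g k p (s0 (xA i)) ∈ moves g k p := by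
  refine slide (fun ζ s => update (update s (xB i) (s (xB i) * ζ⁻¹)) (xA i) (ζ * s (xA i) * ζ⁻¹))
    (fun s => pre (hF s) i) (fun s => s (xA i))
    (fun s => s (xB i) * (s (xA i))⁻¹ * (s (xB i))⁻¹ * post (hF s) (i + 1) *
      (List.ofFn (eF s)).prod * (List.ofFn (cF s)).prod)
    ?_ ?_ ?_ ?_ ?_ ?_ ?_ ?_ ?_ ?_ ?_ ?_
  · intro s
    rw [surfaceWord_eq, pre_mul_post (hF s) i, post_eq]
    simp only [hF, mul_assoc]
  · intro ζ s
    apply pre_congr
    intro m hm
    have h1 : m ≠ i := by rintro rfl; omega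
    simp [hF, h1]
  · intro ζ s; simp
  · intro ζ s
    rw [cF_update_A, cF_update_B, eF_update_A, eF_update_B, post_congr (f' := hF s)]
    · simp; group
    · intro m hm
      have h1 : m ≠ i := by rintro rfl; omega
      simp [hF, h1]
  · intro ζ s
    funext y
    by_cases h : y = xA i
    · subst h; simp; group
    · by_cases h' : y = xB i
      · subst h'; simp
      · simp [h, h']
  · intro φ ζ s y
    by_cases h : y = xA i
    · simp [h]
    · by_cases h' : y = xB i
      · subst h'; simp
      · simp [h, h']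
  · intro φ s
    simp only [map_pre, map_hF]
  · intro φ s; rfl
  · intro ζ s l'; exact isConj_iff.2 ⟨1, by simp⟩
  · intro ζ y hζ
    by_cases h : y = xA i
    · simp [h, hζ]
    · by_cases h' : y = xB i
      · subst h'; simp [hζ]
      · simp [h, h']
  · intro ζ y hζ
    by_cases h : y = xA i
    · simp [h, hζ, nA_s]
    · by_cases h' : y = xB i
      · subst h'; simp [hζ, nA_s]
      · simp [h, h', nA_s]
  · exact nA_s _

theorem move_B (i : Fin g) : kap g k p (s0 (xB i)) ∈ moves g k p := by
  have := slide (k := k) (p := p) (fun ζ s => update s (xA i) (ζ * s (xA i)))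
    (fun s => pre (hF s) i) (fun s => s (xA i) * s (xB i) * (s (xA i))⁻¹)
    (fun s => (s (xB i))⁻¹ * post (hF s) (i + 1) *
      (List.ofFn (eF s)).prod * (List.ofFn (cF s)).prod)
    ?_ ?_ ?_ ?_ ?_ ?_ ?_ ?_ ?_ ?_ ?_ ?_
  · simpa using this
  · intro s
    rw [surfaceWord_eq, pre_mul_post (hF s) i, post_eq]
    simp only [hF, mul_assoc]
  · intro ζ s
    apply pre_congr
    intro m hm
    have h1 : m ≠ i := by rintro rfl; omega
    simp [hF, h1]
  · intro ζ s; simp; group
  · intro ζ s
    rw [cF_update_A, eF_update_A, post_congr (f' := hF s)]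
    · simp
    · intro m hm
      have h1 : m ≠ i := by rintro rfl; omega
      simp [hF, h1]
  · intro ζ s; simp
  · intro φ ζ s y
    by_cases h : y = xA i <;> simp [h]
  · intro φ s
    simp only [map_pre, map_hF]
  · intro φ s; simp
  · intro ζ s l'; exact isConj_iff.2 ⟨1, by simp⟩
  · intro ζ y hζ
    by_cases h : y = xA i <;> simp [h, hζ]
  · intro ζ y hζ
    by_cases h : y = xA i <;> simp [h, hζ, nA_s]
  · simp [nA_s]

end Pool.Agent.P.MP_038aca_al
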