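import Pool.Agent.P.MP_038aca_al.Upper

/-! The torus and the surfaces without handles. -/

namespace Pool.Agent.P.MP_038aca_al

open Subgroup Function

variable {g k p : ℕ}

theorem hom_lcs_one {G A : Type*} [Group G] [CommGroup A] (ν : G →* A) {x y : G}
    (h : x⁻¹ * y ∈ (⊤ : Subgroup G).lowerCentralSeries 1) : ν x = ν y := by
  have := Abelianization.commutator_subset_ker ν h
  rwa [MonoidHom.mem_ker, map_mul, map_inv, inv_mul_eq_one] at this

theorem torus_commutator : commutator (SurfaceGroup 1 0 0) = ⊥ := by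
  have hab : a0 0 0 0 * b0 0 0 0 = b0 0 0 0 * a0 0 0 0 := by
    have := rel0 (g := 0) (k := 0) (p := 0)
    rw [show surfaceWord (s0 : Gen 0 0 0 → SurfaceGroup (0 + 1) 0 0) = 1 by simp [surfaceWord],
      mul_one, mul_inv_eq_one, mul_inv_eq_iff_eq_mul] at this
    exact this
  have hs : ∀ {Φ : Gen 0 0 0 → Prop} y, Φ y := by
    rintro Φ (i | i | i | i) <;> exact i.elim0
  have h1 : ∀ u : SurfaceGroup (0 + 1) 0 0, a0 0 0 0 * u = u * a0 0 0 0 →
      b0 0 0 0 * u = u * b0 0 0 0 → u ∈ center _ := by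
    intro u ha hb
    rw [mem_center_iff]
    intro x
    have : centralizer {u} = ⊤ := top_le_of_gen (MonoidHom.id _) surjective_id _
      (forall_gen_handle (mem_centralizer_singleton_iff.2 ha) (mem_centralizer_singleton_iff.2 hb)
        hs)
    exact mem_centralizer_singleton_iff.1 (this ▸ mem_top x)
  rw [commutator_eq_bot_iff_center_eq_top]
  exact top_le_of_gen (MonoidHom.id _) surjective_id _
    (forall_gen_handle (h1 _ rfl hab.symm) (h1 _ hab rfl) hs)

theorem torus_upper {C : Set (SurfaceGroup 1 0 0)} (hC : standardCurves 1 0 0 ⊆ C) (n : ℕ) :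
    lcsDiameter (orbitSet C) n ≤ (2 : ℕ) := by
  refine (lcsDiameter_le_iff _ _ _).2 fun x => ?_
  have ha : a0 0 0 0 ∈ orbitSet C := subset_orbit (hC (Or.inl (Or.inl ⟨0, rfl⟩)))
  let vb := twB 0 0 0 ((nA 0 0 0 x).toAdd - 2) (twA 0 0 0 1 (a0 0 0 0))
  have hvb : vb = a0 0 0 0 * b0 0 0 0 * a0 0 0 0 ^ ((nA 0 0 0 x).toAdd - 2) := by
    simp [vb, twA_a, twB_a, twB_b, mul_assoc]
  obtain ⟨s, hs, hs'⟩ := exists_simple hC (x * vb⁻¹) (by
    rw [hvb]
    simp only [map_mul, map_inv, map_zpow, nA_a, nA_b]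
    apply Multiplicative.toAdd.injective
    simp only [toAdd_mul, toAdd_inv, toAdd_zpow, toAdd_ofAdd, toAdd_one, smul_eq_mul]
    ring)
  have h1 : s⁻¹ * (x * vb⁻¹) ∈ commutator (SurfaceGroup 1 0 0) := QuotientGroup.eq.1 hs'
  rw [torus_commutator, mem_bot, inv_mul_eq_one] at h1
  refine ⟨[s, vb], ?_, le_rfl, by simp [h1]⟩
  intro y hy
  simp only [List.mem_cons, List.not_mem_nil, or_false] at hy
  rcases hy with rfl | rfl
  · exact Or.inl hs
  · exact Or.inl (orbit_twB _ (orbit_twA _ ha))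

/-- Exponent sum of `b` on the torus. -/
def nB : SurfaceGroup (0 + 1) 0 0 →* Multiplicative ℤ :=
  homOf (mkT 1 (Multiplicative.ofAdd 1) fun _ => 1) (by
    rw [surfaceWord_mkT]; simp [surfaceWord])

theorem nB_a : nB (a0 0 0 0) = 1 := homOf_gen _ _ _
theorem nB_b : nB (b0 0 0 0) = Multiplicative.ofAdd 1 := homOf_gen _ _ _

theorem torus_lower {C : Set (SurfaceGroup 1 0 0)} (hC : C.Finite) :
    ¬ lcsDiameter (orbitSet C) 1 ≤ (1 : ℕ) := by
  intro h
  obtain ⟨N, hN⟩ := (hC.image fun c => (nA 0 0 0 c).toAdd.natAbs + (nB c).toAdd.natAbs).bddAbove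
  have key : ∀ (φ : MulAut (SurfaceGroup 1 0 0)) (c : SurfaceGroup 1 0 0) (m : ℤ), c ∈ C →
      m.natAbs = N + 1 → (φ c)⁻¹ * a0 0 0 0 ^ m ∉ (⊤ : Subgroup _).lowerCentralSeries 1 := by
    intro φ c m hc hm hmem
    have hb := hN ⟨c, hc, rfl⟩
    have h1 : ∀ ν : SurfaceGroup 1 0 0 →* Multiplicative ℤ, (ν c).toAdd.natAbs ≤ N → ν c = 1 := by
      intro ν hν
      have := hom_lcs_one (ν.comp (φ⁻¹).toMonoidHom) hmem
      simp only [MonoidHom.comp_apply, MulEquiv.coe_toMonoidHom, MulAut.inv_apply_self,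
        map_zpow] at this
      have h2 : m ∣ (ν c).toAdd := ⟨_, by rw [this, toAdd_zpow, smul_eq_mul]⟩
      have h3 : (ν c).toAdd = 0 := Int.eq_zero_of_dvd_of_natAbs_lt_natAbs h2 (by omega)
      exact h3
    have h3 : Abelianization.of = (zpowersHom _ (Abelianization.of (a0 0 0 0))).comp (nA 0 0 0) *
        (zpowersHom _ (Abelianization.of (b0 0 0 0))).comp nB :=
      PresentedGroup.ext (forall_gen_handle (by simp [nA_a, nB_a]) (by simp [nA_b, nB_b])
        (by rintro (i | i | i | i) <;> exact i.elim0))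
    have h4 : Abelianization.of c = 1 := by
      rw [h3]
      simp [h1 (nA 0 0 0) (by simp only at hb; omega), h1 nB (by simp only at hb; omega)]
    have h5 : c = 1 := by
      rw [← mem_bot, ← torus_commutator, ← Abelianization.ker_of]
      exact h4
    have h6 := hom_lcs_one (nA 0 0 0) hmem
    rw [h5, map_one, map_one, map_zpow, nA_a] at h6
    have h7 := congrArg Multiplicative.toAdd h6
    simp only [toAdd_one, toAdd_zpow, toAdd_ofAdd, smul_eq_mul, mul_one] at h7
    omega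
  obtain ⟨l, h1, h2, h3⟩ := (lcsDiameter_le_iff _ _ _).1 h (a0 0 0 0 ^ ((N + 1 : ℕ) : ℤ))
  match l, h1, h2, h3 with
  | [], _, _, h3 =>
    have h6 := congrArg Multiplicative.toAdd (hom_lcs_one (nA 0 0 0) h3)
    simp only [List.prod_nil, map_one, map_zpow, nA_a, toAdd_one, toAdd_zpow, toAdd_ofAdd,
      smul_eq_mul, mul_one] at h6
    omega
  | [y], h1, _, h3 =>
    rw [List.prod_singleton] at h3
    rcases h1 y List.mem_cons_self with ⟨φ, -, c, hc, e⟩ | ⟨φ, -, c, hc, e⟩
    · exact key φ c _ hc (by omega) (e ▸ h3)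
    · refine key φ c (-((N + 1 : ℕ) : ℤ)) hc (by omega) ?_
      rw [← e, inv_inv, zpow_neg]
      have := (inferInstance : ((⊤ : Subgroup (SurfaceGroup 1 0 0)).lowerCentralSeries 1).Normal
        ).conj_mem _ (inv_mem h3) y
      simpa [mul_assoc] using this
  | _ :: _ :: _, _, h2, _ => simp at h2

/-- Elements on whose orbit `χ` is bounded. -/
def bddSub (χ : SurfaceGroup g k p →* Multiplicative ℤ) : Subgroup (SurfaceGroup g k p) where
  carrier := {x | ∃ B : ℕ, ∀ φ, IsPer φ → (χ (φ x)).toAdd.natAbs ≤ B}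
  one_mem' := ⟨0, by simp⟩
  mul_mem' := by
    rintro x y ⟨B, hB⟩ ⟨B', hB'⟩
    refine ⟨B + B', fun φ hφ => ?_⟩
    rw [map_mul, map_mul, toAdd_mul]
    have := hB φ hφ; have := hB' φ hφ
    omega
  inv_mem' := by
    rintro x ⟨B, hB⟩
    exact ⟨B, fun φ hφ => by simpa using hB φ hφ⟩

theorem per_value (χ : SurfaceGroup g k p →* Multiplicative ℤ) {φ : MulAut (SurfaceGroup g k p)}
    (hφ : IsPer φ) (l : Fin p) :
    ∃ l', (χ (φ (genC l))).toAdd.natAbs = (χ (genC l')).toAdd.natAbs := by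
  have : φ (genC l) ∈ peripheral g k p := by
    rw [← hφ]
    exact ⟨_, ⟨l, Or.inl (IsConj.refl _)⟩, rfl⟩
  obtain ⟨l', h | h⟩ := this
  · exact ⟨l', by rw [isConj_iff_eq.1 (χ.map_isConj h)]⟩
  · exact ⟨l', by rw [isConj_iff_eq.1 (χ.map_isConj h)]; simp⟩

theorem genC_mem_bddSub (χ : SurfaceGroup g k p →* Multiplicative ℤ) (l : Fin p) :
    genC l ∈ bddSub χ := by
  refine ⟨∑ l', (χ (genC l')).toAdd.natAbs, fun φ hφ => ?_⟩
  obtain ⟨l', h⟩ := per_value χ hφ l
  rw [h]
  exact Finset.single_le_sum (f := fun l' => (χ (genC l')).toAdd.natAbs) (fun _ _ => Nat.zero_le _)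
    (Finset.mem_univ l')

theorem top_of_bounded (χ : SurfaceGroup g k p →* Multiplicative ℤ) (x₀ : SurfaceGroup g k p)
    (hx₀ : χ x₀ = Multiplicative.ofAdd 1) (hb : ∀ x, gen x ∈ bddSub χ)
    {C : Set (SurfaceGroup g k p)} (hC : C.Finite) (r : ℕ) :
    ¬ lcsDiameter (orbitSet C) 1 ≤ r := by
  intro h
  have htop : bddSub χ = ⊤ := top_le_of_gen (MonoidHom.id _) surjective_id _ hb
  have hall : ∀ x, x ∈ bddSub χ := fun x => htop ▸ mem_top x
  choose B hB using hall
  obtain ⟨M, hM⟩ := (hC.image B).bddAbove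
  have hS : ∀ y ∈ orbitSet C, (χ y).toAdd.natAbs ≤ M := by
    rintro _ ⟨φ, hφ, c, hc, rfl⟩
    exact (hB c φ hφ).trans (hM ⟨c, hc, rfl⟩)
  obtain ⟨l, h1, h2, h3⟩ := (lcsDiameter_le_iff _ _ _).1 h (x₀ ^ (r * M + 1))
  have h4 : (χ l.prod).toAdd.natAbs ≤ l.length * M := by
    clear h2 h3
    induction l with
    | nil => simp
    | cons y l ih =>
      have i1 := ih fun z hz => h1 z (List.mem_cons_of_mem _ hz)
      have i2 : (χ y).toAdd.natAbs ≤ M := by
        rcases h1 y List.mem_cons_self with h | h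
        · exact hS y h
        · simpa using hS _ h
      rw [List.prod_cons, map_mul, toAdd_mul, List.length_cons, add_mul]
      omega
  rw [hom_lcs_one χ h3, map_pow, hx₀] at h4
  have h5 := Nat.mul_le_mul_right M h2
  simp only [toAdd_pow, toAdd_ofAdd, nsmul_eq_mul, mul_one, Int.natAbs_natCast] at h4
  omega

theorem planar_top {C : Set (SurfaceGroup 0 0 (p + 2))} (hC : C.Finite) (r : ℕ) :
    ¬ lcsDiameter (orbitSet C) 1 ≤ r := by
  let t : Gen 0 0 (p + 2) → Multiplicative ℤ := fun x => match x with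
    | .inr (.inr (.inr l)) => Fin.cases (Multiplicative.ofAdd 1)
        (Fin.cases (Multiplicative.ofAdd 1)⁻¹ fun _ => 1) l
    | _ => 1
  have ht : surfaceWord t = 1 := by simp [surfaceWord, t, List.ofFn_succ]
  refine top_of_bounded (homOf t ht) (genC 0) (homOf_gen _ _ _) ?_ hC r
  rintro (i | i | i | l)
  exacts [i.elim0, i.elim0, i.elim0, genC_mem_bddSub _ l]

theorem moebius_top {C : Set (SurfaceGroup 0 1 (p + 1))} (hC : C.Finite) (r : ℕ) :
    ¬ lcsDiameter (orbitSet C) 1 ≤ r := by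
  let t : Gen 0 1 (p + 1) → Multiplicative ℤ := fun x => match x with
    | .inr (.inr (.inr l)) => Fin.cases (Multiplicative.ofAdd 1 ^ 2)⁻¹ (fun _ => 1) l
    | _ => Multiplicative.ofAdd 1
  have ht : surfaceWord t = 1 := by simp [surfaceWord, t, List.ofFn_succ]
  refine top_of_bounded (homOf t ht) (genE 0) (homOf_gen _ _ _) ?_ hC r
  rintro (i | i | i | l)
  · exact i.elim0
  · exact i.elim0
  · have h1 := surfaceWord_gen (g := 0) (k := 1) (p := p + 1)
    rw [surfaceWord_eq] at h1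
    have h2 : (List.ofFn (cF (gen : Gen 0 1 (p + 1) → _))).prod ∈ bddSub (homOf t ht) := by
      refine list_prod_mem fun x hx => ?_
      obtain ⟨l, rfl⟩ := List.mem_ofFn.1 hx
      exact genC_mem_bddSub _ l
    rw [← inv_mem_iff, ← eq_inv_of_mul_eq_one_left h1] at h2
    obtain ⟨B, hB⟩ := h2
    refine ⟨B, fun φ hφ => le_trans ?_ (hB φ hφ)⟩
    rw [Subsingleton.elim i 0]
    simp only [List.ofFn_zero, List.prod_nil, one_mul, List.ofFn_succ, List.prod_cons, mul_one, eF,
      map_pow, toAdd_pow, nsmul_eq_mul, xE]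
    omega
  · exact genC_mem_bddSub _ l

theorem klein_top {C : Set (SurfaceGroup 0 2 p)} (hC : C.Finite) (r : ℕ) :
    ¬ lcsDiameter (orbitSet C) 1 ≤ r := by
  let t : Gen 0 2 p → Multiplicative ℤ := fun x => match x with
    | .inr (.inr (.inl j)) => ![Multiplicative.ofAdd 1, (Multiplicative.ofAdd 1)⁻¹] j
    | _ => 1
  have ht : surfaceWord t = 1 := by simp [surfaceWord, t, List.ofFn_succ]
  set χ := homOf t ht with hχ
  have e0 : χ (gen (xE 0)) = Multiplicative.ofAdd 1 := homOf_gen _ _ _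
  have e1 : χ (gen (xE 1)) = (Multiplicative.ofAdd 1)⁻¹ := homOf_gen _ _ _
  have ec : ∀ l, χ (genC l) = 1 := fun l => homOf_gen _ _ _
  have key : ∀ φ, IsPer φ → ∀ x, (χ (φ x)).toAdd.natAbs = (χ x).toAdd.natAbs := by
    intro φ hφ
    have hc : ∀ l, χ (φ (gen (xC l))) = 1 := by
      intro l
      obtain ⟨l', h⟩ := per_value χ hφ l
      rw [ec] at h
      have : χ (φ (genC l)) = 1 := by simpa using h
      exact this
    have h1 := map_surfaceWord (χ.comp φ.toMonoidHom) (gen : Gen 0 2 p → _)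
    rw [surfaceWord_gen, map_one] at h1
    have h2 := congrArg Multiplicative.toAdd h1
    simp only [surfaceWord, List.ofFn_zero, List.prod_nil, one_mul, List.ofFn_succ, List.prod_cons,
      mul_one, MonoidHom.comp_apply, MulEquiv.coe_toMonoidHom, hc, List.ofFn_const,
      List.prod_replicate, one_pow, toAdd_one, toAdd_mul, toAdd_pow, nsmul_eq_mul] at h2
    have h3 : χ.comp φ.toMonoidHom = (zpowersHom _ (χ (φ (gen (xE 0))))).comp χ := by
      refine PresentedGroup.ext ?_
      rintro (i | i | i | l)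
      · exact i.elim0
      · exact i.elim0
      · fin_cases i
        · simp [e0]
        · apply Multiplicative.toAdd.injective
          have : (Fin.succ 0 : Fin 2) = 1 := rfl
          rw [this] at h2
          change (χ (φ (gen (xE 1)))).toAdd = (χ (φ (gen (xE 0))) ^ (χ (gen (xE 1))).toAdd).toAdd
          rw [e1]
          simp only [toAdd_inv, toAdd_ofAdd, toAdd_zpow, smul_eq_mul, xE]
          omega
      · have := ec l
        simp only [genC] at this
        simp [hc, this]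
    have h4 : ∀ x, (χ (φ x)).toAdd = (χ x).toAdd * (χ (φ (gen (xE 0)))).toAdd := fun x => by
      simpa using congrArg Multiplicative.toAdd (DFunLike.congr_fun h3 x)
    have h5 := h4 (φ⁻¹ (gen (xE 0)))
    rw [MulAut.apply_inv_self, e0, toAdd_ofAdd] at h5
    have h6 : (χ (φ (gen (xE 0)))).toAdd.natAbs = 1 :=
      Int.isUnit_iff_natAbs_eq.1 (IsUnit.of_mul_eq_one_right _ h5.symm)
    intro x
    rw [h4, Int.natAbs_mul, h6, mul_one]
  exact top_of_bounded χ (gen (xE 0)) e0 (fun x => ⟨_, fun φ hφ => (key φ hφ _).le⟩) hC r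

theorem trivial_zero (hp : p ≤ 1) (S : Set (SurfaceGroup 0 0 p)) (n : ℕ) :
    lcsDiameter S n ≤ (0 : ℕ) := by
  have : (⊥ : Subgroup (SurfaceGroup 0 0 p)) = ⊤ := by
    refine top_le_of_gen (MonoidHom.id _) surjective_id _ ?_
    rintro (i | i | i | l)
    · exact i.elim0
    · exact i.elim0
    · exact i.elim0
    · obtain rfl : p = 1 := by have := l.pos; omega
      have h1 := surfaceWord_gen (g := 0) (k := 0) (p := 1)
      rw [Subsingleton.elim l 0]
      simpa [surfaceWord] using h1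
  refine (lcsDiameter_le_iff _ _ _).2 fun x => ⟨[], by simp, le_rfl, ?_⟩
  have hx : x = 1 := mem_bot.1 (this ▸ mem_top x)
  simp [hx]

theorem proj_upper {C : Set (SurfaceGroup 0 1 0)} (hC : standardCurves 0 1 0 ⊆ C) (n : ℕ) :
    lcsDiameter (orbitSet C) n ≤ (1 : ℕ) := by
  have h1 : (genE 0 : SurfaceGroup 0 1 0) * genE 0 = 1 := by
    have := surfaceWord_gen (g := 0) (k := 1) (p := 0)
    simp only [surfaceWord, sq, List.ofFn_zero, List.prod_nil, one_mul, List.ofFn_succ,
      List.prod_cons, mul_one] at this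
    exact this
  let K : Subgroup (SurfaceGroup 0 1 0) :=
    { carrier := {x | x = 1 ∨ x = genE 0}
      one_mem' := Or.inl rfl
      mul_mem' := by rintro _ _ (rfl | rfl) (rfl | rfl) <;> simp [h1]
      inv_mem' := by
        rintro _ (rfl | rfl)
        · simp
        · exact Or.inr (eq_inv_of_mul_eq_one_left h1).symm }
  have hK : K = ⊤ := by
    refine top_le_of_gen (MonoidHom.id _) surjective_id _ ?_
    rintro (i | i | i | l)
    · exact i.elim0
    · exact i.elim0
    · rw [Subsingleton.elim i 0]; exact Or.inr rfl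
    · exact l.elim0
  refine (lcsDiameter_le_iff _ _ _).2 fun x => ?_
  have hx : x ∈ K := hK ▸ mem_top x
  rcases hx with rfl | rfl
  · exact ⟨[], by simp, by simp, by simp⟩
  · refine ⟨[genE 0], ?_, le_rfl, by simp⟩
    intro y hy
    rw [List.mem_singleton.1 hy]
    exact Or.inl (subset_orbit (hC (Or.inl (Or.inr ⟨0, rfl⟩))))

theorem proj_lower (S : Set (SurfaceGroup 0 1 0)) : ¬ lcsDiameter S 1 ≤ (0 : ℕ) := by
  intro h
  obtain ⟨l, -, h2, h3⟩ := (lcsDiameter_le_iff _ _ _).1 h (genE 0)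
  rw [Nat.le_zero, List.length_eq_zero_iff] at h2
  let t : Gen 0 1 0 → Multiplicative (ZMod 2) := fun _ => Multiplicative.ofAdd 1
  have ht : surfaceWord t = 1 := by simp [surfaceWord, t]; decide
  have := hom_lcs_one (homOf t ht) h3
  rw [h2, List.prod_nil, map_one, genE, homOf_gen] at this
  exact absurd this (by decide)

end Pool.Agent.P.MP_038aca_al
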