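import Mathlib

/-! The lower exponent-2 central series. -/

namespace Pool.Agent.P.MP_038aca_al

open Subgroup
open scoped commutatorElement

variable {G : Type*} [Group G]

/-- Elements commuting with all of `A` modulo the normal subgroup `N`. -/
def cent (A : Set G) (N : Subgroup G) [hN : N.Normal] : Subgroup G where
  carrier := {y | ∀ x ∈ A, ⁅x, y⁆ ∈ N}
  one_mem' := by intro x _; simp
  mul_mem' := by
    intro y z hy hz x hx
    have : ⁅x, y * z⁆ = ⁅x, y⁆ * (y * ⁅x, z⁆ * y⁻¹) := by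
      simp only [commutatorElement_def]; group
    rw [this]
    exact N.mul_mem (hy x hx) (hN.conj_mem _ (hz x hx) y)
  inv_mem' := by
    intro y hy x hx
    have : ⁅x, y⁻¹⁆ = y⁻¹ * ⁅x, y⁆⁻¹ * y⁻¹⁻¹ := by
      simp only [commutatorElement_def]; group
    rw [this]
    exact hN.conj_mem _ (N.inv_mem (hy x hx)) _

theorem mem_cent {A : Set G} {N : Subgroup G} [N.Normal] {y : G} :
    y ∈ cent A N ↔ ∀ x ∈ A, ⁅x, y⁆ ∈ N := Iff.rfl

theorem three_subgroups {A B C N : Subgroup G} [N.Normal] (h1 : ⁅⁅B, C⁆, A⁆ ≤ N)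
    (h2 : ⁅⁅C, A⁆, B⁆ ≤ N) : ⁅⁅A, B⁆, C⁆ ≤ N := by
  have key : ∀ K : Subgroup G, K ≤ N ↔ K.map (QuotientGroup.mk' N) = ⊥ := by
    intro K
    rw [Subgroup.map_eq_bot_iff, QuotientGroup.ker_mk']
  rw [key] at h1 h2 ⊢
  simp only [Subgroup.map_commutator] at h1 h2 ⊢
  exact commutator_commutator_eq_bot_of_rotate h1 h2

/-- If `y i` generate `G` modulo `K`, commutators with the `y i` and with `K` generate `[U, G]`. -/
theorem commutator_top_le {ι : Type*} (y : ι → G) (U K M : Subgroup G) [M.Normal]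
    (hgen : closure (Set.range y) ⊔ K = ⊤) (hy : ∀ u ∈ U, ∀ i, ⁅u, y i⁆ ∈ M)
    (hK : ∀ u ∈ U, ∀ x ∈ K, ⁅u, x⁆ ∈ M) : ⁅U, (⊤ : Subgroup G)⁆ ≤ M := by
  have : (⊤ : Subgroup G) ≤ cent (U : Set G) M := by
    rw [← hgen]
    refine sup_le ?_ ?_
    · rw [closure_le]
      rintro _ ⟨i, rfl⟩ u hu
      exact hy u hu i
    · intro x hx u hu
      exact hK u hu x hx
  rw [commutator_le]
  intro u hu x hx
  exact this hx u hu

variable (G) in
/-- Lower exponent-2 central series, `P 0 = ⊤`. -/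
def P : ℕ → Subgroup G
  | 0 => ⊤
  | n + 1 => ⁅P n, ⊤⁆ ⊔ closure {x | ∃ u ∈ P n, x = u ^ 2}

theorem P_zero : P G 0 = ⊤ := rfl

theorem P_succ (n : ℕ) : P G (n + 1) = ⁅P G n, ⊤⁆ ⊔ closure {x | ∃ u ∈ P G n, x = u ^ 2} := rfl

theorem comm_mem_P {n : ℕ} {u : G} (hu : u ∈ P G n) (x : G) : ⁅u, x⁆ ∈ P G (n + 1) :=
  (le_sup_left : _ ≤ P G (n + 1)) (commutator_mem_commutator hu (mem_top x))

theorem sq_mem_P {n : ℕ} {u : G} (hu : u ∈ P G n) : u ^ 2 ∈ P G (n + 1) :=
  (le_sup_right : _ ≤ P G (n + 1)) (subset_closure ⟨u, hu, rfl⟩)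

theorem P_succ_le {n : ℕ} {K : Subgroup G} (h1 : ∀ u ∈ P G n, ∀ x, ⁅u, x⁆ ∈ K)
    (h2 : ∀ u ∈ P G n, u ^ 2 ∈ K) : P G (n + 1) ≤ K := by
  rw [P_succ]
  refine sup_le (commutator_le.2 fun u hu x _ => h1 u hu x) ((closure_le _).2 ?_)
  rintro _ ⟨u, hu, rfl⟩
  exact h2 u hu

theorem map_mem_P {H : Type*} [Group H] (f : G →* H) (n : ℕ) :
    ∀ x ∈ P G n, f x ∈ P H n := by
  induction n with
  | zero => intro x _; exact mem_top _
  | succ n ih =>
    have : P G (n + 1) ≤ (P H (n + 1)).comap f := by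
      refine P_succ_le ?_ ?_
      · intro u hu x
        rw [mem_comap, map_commutatorElement]
        exact comm_mem_P (ih u hu) _
      · intro u hu
        rw [mem_comap, map_pow]
        exact sq_mem_P (ih u hu)
    exact fun x hx => this hx

instance P_normal (n : ℕ) : (P G n).Normal :=
  ⟨fun x hx y => by simpa using map_mem_P (MulAut.conj y).toMonoidHom n x hx⟩

theorem P_succ_le_self (n : ℕ) : P G (n + 1) ≤ P G n := by
  refine P_succ_le ?_ ?_
  · intro u hu x
    have : ⁅u, x⁆ = u * (x * u⁻¹ * x⁻¹) := by simp only [commutatorElement_def]; group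
    rw [this]
    exact mul_mem hu ((P_normal n).conj_mem _ (inv_mem hu) _)
  · intro u hu
    exact pow_mem hu 2

theorem P_anti {m n : ℕ} (h : m ≤ n) : P G n ≤ P G m :=
  antitone_nat_of_succ_le (f := P G) P_succ_le_self h

theorem comm_mem_P' {n : ℕ} {u : G} (hu : u ∈ P G n) (x : G) : ⁅x, u⁆ ∈ P G (n + 1) := by
  rw [← commutatorElement_inv]
  exact inv_mem (comm_mem_P hu x)

theorem commutator_P (j : ℕ) : ∀ i : ℕ, ⁅P G i, P G j⁆ ≤ P G (i + j + 1) := by
  induction j with
  | zero => intro i; exact le_sup_left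
  | succ j ih =>
    intro i
    have h : P G (j + 1) ≤ cent (P G i : Set G) (P G (i + (j + 1) + 1)) := by
      refine P_succ_le ?_ ?_
      · have h3 : ⁅⁅P G j, (⊤ : Subgroup G)⁆, P G i⁆ ≤ P G (i + (j + 1) + 1) := by
          apply three_subgroups
          · rw [commutator_comm ⊤ (P G i)]
            refine le_trans (commutator_mono (le_sup_left : _ ≤ P G (i + 1)) le_rfl) ?_
            have := ih (i + 1)
            rwa [show i + 1 + j + 1 = i + (j + 1) + 1 by ring] at this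
          · exact le_trans (commutator_mono (ih i) le_rfl) (le_sup_left : _ ≤ P G (i + j + 1 + 1))
        intro u hu x y hy
        rw [← commutatorElement_inv]
        exact inv_mem (h3 (commutator_mem_commutator (commutator_mem_commutator hu (mem_top x)) hy))
      · intro u hu x hx
        have h1 : ⁅x, u⁆ ∈ P G (i + j + 1) := ih i (commutator_mem_commutator hx hu)
        have : ⁅x, u ^ 2⁆ = ⁅x, u⁆ ^ 2 * ⁅⁅x, u⁆⁻¹, u⁆ := by
          simp only [commutatorElement_def, sq]; group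
        rw [this]
        exact mul_mem (sq_mem_P h1) (comm_mem_P (inv_mem h1) _)
    rw [commutator_le]
    intro x hx y hy
    exact h hy x hx

theorem comm_mem_PP {i j n : ℕ} {x y : G} (hx : x ∈ P G i) (hy : y ∈ P G j) (h : n ≤ i + j + 1) :
    ⁅x, y⁆ ∈ P G n :=
  P_anti h (commutator_P j i (commutator_mem_commutator hx hy))

theorem lcs_le_P (n : ℕ) : (⊤ : Subgroup G).lowerCentralSeries n ≤ P G n := by
  induction n with
  | zero => exact le_rfl
  | succ n ih => exact le_trans (commutator_mono ih le_rfl) le_sup_left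

theorem pow_two_pow_mem_P {j : ℕ} {x : G} (hx : x ∈ P G j) (m : ℕ) : x ^ 2 ^ m ∈ P G (j + m) := by
  induction m with
  | zero => simpa using hx
  | succ m ih =>
    rw [pow_succ, pow_mul]
    exact sq_mem_P ih

theorem sq_congr {j : ℕ} {x y : G} (h : x⁻¹ * y ∈ P G j) : (x ^ 2)⁻¹ * y ^ 2 ∈ P G (j + 1) := by
  have : (x ^ 2)⁻¹ * y ^ 2 = ⁅x⁻¹, x⁻¹ * y⁆ * (x⁻¹ * y) ^ 2 := by
    simp only [commutatorElement_def, sq]; group
  rw [this]
  exact mul_mem (comm_mem_P' h _) (sq_mem_P h)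

theorem pow_two_pow_congr {j : ℕ} {x y : G} (h : x⁻¹ * y ∈ P G j) (m : ℕ) :
    (x ^ 2 ^ m)⁻¹ * y ^ 2 ^ m ∈ P G (j + m) := by
  induction m with
  | zero => simpa using h
  | succ m ih =>
    rw [pow_succ, pow_mul, pow_mul]
    exact sq_congr ih

instance P_finiteIndex [hG : Group.FG G] (n : ℕ) : (P G n).FiniteIndex := by
  induction n with
  | zero => rw [P_zero]; infer_instance
  | succ n ih =>
    have hfg : Group.FG (P G n) := inferInstance
    let N : Subgroup (P G n) := (P G (n + 1)).subgroupOf (P G n)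
    have hN : N.Normal := inferInstance
    have hcomm : IsMulCommutative ((P G n) ⧸ N) := by
      rw [Subgroup.Normal.quotient_commutative_iff_commutator_le, commutator_def, commutator_le]
      intro x _ y _
      rw [mem_subgroupOf]
      exact comm_mem_P x.2 _
    have hfin : Finite ((P G n) ⧸ N) := by
      letI : CommGroup ((P G n) ⧸ N) :=
        { (inferInstance : Group ((P G n) ⧸ N)) with mul_comm := hcomm.is_comm.comm }
      apply CommGroup.finite_of_fg_isMulTorsion
      intro x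
      obtain ⟨x, rfl⟩ := QuotientGroup.mk_surjective x
      refine isOfFinOrder_iff_pow_eq_one.2 ⟨2, by norm_num, ?_⟩
      rw [← QuotientGroup.mk_pow, QuotientGroup.eq_one_iff, mem_subgroupOf]
      exact sq_mem_P x.2
    constructor
    rw [← relIndex_mul_index (P_succ_le_self n)]
    exact mul_ne_zero (index_ne_zero_of_finite (H := N)) ih.index_ne_zero

end Pool.Agent.P.MP_038aca_al
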