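import Pool.Agent.P.MP_038aca_al.Moves2

/-! The upper bound `d_n ≤ rank + 1`. -/

namespace Pool.Agent.P.MP_038aca_al

open Subgroup Function

variable {g k p : ℕ}

theorem cg1 {A : Type*} [CommGroup A] (a b c : A) : a * b * (b * c) * (b ^ 2)⁻¹ = a * c := by
  apply Additive.ofMul.injective
  simp only [ofMul_mul, ofMul_inv, ofMul_pow]
  abel

theorem cg2 {A : Type*} [CommGroup A] (a b c : A) : a * b * (a * c) * (a * a)⁻¹ = b * c := by
  apply Additive.ofMul.injective
  simp only [ofMul_mul, ofMul_inv]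
  abel

theorem cg3 {A : Type*} [CommGroup A] (a e x : A) : a * e * (x * a⁻¹ * e * (e * e)⁻¹) = x := by
  apply Additive.ofMul.injective
  simp only [ofMul_mul, ofMul_inv]
  abel

theorem orbit_map {C : Set (SurfaceGroup g k p)} {φ : MulAut (SurfaceGroup g k p)} (hφ : IsPer φ)
    {x : SurfaceGroup g k p} (hx : x ∈ orbitSet C) : φ x ∈ orbitSet C := by
  obtain ⟨ψ, hψ, y, hy, rfl⟩ := hx
  exact ⟨φ * ψ, hφ.mul hψ, y, hy, rfl⟩

theorem subset_orbit {C : Set (SurfaceGroup g k p)} {x : SurfaceGroup g k p} (hx : x ∈ C) :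
    x ∈ orbitSet C := ⟨1, isPer_one, x, hx, rfl⟩

variable (g k p) in
/-- The twist `a ↦ a b^m`. -/
def twA (m : ℤ) : SurfaceGroup (g + 1) k p →* SurfaceGroup (g + 1) k p :=
  homOf (mkT (a0 g k p * b0 g k p ^ m) (b0 g k p) s0) (by rw [surfaceWord_mkT, ← rel0]; group)

theorem twA_a (m : ℤ) : twA g k p m (a0 g k p) = a0 g k p * b0 g k p ^ m := homOf_gen _ _ _
theorem twA_b (m : ℤ) : twA g k p m (b0 g k p) = b0 g k p := homOf_gen _ _ _
theorem twA_s (m : ℤ) (y : Gen g k p) : twA g k p m (s0 y) = s0 y :=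
  (homOf_gen _ _ _).trans (mkT_embH _ _ _ y)

variable (g k p) in
/-- The twist `b ↦ b a^m`. -/
def twB (m : ℤ) : SurfaceGroup (g + 1) k p →* SurfaceGroup (g + 1) k p :=
  homOf (mkT (a0 g k p) (b0 g k p * a0 g k p ^ m) s0) (by rw [surfaceWord_mkT, ← rel0]; group)

theorem twB_a (m : ℤ) : twB g k p m (a0 g k p) = a0 g k p := homOf_gen _ _ _
theorem twB_b (m : ℤ) : twB g k p m (b0 g k p) = b0 g k p * a0 g k p ^ m := homOf_gen _ _ _
theorem twB_s (m : ℤ) (y : Gen g k p) : twB g k p m (s0 y) = s0 y :=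
  (homOf_gen _ _ _).trans (mkT_embH _ _ _ y)

theorem twA_inv (m : ℤ) : ∀ x, twA g k p m (twA g k p (-m) (gen x)) = gen x :=
  forall_gen_handle (by simp [twA_a, twA_b]) (by simp [twA_b]) fun y => by simp [twA_s]

theorem twB_inv (m : ℤ) : ∀ x, twB g k p m (twB g k p (-m) (gen x)) = gen x :=
  forall_gen_handle (by simp [twB_a]) (by simp [twB_a, twB_b]) fun y => by simp [twB_s]

theorem orbit_twA {C : Set (SurfaceGroup (g + 1) k p)} (m : ℤ) {x : SurfaceGroup (g + 1) k p}
    (hx : x ∈ orbitSet C) : twA g k p m x ∈ orbitSet C :=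
  orbit_map (φ := autOf (twA g k p m) (twA g k p (-m)) (twA_inv m) (by simpa using twA_inv (-m)))
    (isPer_of_conj _ fun l => isConj_iff.2 ⟨1, by
      rw [one_mul, inv_one, mul_one]; exact twA_s m (xC l)⟩) hx

theorem orbit_twB {C : Set (SurfaceGroup (g + 1) k p)} (m : ℤ) {x : SurfaceGroup (g + 1) k p}
    (hx : x ∈ orbitSet C) : twB g k p m x ∈ orbitSet C :=
  orbit_map (φ := autOf (twB g k p m) (twB g k p (-m)) (twB_inv m) (by simpa using twB_inv (-m)))
    (isPer_of_conj _ fun l => isConj_iff.2 ⟨1, by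
      rw [one_mul, inv_one, mul_one]; exact twB_s m (xC l)⟩) hx

theorem of_twA (m : ℤ) (x : SurfaceGroup (g + 1) k p) : Abelianization.of (twA g k p m x) =
    Abelianization.of x * (Abelianization.of (b0 g k p) ^ m) ^ (nA g k p x).toAdd := by
  have : Abelianization.of.comp (twA g k p m) = Abelianization.of *
      (zpowersHom _ (Abelianization.of (b0 g k p) ^ m)).comp (nA g k p) :=
    PresentedGroup.ext (forall_gen_handle (by simp [twA_a, nA_a]) (by simp [twA_b, nA_b])
      fun y => by simp [twA_s, nA_s])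
  exact DFunLike.congr_fun this x

theorem moves_EE (i j : Fin k) : kap g k p (s0 (xE i)) * kap g k p (s0 (xE j)) ∈ moves g k p := by
  have h0 : 0 < k := i.pos
  have key : ∀ (n : ℕ) (hn : n < k),
      kap g k p (s0 (xE ⟨0, h0⟩)) * kap g k p (s0 (xE ⟨n, hn⟩)) ∈ moves g k p := by
    intro n
    induction n with
    | zero => intro hn; simpa [sq] using move_E (g := g) (p := p) ⟨0, h0⟩
    | succ n ih =>
      intro hn
      have hn' : n < k := by omega
      have h1 := ih hn'
      have h2 := move_EE (g := g) (p := p) ⟨n, hn'⟩ ⟨n + 1, hn⟩ rfl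
      have h3 := move_E (g := g) (p := p) (⟨n, hn'⟩ : Fin k)
      have := mul_mem (mul_mem h1 h2) (inv_mem h3)
      rwa [map_mul, map_pow, cg1] at this
  have := mul_mem (mul_mem (key i i.2) (key j j.2)) (inv_mem (key 0 h0))
  rwa [cg2] at this

theorem exists_simple {C : Set (SurfaceGroup (g + 1) k p)} (hC : standardCurves (g + 1) k p ⊆ C)
    (x : SurfaceGroup (g + 1) k p) (hx : nA g k p x = Multiplicative.ofAdd 1) :
    ∃ s ∈ orbitSet C, Abelianization.of s = Abelianization.of x := by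
  let L : Subgroup (Hbar g k p) :=
    { carrier := {v | v ∈ moves g k p ∨ ∃ j, v * kap g k p (s0 (xE j)) ∈ moves g k p}
      one_mem' := Or.inl (one_mem _)
      mul_mem' := by
        rintro v w (hv | ⟨i, hv⟩) (hw | ⟨j, hw⟩)
        · exact Or.inl (mul_mem hv hw)
        · exact Or.inr ⟨j, by rw [mul_assoc]; exact mul_mem hv hw⟩
        · exact Or.inr ⟨i, by rw [mul_right_comm]; exact mul_mem hv hw⟩
        · refine Or.inl ?_
          have := mul_mem (mul_mem hv hw) (inv_mem (moves_EE i j))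
          rwa [mul_mul_mul_comm, mul_inv_cancel_right] at this
      inv_mem' := by
        rintro v (hv | ⟨i, hv⟩)
        · exact Or.inl (inv_mem hv)
        · refine Or.inr ⟨i, ?_⟩
          have := mul_mem (inv_mem hv) (moves_EE i i)
          rwa [mul_inv, mul_assoc, inv_mul_cancel_left] at this }
  let τ : SurfaceGroup (g + 1) k p →* Hbar g k p :=
    kap g k p * (zpowersHom _ (kap g k p (a0 g k p))⁻¹).comp (nA g k p)
  have hτ : τ x ∈ L := by
    refine PresentedGroup.generated_by _ (L.comap τ) (forall_gen_handle ?_ ?_ ?_) x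
    · change τ (a0 g k p) ∈ L
      simp [τ, nA_a]
    · change τ (b0 g k p) ∈ L
      simp [τ, nA_b, kap_b]
    · intro y
      have : τ (s0 y) = kap g k p (s0 y) := by simp [τ, nA_s]
      change τ (s0 y) ∈ L
      rw [this]
      rcases y with i | i | j | l
      · exact Or.inl (move_A i)
      · exact Or.inl (move_B i)
      · exact Or.inr ⟨j, moves_EE j j⟩
      · exact Or.inl (move_C l)
  have hτ' : τ x = kap g k p x * (kap g k p (a0 g k p))⁻¹ := by simp [τ, hx]
  rw [hτ'] at hτ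
  have h1 : ∃ s ∈ orbitSet C, kap g k p s = kap g k p x ∧
      nA g k p s = Multiplicative.ofAdd 1 := by
    rcases hτ with ⟨φ, h1, h2, h3⟩ | ⟨j, hj⟩
    · refine ⟨φ (a0 g k p), orbit_map h1 (subset_orbit (hC (Or.inl (Or.inl ⟨0, rfl⟩)))), ?_, ?_⟩
      · simp [h2, nA_a]
      · rw [h3, nA_a]
    · obtain ⟨φ, h1, h2, h3⟩ := mul_mem hj (inv_mem (moves_EE j j))
      refine ⟨φ (a0 g k p * s0 (xE j)),
        orbit_map h1 (subset_orbit (hC (Or.inr ⟨0, j, rfl⟩))), ?_, ?_⟩
      · rw [h2, map_mul, map_mul, nA_a, nA_s, mul_one, toAdd_ofAdd, zpow_one, cg3]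
      · rw [h3, map_mul, nA_a, nA_s, mul_one]
  obtain ⟨s, hs, h2, h3⟩ := h1
  obtain ⟨m, hm⟩ := mem_zpowers_iff.1 (QuotientGroup.eq.1 h2)
  refine ⟨twA g k p m s, orbit_twA m hs, ?_⟩
  rw [of_twA, h3, hm]
  simp

theorem upper_aux {q : ℕ} (j : Gen g k q → Gen g k p)
    (hj : ∀ K : Subgroup (SurfaceGroup (g + 1) k p), a0 g k p ∈ K → b0 g k p ∈ K →
      (∀ y, s0 (j y) ∈ K) → K = ⊤)
    {C : Set (SurfaceGroup (g + 1) k p)} (hC : standardCurves (g + 1) k p ⊆ C) (n : ℕ) :
    lcsDiameter (orbitSet C) n ≤ (2 * (g + 1) + k + q + 1 : ℕ) := by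
  refine lcsDiameter_le_of_le _ (Nat.le_succ n) ((lcsDiameter_le_iff _ _ _).2 fun x => ?_)
  have ha : a0 g k p ∈ orbitSet C := subset_orbit (hC (Or.inl (Or.inl ⟨0, rfl⟩)))
  have h1 : ∀ y : Gen g k q, ∃ s ∈ orbitSet C,
      Abelianization.of s = Abelianization.of (a0 g k p * s0 (j y)) :=
    fun y => exists_simple hC _ (by rw [map_mul, nA_a, nA_s, mul_one])
  choose v hv hv' using h1
  have hcard : Fintype.card (Gen g k q) = 2 * g + k + q := by simp; ring
  let e := (Fintype.equivFinOfCardEq hcard).symm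
  let w : Fin (2 * g + k + q) → SurfaceGroup (g + 1) k p := fun i => v (e i)
  let m : ℤ := (nA g k p x).toAdd - 3 - (nA g k p (List.ofFn w).prod).toAdd
  let vb := twB g k p m (twA g k p 1 (a0 g k p))
  have hvb : vb = a0 g k p * b0 g k p * a0 g k p ^ m := by
    simp [vb, twA_a, twB_a, twB_b, mul_assoc]
  let y : Fin (2 * g + k + q + 1 + 1) → SurfaceGroup (g + 1) k p :=
    Fin.cons vb (Fin.cons (a0 g k p) w)
  have hy : ∀ i, y i ∈ orbitSet C := by
    intro i
    refine Fin.cases ?_ (fun i => Fin.cases ?_ (fun i => ?_) i) i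
    · exact orbit_twB _ (orbit_twA _ ha)
    · exact ha
    · exact hv _
  have hprod : (List.ofFn y).prod = vb * (a0 g k p * (List.ofFn w).prod) := by
    simp only [List.ofFn_succ, List.prod_cons, y, Fin.cons_zero, Fin.cons_succ]
  obtain ⟨v0, hv0, hv0'⟩ := exists_simple hC (x * (List.ofFn y).prod⁻¹) (by
    rw [hprod, hvb]
    simp only [map_mul, map_inv, map_zpow, nA_a, nA_b]
    apply Multiplicative.toAdd.injective
    simp only [toAdd_mul, toAdd_inv, toAdd_zpow, toAdd_ofAdd, toAdd_one, smul_eq_mul, m]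
    ring)
  have hgen : closure (Set.range y) ⊔ commutator _ = ⊤ := by
    have hmem : ∀ i, y i ∈ closure (Set.range y) ⊔ commutator _ :=
      fun i => mem_sup_left (subset_closure ⟨i, rfl⟩)
    have ha' : a0 g k p ∈ closure (Set.range y) ⊔ commutator _ := hmem (Fin.succ 0)
    refine hj _ ha' ?_ fun z => ?_
    · have := mul_mem (mul_mem (inv_mem ha') (hmem 0)) (inv_mem (zpow_mem ha' m))
      simpa [y, hvb, mul_assoc] using this
    · have h2 : v z ∈ closure (Set.range y) ⊔ commutator _ := by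
        have := hmem (Fin.succ (Fin.succ (e.symm z)))
        simpa [y, w] using this
      have h3 : (v z)⁻¹ * (a0 g k p * s0 (j z)) ∈ closure (Set.range y) ⊔ commutator _ :=
        mem_sup_right (QuotientGroup.eq.1 (hv' z))
      simpa using mul_mem (inv_mem ha') (mul_mem h2 h3)
  obtain ⟨h, hh⟩ := exists_conj_prod y hgen (v0⁻¹ * x) (by
    rw [← Abelianization.ker_of, MonoidHom.mem_ker, map_mul, map_mul, map_inv, map_inv, hv0']
    simp) n
  refine ⟨v0 :: List.ofFn fun i => h i * y i * (h i)⁻¹, ?_, ?_, ?_⟩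
  · intro z hz
    rcases List.mem_cons.1 hz with rfl | hz
    · exact Or.inl hv0
    · obtain ⟨i, rfl⟩ := List.mem_ofFn.1 hz
      exact Or.inl (orbit_map (isPer_conj (h i)) (hy i))
  · simp only [List.length_cons, List.length_ofFn]; omega
  · simpa [mul_assoc] using hh

theorem upper_bound {C : Set (SurfaceGroup (g + 1) k p)} (hC : standardCurves (g + 1) k p ⊆ C)
    (n : ℕ) : lcsDiameter (orbitSet C) n ≤ (2 * (g + 1) + k + (p - 1) + 1 : ℕ) := by
  cases p with
  | zero =>
    refine upper_aux id (fun K ha hb hs => ?_) hC n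
    exact top_le_of_gen (MonoidHom.id _) surjective_id K (forall_gen_handle ha hb hs)
  | succ p =>
    refine upper_aux emb (fun K ha hb hs => ?_) hC n
    refine top_le_of_gen (MonoidHom.id _) surjective_id K
      (forall_gen_handle ha hb (forall_gen_succ hs ?_))
    have h := rel0 (g := g) (k := k) (p := p + 1)
    have h2 := surfaceWord_succ (s0 : Gen g k (p + 1) → SurfaceGroup (g + 1) k (p + 1))
    rw [h2, ← mul_assoc] at h
    rw [MonoidHom.id_apply, ← inv_mem_iff, ← eq_inv_of_mul_eq_one_left h]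
    exact mul_mem (mul_mem (mul_mem (mul_mem ha hb) (inv_mem ha)) (inv_mem hb))
      (surfaceWord_mem _ _ hs)

end Pool.Agent.P.MP_038aca_al
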